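import Pool.Agent.Helper2.RO.Defs

/-! Module Rad: the radius function `rad dev y T` for general operators `T` (seminorm `‖T x‖`). -/

set_option autoImplicit false
set_option linter.unusedSectionVars false

open Set Filter Topology

namespace Pool.Agent.Helper2.RO

open Pool.Agent.Helper2.MK Pool.Agent.Helper50.HL

variable {V W W' Y : Type*} [NormedAddCommGroup V] [NormedSpace ℝ V] [FiniteDimensional ℝ V]
    [NormedAddCommGroup W] [NormedSpace ℝ W] [NormedAddCommGroup W'] [NormedSpace ℝ W']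
    [TopologicalSpace Y] [T2Space Y] {dev : Y → V}

theorem isOpen_tball (T : V →L[ℝ] W) (c : V) (r : ℝ) : IsOpen {x | ‖T (x - c)‖ < r} :=
  isOpen_lt (T.continuous.comp (continuous_id.sub continuous_const)).norm continuous_const

theorem convex_tball (T : V →L[ℝ] W) (c : V) (r : ℝ) : Convex ℝ {x | ‖T (x - c)‖ < r} := by
  intro x hx y hy a b ha hb hab
  simp only [mem_setOf_eq] at hx hy ⊢
  have h1 : a • x + b • y - c = a • (x - c) + b • (y - c) := by
    have : c = a • c + b • c := by rw [← add_smul, hab, one_smul]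
    rw [smul_sub, smul_sub]
    nth_rw 1 [this]
    abel
  rw [h1, map_add, map_smul, map_smul]
  have h2 := norm_add_le (a • T (x - c)) (b • T (y - c))
  rw [norm_smul, norm_smul, Real.norm_of_nonneg ha, Real.norm_of_nonneg hb] at h2
  rcases eq_or_lt_of_le ha with h0 | h0
  · subst h0
    have hb1 : b = 1 := by linarith
    subst hb1
    linarith
  · have h3 : a * ‖T (x - c)‖ < a * r := mul_lt_mul_of_pos_left hx h0
    have h4 : b * ‖T (y - c)‖ ≤ b * r := mul_le_mul_of_nonneg_left hy.le hb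
    have h5 : a * r + b * r = r := by rw [← add_mul, hab, one_mul]
    linarith

theorem rad_nonneg (y : Y) (T : V →L[ℝ] W) : 0 ≤ rad dev y T := by
  unfold rad
  apply Real.sInf_nonneg
  rintro _ ⟨x, -, rfl⟩
  exact norm_nonneg _

theorem rad_le {y : Y} {T : V →L[ℝ] W} {b : V} (hb : b ∉ dom dev y) :
    rad dev y T ≤ ‖T (b - dev y)‖ := by
  refine csInf_le ⟨0, ?_⟩ (mem_image_of_mem (fun b => ‖T (b - dev y)‖) hb)
  rintro _ ⟨x, -, rfl⟩
  exact norm_nonneg _

theorem mem_dom_of_lt {y : Y} {T : V →L[ℝ] W} {x : V} (hx : ‖T (x - dev y)‖ < rad dev y T) :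
    x ∈ dom dev y := by
  by_contra h
  exact absurd (rad_le (T := T) h) (not_le.2 hx)

theorem rad_congr {y : Y} {T : V →L[ℝ] W} {T' : V →L[ℝ] W'} (h : ∀ x, ‖T x‖ = ‖T' x‖) :
    rad dev y T = rad dev y T' := by
  unfold rad
  simp only [h]

section

variable (hinc : ∀ y, dom dev y ≠ univ)
include hinc

theorem rad_exists_notMem (y : Y) : ∃ x0, x0 ∉ dom dev y := by
  by_contra h
  push Not at h
  exact hinc y (eq_univ_of_forall h)

theorem le_rad {y : Y} {T : V →L[ℝ] W} {r : ℝ} (h : ∀ x, ‖T (x - dev y)‖ < r → x ∈ dom dev y) :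
    r ≤ rad dev y T := by
  obtain ⟨x0, hx0⟩ := rad_exists_notMem hinc y
  refine le_csInf ⟨_, mem_image_of_mem _ hx0⟩ ?_
  rintro _ ⟨x, hx, rfl⟩
  by_contra h'
  push Not at h'
  exact hx (h x h')

/-- If the seminorm is a norm, contacts exist. -/
theorem exists_contact {y : Y} {T : V →L[ℝ] W} {c : ℝ} (hc : ∀ x, ‖x‖ ≤ c * ‖T x‖) :
    ∃ b, IsContact dev y T b := by
  haveI : ProperSpace V := FiniteDimensional.proper ℝ V
  obtain ⟨x0, hx0⟩ := rad_exists_notMem hinc y
  have hcl : IsClosed (dom dev y)ᶜ := (isOpen_dom y).isClosed_compl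
  have hcont : Continuous fun b => ‖T (b - dev y)‖ :=
    (T.continuous.comp (continuous_id.sub continuous_const)).norm
  set c' := max c 1 with hc'
  have hc'0 : 0 < c' := lt_of_lt_of_le one_pos (le_max_right _ _)
  have hcc : ∀ x, ‖x‖ ≤ c' * ‖T x‖ := fun x =>
    (hc x).trans (mul_le_mul_of_nonneg_right (le_max_left _ _) (norm_nonneg _))
  have htend : Tendsto (fun b => ‖T (b - dev y)‖) (cocompact V) atTop := by
    have h1 : Tendsto (fun b : V => c'⁻¹ * (‖b‖ - ‖dev y‖)) (cocompact V) atTop := by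
      refine Tendsto.const_mul_atTop (inv_pos.2 hc'0) ?_
      exact tendsto_atTop_add_const_right _ _ (tendsto_norm_cocompact_atTop)
    refine tendsto_atTop_mono (fun b => ?_) h1
    have h2 := hcc (b - dev y)
    have h3 : ‖b‖ - ‖dev y‖ ≤ ‖b - dev y‖ := norm_sub_norm_le _ _
    rw [inv_mul_le_iff₀ hc'0]
    exact h3.trans h2
  obtain ⟨b, hb, hmin⟩ := hcont.continuousOn.exists_isMinOn' hcl (x₀ := x0) hx0
    ((htend.eventually_ge_atTop _).filter_mono inf_le_left)
  refine ⟨b, hb, le_antisymm ?_ (rad_le hb)⟩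
  refine le_csInf ⟨_, mem_image_of_mem _ hx0⟩ ?_
  rintro _ ⟨x, hx, rfl⟩
  exact hmin hx

theorem rad_pos (hdev : IsLocalHomeomorph dev) {y : Y} {T : V →L[ℝ] W} {c : ℝ}
    (hc : ∀ x, ‖x‖ ≤ c * ‖T x‖) : 0 < rad dev y T := by
  obtain ⟨b, hb, hb'⟩ := exists_contact hinc (y := y) hc
  rw [← hb', norm_pos_iff]
  intro h0
  have h1 := hc (b - dev y)
  rw [h0, norm_zero, mul_zero] at h1
  have h2 : b - dev y = 0 := norm_le_zero_iff.1 h1
  rw [sub_eq_zero] at h2
  exact hb (h2 ▸ mem_dom_self hdev y)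

/-- comparison of two seminorms -/
theorem rad_le_mul {y : Y} {T : V →L[ℝ] W} {T' : V →L[ℝ] W'} {κ : ℝ} (hκ : 0 ≤ κ)
    (h : ∀ x, ‖T' x‖ ≤ κ * ‖T x‖) : rad dev y T' ≤ κ * rad dev y T := by
  rcases hκ.eq_or_lt with h0 | h0
  · obtain ⟨x0, hx0⟩ := rad_exists_notMem hinc y
    have h1 := (rad_le (T := T') hx0).trans (h _)
    rw [← h0, zero_mul] at h1 ⊢
    exact h1
  · have h1 : rad dev y T' / κ ≤ rad dev y T := by
      refine le_rad hinc fun x hx => ?_
      refine mem_dom_of_lt (T := T') (lt_of_le_of_lt (h _) ?_)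
      rw [lt_div_iff₀ h0] at hx
      linarith
    rw [div_le_iff₀ h0] at h1
    linarith

/-- Lipschitz dependence on the base point, uniformly in `T`. -/
theorem rad_near (hdev : IsLocalHomeomorph dev) (y : Y) : ∀ᶠ y' in 𝓝 y, ∀ T : V →L[ℝ] W,
    ‖T (dev y' - dev y)‖ < rad dev y T / 2 →
      rad dev y T - ‖T (dev y' - dev y)‖ ≤ rad dev y' T ∧
      rad dev y' T ≤ rad dev y T + ‖T (dev y' - dev y)‖ := by
  filter_upwards [near hdev y] with y' hy' T hd
  obtain ⟨hy1, hy2, hy3, hy4⟩ := hy'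
  set d := ‖T (dev y' - dev y)‖ with hd'
  have hd0 : 0 ≤ d := norm_nonneg _
  have hr : 0 < rad dev y T := by linarith
  have h1 : rad dev y T - d ≤ rad dev y' T := by
    refine le_rad hinc fun x hx => ?_
    have hC := rebase hdev (C := {x | ‖T (x - dev y)‖ < rad dev y T})
      (isOpen_tball _ _ _) (convex_tball _ _ _)
      (by simp only [mem_setOf_eq, sub_self, map_zero, norm_zero]; exact hr)
      (fun x hx => mem_dom_of_lt hx) (x := dev y') (show d < rad dev y T by linarith)
    rw [hy2] at hC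
    refine hC.1 ?_
    simp only [mem_setOf_eq]
    have e1 : x - dev y = (x - dev y') + (dev y' - dev y) := by abel
    rw [e1, map_add]
    have e2 := norm_add_le (T (x - dev y')) (T (dev y' - dev y))
    linarith
  refine ⟨h1, ?_⟩
  have h2 : rad dev y' T - d ≤ rad dev y T := by
    refine le_rad hinc fun x hx => ?_
    have hdd : ‖T (dev y - dev y')‖ = d := by
      rw [hd', ← neg_sub, map_neg, norm_neg]
    have hC := rebase hdev (y := y') (C := {x | ‖T (x - dev y')‖ < rad dev y' T})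
      (isOpen_tball _ _ _) (convex_tball _ _ _)
      (by simp only [mem_setOf_eq, sub_self, map_zero, norm_zero]; linarith)
      (fun x hx => mem_dom_of_lt hx) (x := dev y)
      (show ‖T (dev y - dev y')‖ < rad dev y' T by rw [hdd]; linarith)
    rw [hy4] at hC
    refine hC.1 ?_
    simp only [mem_setOf_eq]
    have e1 : x - dev y' = (x - dev y) + (dev y - dev y') := by abel
    rw [e1, map_add]
    have e2 := norm_add_le (T (x - dev y)) (T (dev y - dev y'))
    linarith
  linarith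

/-- continuity in the base point for a fixed seminorm with positive radii -/
theorem rad_continuous_base (hdev : IsLocalHomeomorph dev) {T : V →L[ℝ] W}
    (hT : ∀ y, 0 < rad dev y T) : Continuous fun y => rad dev y T := by
  rw [continuous_iff_continuousAt]
  intro y
  have hd : Tendsto (fun y' => ‖T (dev y' - dev y)‖) (𝓝 y) (𝓝 0) := by
    have hc : Continuous fun y' => ‖T (dev y' - dev y)‖ :=
      (T.continuous.comp (hdev.continuous.sub continuous_const)).norm
    have := hc.tendsto y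
    simpa using this
  have hev : ∀ᶠ y' in 𝓝 y, ‖T (dev y' - dev y)‖ < rad dev y T / 2 :=
    hd.eventually (gt_mem_nhds (half_pos (hT y)))
  have h1 : Tendsto (fun y' => rad dev y T - ‖T (dev y' - dev y)‖) (𝓝 y) (𝓝 (rad dev y T)) := by
    simpa using tendsto_const_nhds.sub hd
  have h2 : Tendsto (fun y' => rad dev y T + ‖T (dev y' - dev y)‖) (𝓝 y) (𝓝 (rad dev y T)) := by
    simpa using tendsto_const_nhds.add hd
  refine tendsto_of_tendsto_of_tendsto_of_le_of_le' h1 h2 ?_ ?_
  · filter_upwards [rad_near (W := W) hinc hdev y, hev] with y' ha hb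
    exact (ha T hb).1
  · filter_upwards [rad_near (W := W) hinc hdev y, hev] with y' ha hb
    exact (ha T hb).2

/-- joint continuity for the norms `‖exp(S) x‖` -/
theorem rad_ex_continuous (hdev : IsLocalHomeomorph dev)
    (hex : Continuous (ex : (V →L[ℝ] V) → (V →L[ℝ] V)))
    (hinv : ∀ (S : V →L[ℝ] V) (x : V), ex (-S) (ex S x) = x) :
    Continuous fun p : Y × (V →L[ℝ] V) => rad dev p.1 (ex p.2) := by
  have hle : ∀ (S : V →L[ℝ] V) (x : V), ‖x‖ ≤ ‖ex (-S)‖ * ‖ex S x‖ := by
    intro S x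
    have := (ex (-S)).le_opNorm (ex S x)
    rwa [hinv] at this
  have hpos : ∀ (y : Y) (S : V →L[ℝ] V), 0 < rad dev y (ex S) := fun y S =>
    rad_pos hinc hdev (hle S)
  have hcmp : ∀ (S S' : V →L[ℝ] V) (x : V),
      ‖ex S' x‖ ≤ (1 + ‖ex S' - ex S‖ * ‖ex (-S)‖) * ‖ex S x‖ := by
    intro S S' x
    have h1 : ex S' x = ex S x + (ex S' - ex S) x := by simp
    rw [h1]
    have h2 := norm_add_le (ex S x) ((ex S' - ex S) x)
    have h3 := (ex S' - ex S).le_opNorm x
    have h4 := mul_le_mul_of_nonneg_left (hle S x) (norm_nonneg (ex S' - ex S))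
    linarith
  rw [continuous_iff_continuousAt]
  rintro ⟨y, S⟩
  -- continuity in the second variable
  have hexneg : Continuous fun S' : V →L[ℝ] V => ex (-S') := hex.comp continuous_neg
  have hsnd : Tendsto (fun S' => rad dev y (ex S')) (𝓝 S) (𝓝 (rad dev y (ex S))) := by
    have k1 : Tendsto (fun S' : V →L[ℝ] V => (1 + ‖ex S' - ex S‖ * ‖ex (-S)‖) * rad dev y (ex S))
        (𝓝 S) (𝓝 (rad dev y (ex S))) := by
      have hc : Continuous fun S' : V →L[ℝ] V =>
          (1 + ‖ex S' - ex S‖ * ‖ex (-S)‖) * rad dev y (ex S) :=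
        (continuous_const.add ((hex.sub continuous_const).norm.mul continuous_const)).mul
          continuous_const
      have := hc.tendsto S
      simpa using this
    have k2 : Tendsto (fun S' : V →L[ℝ] V =>
        rad dev y (ex S) / (1 + ‖ex S - ex S'‖ * ‖ex (-S')‖)) (𝓝 S) (𝓝 (rad dev y (ex S))) := by
      have hc : Continuous fun S' : V →L[ℝ] V =>
          rad dev y (ex S) / (1 + ‖ex S - ex S'‖ * ‖ex (-S')‖) := by
        refine continuous_const.div
          (continuous_const.add ((continuous_const.sub hex).norm.mul hexneg.norm)) fun S' => ?_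
        have : 0 ≤ ‖ex S - ex S'‖ * ‖ex (-S')‖ := by positivity
        linarith
      have := hc.tendsto S
      simpa using this
    refine tendsto_of_tendsto_of_tendsto_of_le_of_le k2 k1 (fun S' => ?_) fun S' => ?_
    · have h0 : 0 ≤ ‖ex S - ex S'‖ * ‖ex (-S')‖ := by positivity
      have h1 := rad_le_mul hinc (y := y) (κ := 1 + ‖ex S - ex S'‖ * ‖ex (-S')‖) (by linarith)
        (hcmp S' S)
      simp only
      rw [div_le_iff₀ (by linarith)]
      linarith
    · have h0 : 0 ≤ ‖ex S' - ex S‖ * ‖ex (-S)‖ := by positivity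
      exact rad_le_mul hinc (by linarith) (hcmp S S')
  have hsnd' : Tendsto (fun p : Y × (V →L[ℝ] V) => rad dev y (ex p.2)) (𝓝 (y, S))
      (𝓝 (rad dev y (ex S))) := hsnd.comp (continuous_snd.tendsto (y, S))
  have hd : Tendsto (fun p : Y × (V →L[ℝ] V) => ‖ex p.2 (dev p.1 - dev y)‖) (𝓝 (y, S))
      (𝓝 0) := by
    have hc : Continuous fun p : Y × (V →L[ℝ] V) => ‖ex p.2 (dev p.1 - dev y)‖ :=
      ((hex.comp continuous_snd).clm_apply
        ((hdev.continuous.comp continuous_fst).sub continuous_const)).norm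
    have := hc.tendsto (y, S)
    simpa using this
  have hev : ∀ᶠ p : Y × (V →L[ℝ] V) in 𝓝 (y, S),
      ‖ex p.2 (dev p.1 - dev y)‖ < rad dev y (ex p.2) / 2 := by
    have h1 : Tendsto (fun p : Y × (V →L[ℝ] V) => rad dev y (ex p.2) / 2 -
        ‖ex p.2 (dev p.1 - dev y)‖) (𝓝 (y, S)) (𝓝 (rad dev y (ex S) / 2 - 0)) :=
      (hsnd'.div_const 2).sub hd
    have h2 : 0 < rad dev y (ex S) / 2 - 0 := by
      have := hpos y S
      linarith
    filter_upwards [h1.eventually (lt_mem_nhds h2)] with p hp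
    linarith
  have hnear : ∀ᶠ p : Y × (V →L[ℝ] V) in 𝓝 (y, S), ∀ T : V →L[ℝ] V,
      ‖T (dev p.1 - dev y)‖ < rad dev y T / 2 →
      rad dev y T - ‖T (dev p.1 - dev y)‖ ≤ rad dev p.1 T ∧
      rad dev p.1 T ≤ rad dev y T + ‖T (dev p.1 - dev y)‖ :=
    (continuous_fst.tendsto (y, S)).eventually (rad_near (W := V) hinc hdev y)
  have h1 : Tendsto (fun p : Y × (V →L[ℝ] V) => rad dev y (ex p.2) -
      ‖ex p.2 (dev p.1 - dev y)‖) (𝓝 (y, S)) (𝓝 (rad dev y (ex S))) := by
    simpa using hsnd'.sub hd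
  have h2 : Tendsto (fun p : Y × (V →L[ℝ] V) => rad dev y (ex p.2) +
      ‖ex p.2 (dev p.1 - dev y)‖) (𝓝 (y, S)) (𝓝 (rad dev y (ex S))) := by
    simpa using hsnd'.add hd
  refine tendsto_of_tendsto_of_tendsto_of_le_of_le' h1 h2 ?_ ?_
  · filter_upwards [hnear, hev] with p ha hb
    exact (ha _ hb).1
  · filter_upwards [hnear, hev] with p ha hb
    exact (ha _ hb).2

end

end Pool.Agent.Helper2.RO
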