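import Pool.Agent.Helper2.RO.Defs

/-! Module Aff: equivariance and compactness constants for compact affine manifolds. -/

set_option autoImplicit false
set_option linter.unusedSectionVars false

open Set Filter Topology

namespace Pool.Agent.Helper2.RO

open Pool.Agent.Helper2.MK Pool.Agent.Helper50.HL

variable {V G Y : Type*} [NormedAddCommGroup V] [NormedSpace ℝ V] [Group G]
    [TopologicalSpace Y] [MulAction G Y] (M : AffineDeveloping V G Y)

/-- The linear holonomy. -/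
def lin (g : G) : V ≃ₗ[ℝ] V := (M.hol g).linear

theorem lin_def (g : G) (x : V) : lin M g x = (M.hol g).linear x := rfl

theorem hol_sub (g : G) (x x' : V) : M.hol g x - M.hol g x' = lin M g (x - x') := by
  have := ((M.hol g : V ≃ᵃ[ℝ] V) : V →ᵃ[ℝ] V).linearMap_vsub x x'
  exact this.symm

theorem hol_one (x : V) : M.hol 1 x = x := by
  have h := M.hol_mul 1 1 x
  rw [mul_one] at h
  exact ((M.hol 1).injective h).symm

theorem hol_inv_hol (g : G) (x : V) : M.hol g⁻¹ (M.hol g x) = x := by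
  rw [← M.hol_mul, inv_mul_cancel, hol_one]

theorem hol_hol_inv (g : G) (x : V) : M.hol g (M.hol g⁻¹ x) = x := by
  rw [← M.hol_mul, mul_inv_cancel, hol_one]

theorem lin_mul (g g' : G) (x : V) : lin M (g * g') x = lin M g (lin M g' x) := by
  have h := hol_sub M (g * g') x 0
  rw [M.hol_mul, M.hol_mul, hol_sub, hol_sub] at h
  simpa using h.symm

theorem lin_one (x : V) : lin M 1 x = x := by
  have h := hol_sub M 1 x 0
  rw [hol_one, hol_one] at h
  simpa using h.symm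

theorem lin_inv_lin (g : G) (x : V) : lin M g⁻¹ (lin M g x) = x := by
  rw [← lin_mul, inv_mul_cancel, lin_one]

theorem lin_lin_inv (g : G) (x : V) : lin M g (lin M g⁻¹ x) = x := by
  rw [← lin_mul, mul_inv_cancel, lin_one]

theorem hol_continuous [FiniteDimensional ℝ V] (g : G) : Continuous (M.hol g) :=
  (M.hol g).continuous_of_finiteDimensional

theorem hol_convex_preimage (g : G) {C : Set V} (hC : Convex ℝ C) : Convex ℝ (M.hol g ⁻¹' C) :=
  hC.affine_preimage ((M.hol g : V ≃ᵃ[ℝ] V) : V →ᵃ[ℝ] V)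

/-- transport of a chart -/
theorem transport [FiniteDimensional ℝ V] (g : G) (y : Y) {C : Set V} (hC : IsOpen C)
    (hconv : Convex ℝ C) (hy : M.dev y ∈ C) {s : V → Y} (hs : IsSec M.dev C s)
    (h : s (M.dev y) = y) :
    IsOpen (M.hol g⁻¹ ⁻¹' C) ∧ Convex ℝ (M.hol g⁻¹ ⁻¹' C) ∧ M.dev (g • y) ∈ M.hol g⁻¹ ⁻¹' C ∧
      IsSec M.dev (M.hol g⁻¹ ⁻¹' C) (fun v => g • s (M.hol g⁻¹ v)) ∧
      g • s (M.hol g⁻¹ (M.dev (g • y))) = g • y := by
  have h1 : M.hol g⁻¹ (M.dev (g • y)) = M.dev y := by rw [M.dev_smul, hol_inv_hol]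
  refine ⟨hC.preimage (hol_continuous M _), hol_convex_preimage M _ hconv, ?_, ⟨?_, ?_⟩, ?_⟩
  · show M.hol g⁻¹ _ ∈ C
    rw [h1]; exact hy
  · exact (M.covering.continuous_smul g).comp_continuousOn
      (hs.1.comp (hol_continuous M _).continuousOn fun v hv => hv)
  · intro v hv
    rw [M.dev_smul, hs.2 _ hv, hol_hol_inv]
  · rw [h1, h]

theorem dom_smul [FiniteDimensional ℝ V] (g : G) (y : Y) (x : V) :
    M.hol g x ∈ dom M.dev (g • y) ↔ x ∈ dom M.dev y := by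
  have key : ∀ (g : G) (y : Y) (x : V), x ∈ dom M.dev y → M.hol g x ∈ dom M.dev (g • y) := by
    rintro g y x ⟨C, hC, hconv, hy, hx, s, hs, h⟩
    obtain ⟨h1, h2, h3, h4, h5⟩ := transport M g y hC hconv hy hs h
    refine ⟨_, h1, h2, h3, ?_, _, h4, h5⟩
    show M.hol g⁻¹ _ ∈ C
    rw [hol_inv_hol]; exact hx
  refine ⟨fun h => ?_, key g y x⟩
  have := key g⁻¹ (g • y) _ h
  rwa [hol_inv_hol, inv_smul_smul] at this

theorem sec_smul [FiniteDimensional ℝ V] [T2Space Y] (g : G) (y : Y) {x : V}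
    (hx : x ∈ dom M.dev y) : sec M.dev (g • y) (M.hol g x) = g • sec M.dev y x := by
  obtain ⟨C, hC, hconv, hy, hxC, s, hs, h⟩ := hx
  obtain ⟨h1, h2, h3, h4, h5⟩ := transport M g y hC hconv hy hs h
  have e1 := (chart M.dev_local hC (hconv.starConvex hy) hy hs h).2
  have e2 := (chart M.dev_local h1 (h2.starConvex h3) h3 h4 h5).2
  rw [← e1 hxC]
  have h6 : M.hol g x ∈ M.hol g⁻¹ ⁻¹' C := by
    show M.hol g⁻¹ _ ∈ C
    rw [hol_inv_hol]; exact hxC
  rw [← e2 h6]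
  simp only [hol_inv_hol]

include M in
/-- proper discontinuity for two compact sets -/
theorem finite_of_compact {K K' : Set Y} (hK : IsCompact K) (hK' : IsCompact K') :
    {g : G | ∃ z ∈ K, g • z ∈ K'}.Finite := by
  refine (M.covering.proper (K ∪ K') (hK.union hK')).subset ?_
  rintro g ⟨z, hz, hgz⟩
  exact ⟨g • z, ⟨z, Or.inl hz, rfl⟩, Or.inr hgz⟩

/-- compactness constants. -/
structure Frame where
  /-- compact set meeting all orbits -/
  K : Set Y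
  /-- compact set containing all half-balls over `K` -/
  K1 : Set Y
  /-- radius of charts over `K` -/
  r0 : ℝ
  /-- bound for the linear parts of the elements moving `K` into `K1` -/
  A : ℝ
  hK : IsCompact K
  hK1 : IsCompact K1
  cover : ∀ y : Y, ∃ g : G, ∃ z ∈ K, y = g • z
  hr0 : 0 < r0
  hA : 1 ≤ A
  ball : ∀ z ∈ K, Metric.ball (M.dev z) r0 ⊆ dom M.dev z
  half : ∀ z ∈ K, ∀ x, ‖x - M.dev z‖ ≤ r0 / 2 → sec M.dev z x ∈ K1
  bound : ∀ g : G, (∃ z ∈ K, g • z ∈ K1) → ∀ x, ‖lin M g x‖ ≤ A * ‖x‖ ∧ ‖x‖ ≤ A * ‖lin M g x‖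

theorem exists_frame [FiniteDimensional ℝ V] [T2Space Y] : Nonempty (Frame M) := by
  obtain ⟨K, hK, hcov⟩ := M.covering.cocompact
  have hprop := FiniteDimensional.proper ℝ V
  obtain ⟨r, hr, hball⟩ := exists_radius M.dev_local hK
  obtain ⟨K1, hK1, hhalf⟩ := exists_compact_sec M.dev_local hK (by linarith : r / 2 < r) hball
  have hfin := finite_of_compact M hK hK1
  have hb : ∀ g : G, ∃ B : ℝ, 0 ≤ B ∧ ∀ x, ‖lin M g x‖ ≤ B * ‖x‖ := by
    intro g
    let L : V →L[ℝ] V := LinearMap.toContinuousLinearMap ((lin M g : V ≃ₗ[ℝ] V) : V →ₗ[ℝ] V)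
    exact ⟨‖L‖, norm_nonneg _, fun x => L.le_opNorm x⟩
  choose B hB0 hB using hb
  obtain ⟨A1, hA1⟩ := (hfin.image B).bddAbove
  obtain ⟨A2, hA2⟩ := (hfin.image fun g => B g⁻¹).bddAbove
  refine ⟨⟨K, K1, r, max 1 (max A1 A2), hK, hK1, ?_, hr, le_max_left _ _, hball, hhalf, ?_⟩⟩
  · intro y
    obtain ⟨g, hg⟩ := hcov y
    exact ⟨g⁻¹, g • y, hg, by rw [inv_smul_smul]⟩
  · intro g hg x
    constructor
    · refine (hB g x).trans (mul_le_mul_of_nonneg_right ?_ (norm_nonneg _))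
      exact (hA1 ⟨g, hg, rfl⟩).trans ((le_max_left _ _).trans (le_max_right _ _))
    · have h1 := hB g⁻¹ (lin M g x)
      rw [lin_inv_lin] at h1
      refine h1.trans (mul_le_mul_of_nonneg_right ?_ (norm_nonneg _))
      exact (hA2 ⟨g, hg, rfl⟩).trans ((le_max_right _ _).trans (le_max_right _ _))

theorem norm_hol_inv_sub (g : G) (z : Y) (x : V) :
    ‖M.hol g⁻¹ x - M.dev z‖ = ‖lin M g⁻¹ (x - M.dev (g • z))‖ := by
  rw [← hol_sub, M.dev_smul, hol_inv_hol]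

/-- the ellipsoid chart at `g • z` -/
theorem ellipsoid [FiniteDimensional ℝ V] [T2Space Y] (Fr : Frame M) (g : G) {z : Y}
    (hz : z ∈ Fr.K) {x : V} (hx : ‖lin M g⁻¹ (x - M.dev (g • z))‖ < Fr.r0) :
    x ∈ dom M.dev (g • z) := by
  rw [← hol_hol_inv M g x, dom_smul]
  apply Fr.ball z hz
  rw [mem_ball_iff_norm, norm_hol_inv_sub]
  exact hx

/-- points of the half ellipsoid lift into `g • K1` -/
theorem half_sec [FiniteDimensional ℝ V] [T2Space Y] (Fr : Frame M) (g : G) {z : Y}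
    (hz : z ∈ Fr.K) {x : V} (hx : ‖lin M g⁻¹ (x - M.dev (g • z))‖ ≤ Fr.r0 / 2) :
    ∃ k ∈ Fr.K1, sec M.dev (g • z) x = g • k := by
  have hr := Fr.hr0
  rw [← norm_hol_inv_sub] at hx
  refine ⟨sec M.dev z (M.hol g⁻¹ x), Fr.half z hz _ hx, ?_⟩
  rw [← sec_smul M g z, hol_hol_inv]
  apply Fr.ball z hz
  rw [mem_ball_iff_norm]
  linarith

/-- the hop lemma -/
theorem hop [FiniteDimensional ℝ V] [T2Space Y] (Fr : Frame M) (g g' : G) {z z' : Y}
    (hz : z ∈ Fr.K) (hz' : z' ∈ Fr.K) {x : V}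
    (hx : ‖lin M g⁻¹ (x - M.dev (g • z))‖ ≤ Fr.r0 / 2) (h : sec M.dev (g • z) x = g' • z') (v : V) :
    ‖lin M g'⁻¹ v‖ ≤ Fr.A * ‖lin M g⁻¹ v‖ ∧ ‖lin M g⁻¹ v‖ ≤ Fr.A * ‖lin M g'⁻¹ v‖ := by
  obtain ⟨k, hk, hk'⟩ := half_sec M Fr g hz hx
  have h1 : (g⁻¹ * g') • z' = k := by
    rw [mul_smul, ← h, hk', inv_smul_smul]
  have hb := Fr.bound (g⁻¹ * g') ⟨z', hz', by rw [h1]; exact hk⟩ (lin M g'⁻¹ v)
  rw [lin_mul, lin_lin_inv] at hb
  exact ⟨hb.2, hb.1⟩

/-- the radius function is equivariant -/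
theorem rad_smul [FiniteDimensional ℝ V] {W : Type*} [NormedAddCommGroup W] [NormedSpace ℝ W]
    (g : G) (y : Y) {T T' : V →L[ℝ] W} {κ : ℝ} (hκ : 0 ≤ κ)
    (h : ∀ x, ‖T' (lin M g x)‖ = κ * ‖T x‖) : rad M.dev (g • y) T' = κ * rad M.dev y T := by
  unfold rad
  rw [← smul_eq_mul, ← Real.sInf_smul_of_nonneg hκ]
  congr 1
  ext r
  constructor
  · rintro ⟨b, hb, rfl⟩
    refine ⟨‖T (M.hol g⁻¹ b - M.dev y)‖, ⟨M.hol g⁻¹ b, ?_, rfl⟩, ?_⟩
    · intro h'
      rw [← dom_smul M g y, hol_hol_inv] at h'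
      exact hb h'
    · have h1 : b - M.dev (g • y) = lin M g (M.hol g⁻¹ b - M.dev y) := by
        rw [← hol_sub, hol_hol_inv, M.dev_smul]
      simp only
      rw [h1, h, smul_eq_mul]
  · rintro ⟨_, ⟨b, hb, rfl⟩, rfl⟩
    refine ⟨M.hol g b, ?_, ?_⟩
    · intro h'
      exact hb ((dom_smul M g y b).1 h')
    · simp only
      rw [M.dev_smul, hol_sub, h, smul_eq_mul]

end Pool.Agent.Helper2.RO
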