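import Pool.Agent.Helper2.RO.Defs

/-! Module AlgA: spectral calculus of one operator `S ∈ P` (symmetric, `S ^ 3 = ‖S‖ ^ 2 • S`).

`ex S = exp ‖S‖ • top S + mid S + exp (-‖S‖) • bot S`, where `top S`, `mid S`, `bot S` are mutually
orthogonal symmetric projections with sum `1`. -/

set_option autoImplicit false
set_option linter.unusedSectionVars false

open Set Filter Topology

namespace Pool.Agent.Helper2.RO

variable {V : Type*} [NormedAddCommGroup V] [InnerProductSpace ℝ V] [FiniteDimensional ℝ V]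
  {P : Submodule ℝ (V →L[ℝ] V)}

theorem top_zero : top (0 : V →L[ℝ] V) = 0 := by simp [top]

theorem top_add_mid_add_bot (S : V →L[ℝ] V) : top S + mid S + bot S = 1 := by
  simp only [top, mid, bot, smul_add, smul_sub]
  set A := (‖S‖⁻¹ • S) * (‖S‖⁻¹ • S)
  set B := ‖S‖⁻¹ • S
  module

theorem decomp (S : V →L[ℝ] V) (x : V) : top S x + mid S x + bot S x = x := by
  have h := congrArg (fun T : V →L[ℝ] V => T x) (top_add_mid_add_bot S)
  simpa using h

theorem smul_top_sub_bot (S : V →L[ℝ] V) : ‖S‖ • (top S - bot S) = S := by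
  have h1 : top S - bot S = ‖S‖⁻¹ • S := by
    simp only [top, bot]
    set A := (‖S‖⁻¹ • S) * (‖S‖⁻¹ • S)
    set B := ‖S‖⁻¹ • S
    module
  rw [h1, smul_smul]
  rcases eq_or_ne S 0 with rfl | h
  · simp
  · rw [mul_inv_cancel₀ (norm_ne_zero_iff.mpr h), one_smul]

theorem apply_eq (S : V →L[ℝ] V) (x : V) : S x = ‖S‖ • (top S x - bot S x) := by
  have h := congrArg (fun T : V →L[ℝ] V => T x) (smul_top_sub_bot S)
  simpa using h.symm

theorem dir_smul {c : ℝ} (hc : 0 < c) (S : V →L[ℝ] V) : ‖c • S‖⁻¹ • (c • S) = ‖S‖⁻¹ • S := by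
  rw [norm_smul, Real.norm_of_nonneg hc.le, smul_smul, mul_inv, mul_comm c⁻¹, mul_assoc,
    inv_mul_cancel₀ hc.ne', mul_one]

/-- scaling -/
theorem top_smul {c : ℝ} (hc : 0 < c) (S : V →L[ℝ] V) : top (c • S) = top S := by
  simp only [top, dir_smul hc]

theorem mid_smul {c : ℝ} (hc : 0 < c) (S : V →L[ℝ] V) : mid (c • S) = mid S := by
  simp only [mid, dir_smul hc]

theorem bot_smul {c : ℝ} (hc : 0 < c) (S : V →L[ℝ] V) : bot (c • S) = bot S := by
  simp only [bot, dir_smul hc]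

theorem top_neg (S : V →L[ℝ] V) : top (-S) = bot S := by
  simp only [top, bot, norm_neg, smul_neg, neg_mul_neg, sub_eq_add_neg]

theorem mid_neg (S : V →L[ℝ] V) : mid (-S) = mid S := by
  simp only [mid, norm_neg, smul_neg, neg_mul_neg]

theorem bot_neg (S : V →L[ℝ] V) : bot (-S) = top S := by
  simp only [top, bot, norm_neg, smul_neg, neg_mul_neg, sub_neg_eq_add]

theorem dir_continuousAt {S : V →L[ℝ] V} (hS : S ≠ 0) :
    ContinuousAt (fun S : V →L[ℝ] V => ‖S‖⁻¹ • S) S :=
  (continuousAt_id.norm.inv₀ (norm_ne_zero_iff.mpr hS)).smul continuousAt_id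

theorem top_continuousAt {S : V →L[ℝ] V} (hS : S ≠ 0) : ContinuousAt top S := by
  have h := dir_continuousAt hS
  exact ((h.mul h).add h).const_smul (1 / 2 : ℝ)

theorem mid_continuousAt {S : V →L[ℝ] V} (hS : S ≠ 0) : ContinuousAt mid S := by
  have h := dir_continuousAt hS
  exact continuousAt_const.sub (h.mul h)

theorem bot_continuousAt {S : V →L[ℝ] V} (hS : S ≠ 0) : ContinuousAt bot S := by
  have h := dir_continuousAt hS
  exact ((h.mul h).sub h).const_smul (1 / 2 : ℝ)

theorem ex_continuous : Continuous (ex : (V →L[ℝ] V) → (V →L[ℝ] V)) := by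
  letI : NormedAlgebra ℚ (V →L[ℝ] V) := NormedAlgebra.restrictScalars ℚ ℝ (V →L[ℝ] V)
  exact NormedSpace.exp_continuous

theorem ex_zero : ex (0 : V →L[ℝ] V) = 1 := by
  letI : NormedAlgebra ℚ (V →L[ℝ] V) := NormedAlgebra.restrictScalars ℚ ℝ (V →L[ℝ] V)
  exact NormedSpace.exp_zero

theorem ex_add_of_commute {S T : V →L[ℝ] V} (h : Commute S T) : ex (S + T) = ex S * ex T := by
  letI : NormedAlgebra ℚ (V →L[ℝ] V) := NormedAlgebra.restrictScalars ℚ ℝ (V →L[ℝ] V)
  exact NormedSpace.exp_add_of_commute h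

theorem ex_add_smul (a b : ℝ) (S : V →L[ℝ] V) : ex ((a + b) • S) = ex (a • S) * ex (b • S) := by
  rw [add_smul]
  exact ex_add_of_commute (((Commute.refl S).smul_left a).smul_right b)

theorem ex_two (S : V →L[ℝ] V) : ex ((2 : ℝ) • S) = ex S * ex S := by
  have h := ex_add_smul 1 1 S
  rw [one_smul] at h
  rw [← h]
  norm_num

theorem ex_mul_ex_neg (S : V →L[ℝ] V) : ex S * ex (-S) = 1 := by
  rw [← ex_add_of_commute (Commute.refl S).neg_right, add_neg_cancel, ex_zero]

theorem ex_neg_mul_ex (S : V →L[ℝ] V) : ex (-S) * ex S = 1 := by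
  rw [← ex_add_of_commute (Commute.refl S).neg_left, neg_add_cancel, ex_zero]

theorem ex_ex_neg (S : V →L[ℝ] V) (x : V) : ex S (ex (-S) x) = x := by
  have h := congrArg (fun T : V →L[ℝ] V => T x) (ex_mul_ex_neg S)
  simpa using h

theorem ex_neg_ex (S : V →L[ℝ] V) (x : V) : ex (-S) (ex S x) = x := by
  have h := congrArg (fun T : V →L[ℝ] V => T x) (ex_neg_mul_ex S)
  simpa using h

section

variable (hP : IsCartan P) {S : V →L[ℝ] V} (hS : S ∈ P)
include hP hS

theorem dir_cube : (‖S‖⁻¹ • S) * (‖S‖⁻¹ • S) * (‖S‖⁻¹ • S) = ‖S‖⁻¹ • S := by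
  rcases eq_or_ne S 0 with rfl | h
  · simp
  · have hn := norm_ne_zero_iff.mpr h
    simp only [smul_mul_assoc, mul_smul_comm]
    rw [hP.cube S hS, smul_smul, smul_smul, smul_smul]
    congr 1
    field_simp

theorem top_mul_top : top S * top S = top S := by
  have h := dir_cube hP hS
  simp only [top]
  set A := ‖S‖⁻¹ • S
  simp only [smul_mul_assoc, mul_smul_comm, add_mul, mul_add, smul_smul]
  have h2 : A * A * (A * A) = A * A := by rw [← mul_assoc, h]
  rw [h2, h, ← mul_assoc A A A, h]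
  module

theorem mid_mul_mid : mid S * mid S = mid S := by
  have h := dir_cube hP hS
  simp only [mid]
  set A := ‖S‖⁻¹ • S
  have h2 : A * A * (A * A) = A * A := by rw [← mul_assoc, h]
  rw [sub_mul, mul_sub, mul_sub, h2]
  simp

theorem bot_mul_bot : bot S * bot S = bot S := by
  have hS' : -S ∈ P := P.neg_mem hS
  have := top_mul_top hP hS'
  rwa [top_neg] at this

theorem top_mul_mid : top S * mid S = 0 := by
  have h := dir_cube hP hS
  simp only [top, mid]
  set A := ‖S‖⁻¹ • S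
  have h2 : A * A * (A * A) = A * A := by rw [← mul_assoc, h]
  rw [smul_mul_assoc, mul_sub, mul_one, add_mul, h2, ← mul_assoc A A A, h]
  simp

theorem mid_mul_top : mid S * top S = 0 := by
  have h := dir_cube hP hS
  simp only [top, mid]
  set A := ‖S‖⁻¹ • S
  have h2 : A * A * (A * A) = A * A := by rw [← mul_assoc, h]
  rw [mul_smul_comm, sub_mul, one_mul, mul_add, h2, h]
  simp

theorem top_mul_bot : top S * bot S = 0 := by
  have h := dir_cube hP hS
  simp only [top, bot]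
  set A := ‖S‖⁻¹ • S
  have h2 : A * A * (A * A) = A * A := by rw [← mul_assoc, h]
  rw [smul_mul_assoc, mul_smul_comm, add_mul, mul_sub, mul_sub, h2, h, ← mul_assoc A A A, h]
  simp

theorem bot_mul_top : bot S * top S = 0 := by
  have hS' : -S ∈ P := P.neg_mem hS
  have := top_mul_bot hP hS'
  rwa [top_neg, bot_neg] at this

theorem mid_mul_bot : mid S * bot S = 0 := by
  have hS' : -S ∈ P := P.neg_mem hS
  have := mid_mul_top hP hS'
  rwa [top_neg, mid_neg] at this

theorem bot_mul_mid : bot S * mid S = 0 := by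
  have hS' : -S ∈ P := P.neg_mem hS
  have := top_mul_mid hP hS'
  rwa [top_neg, mid_neg] at this

theorem top_top (x : V) : top S (top S x) = top S x :=
  congrArg (fun T : V →L[ℝ] V => T x) (top_mul_top hP hS)

theorem mid_mid (x : V) : mid S (mid S x) = mid S x :=
  congrArg (fun T : V →L[ℝ] V => T x) (mid_mul_mid hP hS)

theorem bot_bot (x : V) : bot S (bot S x) = bot S x :=
  congrArg (fun T : V →L[ℝ] V => T x) (bot_mul_bot hP hS)

theorem top_mid (x : V) : top S (mid S x) = 0 :=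
  congrArg (fun T : V →L[ℝ] V => T x) (top_mul_mid hP hS)

theorem mid_top (x : V) : mid S (top S x) = 0 :=
  congrArg (fun T : V →L[ℝ] V => T x) (mid_mul_top hP hS)

theorem top_bot (x : V) : top S (bot S x) = 0 :=
  congrArg (fun T : V →L[ℝ] V => T x) (top_mul_bot hP hS)

theorem bot_top (x : V) : bot S (top S x) = 0 :=
  congrArg (fun T : V →L[ℝ] V => T x) (bot_mul_top hP hS)

theorem mid_bot (x : V) : mid S (bot S x) = 0 :=
  congrArg (fun T : V →L[ℝ] V => T x) (mid_mul_bot hP hS)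

theorem bot_mid (x : V) : bot S (mid S x) = 0 :=
  congrArg (fun T : V →L[ℝ] V => T x) (bot_mul_mid hP hS)

theorem dir_symm (x y : V) : inner ℝ ((‖S‖⁻¹ • S) x) y = inner ℝ x ((‖S‖⁻¹ • S) y) := by
  simp only [ContinuousLinearMap.smul_apply, inner_smul_left, inner_smul_right, hP.symm S hS x y,
    conj_trivial]

theorem dir_sq_symm (x y : V) : inner ℝ (((‖S‖⁻¹ • S) * (‖S‖⁻¹ • S)) x) y =
    inner ℝ x (((‖S‖⁻¹ • S) * (‖S‖⁻¹ • S)) y) := by
  rw [ContinuousLinearMap.mul_apply, ContinuousLinearMap.mul_apply, dir_symm hP hS,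
    dir_symm hP hS]

theorem top_symm (x y : V) : inner ℝ (top S x) y = inner ℝ x (top S y) := by
  have h1 := dir_symm hP hS x y
  have h2 := dir_sq_symm hP hS x y
  simp only [top]
  set A := (‖S‖⁻¹ • S) * (‖S‖⁻¹ • S)
  set B := ‖S‖⁻¹ • S
  simp only [ContinuousLinearMap.smul_apply, ContinuousLinearMap.add_apply, inner_smul_left,
    inner_smul_right, inner_add_left, inner_add_right, h1, h2, conj_trivial]

theorem mid_symm (x y : V) : inner ℝ (mid S x) y = inner ℝ x (mid S y) := by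
  have h2 := dir_sq_symm hP hS x y
  simp only [mid]
  set A := (‖S‖⁻¹ • S) * (‖S‖⁻¹ • S)
  simp only [ContinuousLinearMap.sub_apply, ContinuousLinearMap.one_apply,
    inner_sub_left, inner_sub_right, h2]

theorem bot_symm (x y : V) : inner ℝ (bot S x) y = inner ℝ x (bot S y) := by
  have hS' : -S ∈ P := P.neg_mem hS
  have := top_symm hP hS' x y
  rwa [top_neg] at this

theorem inner_top_self (x : V) : inner ℝ x (top S x) = ‖top S x‖ ^ 2 := by
  rw [← real_inner_self_eq_norm_sq, top_symm hP hS, top_top hP hS]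

theorem inner_mid_self (x : V) : inner ℝ x (mid S x) = ‖mid S x‖ ^ 2 := by
  rw [← real_inner_self_eq_norm_sq, mid_symm hP hS, mid_mid hP hS]

theorem inner_bot_self (x : V) : inner ℝ x (bot S x) = ‖bot S x‖ ^ 2 := by
  rw [← real_inner_self_eq_norm_sq, bot_symm hP hS, bot_bot hP hS]

theorem norm_sq_decomp (x : V) : ‖x‖ ^ 2 = ‖top S x‖ ^ 2 + ‖mid S x‖ ^ 2 + ‖bot S x‖ ^ 2 := by
  have h : inner ℝ x (top S x + mid S x + bot S x) = ‖x‖ ^ 2 := by
    rw [decomp, real_inner_self_eq_norm_sq]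
  rw [inner_add_right, inner_add_right, inner_top_self hP hS, inner_mid_self hP hS,
    inner_bot_self hP hS] at h
  exact h.symm

theorem norm_top_le (x : V) : ‖top S x‖ ≤ ‖x‖ := by
  have h := norm_sq_decomp hP hS x
  refine le_of_sq_le_sq ?_ (norm_nonneg _)
  nlinarith [sq_nonneg ‖mid S x‖, sq_nonneg ‖bot S x‖]

/-- `x` is fixed by `top S` if the projection does not shorten it. -/
theorem top_eq_self_of_norm {x : V} (h : ‖x‖ ≤ ‖top S x‖) : top S x = x := by
  have h1 := norm_sq_decomp hP hS x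
  have h2 : ‖x‖ ^ 2 ≤ ‖top S x‖ ^ 2 := by gcongr
  have h3 : ‖mid S x‖ ^ 2 = 0 := by nlinarith [sq_nonneg ‖mid S x‖, sq_nonneg ‖bot S x‖]
  have h4 : ‖bot S x‖ ^ 2 = 0 := by nlinarith [sq_nonneg ‖mid S x‖, sq_nonneg ‖bot S x‖]
  have h5 : mid S x = 0 := norm_eq_zero.mp (pow_eq_zero_iff (two_ne_zero) |>.mp h3)
  have h6 : bot S x = 0 := norm_eq_zero.mp (pow_eq_zero_iff (two_ne_zero) |>.mp h4)
  have h7 := decomp S x
  rwa [h5, h6, add_zero, add_zero] at h7

theorem S_top (x : V) : S (top S x) = ‖S‖ • top S x := by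
  rw [apply_eq S (top S x), top_top hP hS, bot_top hP hS, sub_zero]

theorem S_mid (x : V) : S (mid S x) = 0 := by
  rw [apply_eq S (mid S x), top_mid hP hS, bot_mid hP hS, sub_zero, smul_zero]

theorem S_bot (x : V) : S (bot S x) = -(‖S‖ • bot S x) := by
  rw [apply_eq S (bot S x), top_bot hP hS, bot_bot hP hS, zero_sub, smul_neg]

theorem top_S (x : V) : top S (S x) = ‖S‖ • top S x := by
  rw [apply_eq S x, map_smul, map_sub, top_top hP hS, top_bot hP hS, sub_zero]

/-- the exponential formula, with parameter -/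
theorem ex_smul_eq (t : ℝ) : ex (t • S) =
    Real.exp (t * ‖S‖) • top S + mid S + Real.exp (-(t * ‖S‖)) • bot S := by
  letI : NormedAlgebra ℚ (V →L[ℝ] V) := NormedAlgebra.restrictScalars ℚ ℝ (V →L[ℝ] V)
  set n := ‖S‖ with hn
  have hST : S * top S = n • top S := ContinuousLinearMap.ext fun x => by
    simpa using S_top hP hS x
  have hSM : S * mid S = 0 := ContinuousLinearMap.ext fun x => by
    simpa using S_mid hP hS x
  have hSB : S * bot S = -(n • bot S) := ContinuousLinearMap.ext fun x => by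
    simpa using S_bot hP hS x
  set X : ℝ → (V →L[ℝ] V) := fun t => Real.exp (t * n) • top S + mid S +
    Real.exp (-(t * n)) • bot S with hX
  have hX' : ∀ t, HasDerivAt X (S * X t) t := by
    intro t
    have h1 : HasDerivAt (fun t : ℝ => Real.exp (t * n)) (Real.exp (t * n) * n) t := by
      have := (hasDerivAt_id t).mul_const n
      simpa using this.exp
    have h2 : HasDerivAt (fun t : ℝ => Real.exp (-(t * n))) (Real.exp (-(t * n)) * (-n)) t := by
      have := ((hasDerivAt_id t).mul_const n).neg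
      simpa using this.exp
    have h3 := ((h1.smul_const (top S)).add_const (mid S)).add (h2.smul_const (bot S))
    have h4 : S * X t = (Real.exp (t * n) * n) • top S + (Real.exp (-(t * n)) * (-n)) • bot S := by
      rw [hX]
      simp only [mul_add, mul_smul_comm, hST, hSM, hSB]
      module
    rw [h4]
    exact h3
  have hder : ∀ t, HasDerivAt (fun t => ex ((-t) • S) * X t) 0 t := by
    intro t
    have h1 : HasDerivAt (fun u : ℝ => ex ((-u) • S)) (-(ex ((-t) • S) * S)) t := by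
      have h2 : HasDerivAt (fun u : ℝ => NormedSpace.exp (u • S))
        (NormedSpace.exp ((-t) • S) * S) (-t) := hasDerivAt_exp_smul_const S (-t)
      have h3 := h2.scomp t (hasDerivAt_neg t)
      rw [neg_one_smul] at h3
      exact h3
    have h5 := h1.mul (hX' t)
    have h6 : -(ex ((-t) • S) * S) * X t + ex ((-t) • S) * (S * X t) = 0 := by
      rw [neg_mul, mul_assoc, neg_add_cancel]
    rw [h6] at h5
    exact h5
  have hconst : ∀ t, ex ((-t) • S) * X t = 1 := by
    intro t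
    have h1 := is_const_of_deriv_eq_zero (f := fun t => ex ((-t) • S) * X t)
      (fun t => (hder t).differentiableAt) (fun t => (hder t).deriv) t 0
    simp only [neg_zero, zero_smul, ex_zero, one_mul] at h1
    rw [h1, hX]
    simp only [zero_mul, neg_zero, Real.exp_zero, one_smul]
    exact top_add_mid_add_bot S
  have h7 := congrArg (fun T => ex (t • S) * T) (hconst t)
  simp only [mul_one] at h7
  rw [← mul_assoc, neg_smul, ex_mul_ex_neg, one_mul] at h7
  exact h7.symm

theorem ex_eq : ex S = Real.exp ‖S‖ • top S + mid S + Real.exp (-‖S‖) • bot S := by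
  have h := ex_smul_eq hP hS 1
  simpa using h

theorem ex_apply (x : V) :
    ex S x = Real.exp ‖S‖ • top S x + mid S x + Real.exp (-‖S‖) • bot S x := by
  rw [ex_eq hP hS]
  simp

theorem ex_symm (x y : V) : inner ℝ (ex S x) y = inner ℝ x (ex S y) := by
  rw [ex_apply hP hS, ex_apply hP hS]
  simp only [inner_add_left, inner_add_right, inner_smul_left, inner_smul_right, conj_trivial,
    top_symm hP hS, mid_symm hP hS, bot_symm hP hS]

theorem norm_ex_sq_inner (x : V) : ‖ex S x‖ ^ 2 = inner ℝ (ex ((2 : ℝ) • S) x) x := by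
  rw [ex_two, ContinuousLinearMap.mul_apply, ex_symm hP hS, real_inner_self_eq_norm_sq]

theorem norm_ex_smul_sq' (t : ℝ) (x : V) : ‖ex (t • S) x‖ ^ 2 =
    Real.exp (2 * (t * ‖S‖)) * ‖top S x‖ ^ 2 + ‖mid S x‖ ^ 2 +
      Real.exp (-(2 * (t * ‖S‖))) * ‖bot S x‖ ^ 2 := by
  have hS' : t • S ∈ P := P.smul_mem t hS
  rw [norm_ex_sq_inner hP hS', smul_smul, ex_smul_eq hP hS, real_inner_comm]
  simp only [ContinuousLinearMap.add_apply, ContinuousLinearMap.smul_apply, inner_add_right,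
    inner_smul_right, inner_top_self hP hS, inner_mid_self hP hS, inner_bot_self hP hS, mul_assoc]

theorem norm_ex_sq (x : V) : ‖ex S x‖ ^ 2 =
    Real.exp (2 * ‖S‖) * ‖top S x‖ ^ 2 + ‖mid S x‖ ^ 2 + Real.exp (-(2 * ‖S‖)) * ‖bot S x‖ ^ 2 := by
  have h := norm_ex_smul_sq' hP hS 1 x
  simpa using h

theorem norm_ex_le (x : V) : ‖ex S x‖ ≤ Real.exp ‖S‖ * ‖x‖ := by
  refine le_of_sq_le_sq ?_ (by positivity)
  rw [norm_ex_sq hP hS, mul_pow, norm_sq_decomp hP hS x, ← Real.exp_nat_mul]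
  push_cast
  have h1 : (1 : ℝ) ≤ Real.exp (2 * ‖S‖) := Real.one_le_exp (by positivity)
  have h2 : Real.exp (-(2 * ‖S‖)) ≤ Real.exp (2 * ‖S‖) :=
    Real.exp_le_exp.mpr (by linarith [norm_nonneg S])
  have h3 := sq_nonneg ‖mid S x‖
  have h4 := sq_nonneg ‖bot S x‖
  nlinarith [mul_le_mul_of_nonneg_right h1 h3, mul_le_mul_of_nonneg_right h2 h4]

theorem le_norm_ex (x : V) : ‖x‖ ≤ Real.exp ‖S‖ * ‖ex S x‖ := by
  have hS' : -S ∈ P := P.neg_mem hS
  have h := norm_ex_le hP hS' (ex S x)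
  rwa [ex_neg_ex, norm_neg] at h

theorem norm_ex_of_top {x : V} (hx : top S x = x) : ‖ex S x‖ = Real.exp ‖S‖ * ‖x‖ := by
  have h1 : mid S x = 0 := by rw [← hx, mid_top hP hS]
  have h2 : bot S x = 0 := by rw [← hx, bot_top hP hS]
  rw [ex_apply hP hS, h1, h2, hx, smul_zero, add_zero, add_zero, norm_smul, Real.norm_eq_abs,
    Real.abs_exp]

theorem norm_ex_of_ker {x : V} (hx : top S x = 0) : ‖ex S x‖ ≤ ‖x‖ := by
  refine le_of_sq_le_sq ?_ (by positivity)
  rw [norm_ex_sq hP hS, norm_sq_decomp hP hS x, hx, norm_zero]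
  have h2 : Real.exp (-(2 * ‖S‖)) ≤ 1 := Real.exp_le_one_iff.mpr (by linarith [norm_nonneg S])
  have h4 := sq_nonneg ‖bot S x‖
  have h5 := mul_le_mul_of_nonneg_right h2 h4
  linarith

theorem norm_top_le_ex (x : V) : Real.exp ‖S‖ * ‖top S x‖ ≤ ‖ex S x‖ := by
  refine le_of_sq_le_sq ?_ (by positivity)
  rw [norm_ex_sq hP hS, mul_pow, ← Real.exp_nat_mul]
  push_cast
  have h4 := sq_nonneg ‖bot S x‖
  have h5 := sq_nonneg ‖mid S x‖
  have h6 : 0 ≤ Real.exp (-(2 * ‖S‖)) * ‖bot S x‖ ^ 2 := by positivity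
  linarith

/-- `exp(2 S) ≥ 1 + 2 S` -/
theorem norm_ex_lower (x : V) : ‖x‖ ^ 2 + 2 * inner ℝ x (S x) ≤ ‖ex S x‖ ^ 2 := by
  rw [norm_ex_sq hP hS, norm_sq_decomp hP hS x, apply_eq S x, inner_smul_right, inner_sub_right,
    inner_top_self hP hS, inner_bot_self hP hS]
  have h1 : 2 * ‖S‖ + 1 ≤ Real.exp (2 * ‖S‖) := Real.add_one_le_exp _
  have h2 : -(2 * ‖S‖) + 1 ≤ Real.exp (-(2 * ‖S‖)) := Real.add_one_le_exp _
  nlinarith [mul_le_mul_of_nonneg_right h1 (sq_nonneg ‖top S x‖),
    mul_le_mul_of_nonneg_right h2 (sq_nonneg ‖bot S x‖)]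

end

section

variable (hP : IsCartan P) {ζ : V →L[ℝ] V} (hζ : ζ ∈ P) (h1 : ‖ζ‖ = 1)
include hP hζ h1

theorem apply_top (x : V) : ζ (top ζ x) = top ζ x := by
  rw [S_top hP hζ, h1, one_smul]

theorem top_apply (x : V) : top ζ (ζ x) = top ζ x := by
  rw [top_S hP hζ, h1, one_smul]

theorem top_of_fix {x : V} (hx : ζ x = x) : top ζ x = x := by
  have h2 : top ζ x = (1 / 2 : ℝ) • (ζ (ζ x) + ζ x) := by
    simp [top, h1]
  rw [h2, hx, hx]
  module

theorem fix_iff {x : V} : ζ x = x ↔ top ζ x = x :=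
  ⟨top_of_fix hP hζ h1, fun h => by rw [← h, apply_top hP hζ h1]⟩

/-- the radial formula, for `t` of any sign -/
theorem norm_ex_smul_sq (t : ℝ) (x : V) : ‖ex (t • ζ) x‖ ^ 2 =
    Real.exp (2 * t) * ‖top ζ x‖ ^ 2 + ‖mid ζ x‖ ^ 2 + Real.exp (-(2 * t)) * ‖bot ζ x‖ ^ 2 := by
  have h := norm_ex_smul_sq' hP hζ t x
  rwa [h1, mul_one] at h

end

end Pool.Agent.Helper2.RO
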