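import Pool.Agent.Helper2.RO.Aff
import Pool.Agent.Helper2.RO.AlgA

/-! Module Cartan: from a self-adjoint group with Cartan decomposition to `ROData`. -/

set_option autoImplicit false
set_option linter.unusedSectionVars false

open Set Filter Topology

namespace Pool.Agent.Helper2.RO

open Pool.Agent.Helper2.MK Pool.Agent.Helper50.HL

variable {V G Y : Type*} [NormedAddCommGroup V] [InnerProductSpace ℝ V] [FiniteDimensional ℝ V]
    [Group G] [TopologicalSpace Y] [T2Space Y] [MulAction G Y]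

/-- the norm of the square of a symmetric operator -/
theorem norm_sq_of_symm {S : V →L[ℝ] V} (hsym : ∀ x y : V, inner ℝ (S x) y = inner ℝ x (S y)) :
    ‖S * S‖ = ‖S‖ ^ 2 := by
  refine le_antisymm ((norm_mul_le S S).trans (le_of_eq (sq ‖S‖).symm)) ?_
  have h1 : ‖S‖ ≤ √‖S * S‖ := by
    refine S.opNorm_le_bound (Real.sqrt_nonneg _) fun x => ?_
    refine le_of_sq_le_sq ?_ (by positivity)
    rw [mul_pow, Real.sq_sqrt (norm_nonneg _)]
    calc ‖S x‖ ^ 2 = inner ℝ (S x) (S x) := (real_inner_self_eq_norm_sq _).symm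
      _ = inner ℝ x ((S * S) x) := hsym x (S x)
      _ ≤ ‖x‖ * ‖(S * S) x‖ := real_inner_le_norm _ _
      _ ≤ ‖x‖ * (‖S * S‖ * ‖x‖) := by gcongr; exact (S * S).le_opNorm x
      _ = ‖S * S‖ * ‖x‖ ^ 2 := by ring
  calc ‖S‖ ^ 2 ≤ √‖S * S‖ ^ 2 := by gcongr
    _ = ‖S * S‖ := Real.sq_sqrt (norm_nonneg _)

/-- the constant in the cubic equation of a symmetric operator is the square of the norm -/
theorem cube_of_smul {S : V →L[ℝ] V} (hsym : ∀ x y : V, inner ℝ (S x) y = inner ℝ x (S y))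
    (h : ∃ c : ℝ, S * S * S = c • S) : S * S * S = (‖S‖ ^ 2) • S := by
  obtain ⟨c, hc⟩ := h
  rcases eq_or_ne S 0 with rfl | hS
  · simp
  have hn : 0 < ‖S‖ := norm_pos_iff.mpr hS
  obtain ⟨x, hx⟩ : ∃ x, S x ≠ 0 := by
    by_contra hcon
    push Not at hcon
    exact hS (ContinuousLinearMap.ext hcon)
  have hx' : 0 < ‖S x‖ := norm_pos_iff.mpr hx
  have h3 : ∀ x, S (S (S x)) = c • S x := fun x => congrArg (fun T : V →L[ℝ] V => T x) hc
  have hc0 : 0 ≤ c := by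
    have h4 : c * ‖S x‖ ^ 2 = ‖S (S x)‖ ^ 2 := by
      rw [← real_inner_self_eq_norm_sq, ← real_inner_self_eq_norm_sq, ← hsym (S (S x)) (S x), h3,
        inner_smul_left, conj_trivial]
    nlinarith [sq_nonneg ‖S (S x)‖, sq_nonneg ‖S x‖, pow_pos hx' 2]
  have hsym2 : ∀ x y : V, inner ℝ ((S * S) x) y = inner ℝ x ((S * S) y) := fun x y => by
    show inner ℝ (S (S x)) y = inner ℝ x (S (S y))
    rw [hsym, hsym]
  have h5 := norm_sq_of_symm hsym2
  have h6 : S * S * (S * S) = c • (S * S) := by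
    rw [← mul_assoc, hc, smul_mul_assoc]
  rw [h6, norm_smul, norm_sq_of_symm hsym, Real.norm_of_nonneg hc0] at h5
  have h7 : c = ‖S‖ ^ 2 := by
    have h8 : 0 < ‖S‖ ^ 2 := by positivity
    have : c * ‖S‖ ^ 2 = ‖S‖ ^ 2 * ‖S‖ ^ 2 := by rw [h5]; ring
    exact mul_right_cancel₀ h8.ne' this
  rw [hc, h7]

/-- the exponential as an element of the linear group -/
noncomputable def exEquiv (S : V →L[ℝ] V) : V ≃L[ℝ] V :=
  ContinuousLinearEquiv.equivOfInverse (ex S) (ex (-S)) (ex_neg_ex S) (ex_ex_neg S)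

theorem exEquiv_apply (S : V →L[ℝ] V) (x : V) : exEquiv S x = ex S x := rfl

/-- `G₀` is closed under adjoints, its positive elements are the exponentials of the elements of
the linear space `P` of symmetric operators, and `S ^ 3 ∈ ℝ S` for `S ∈ P`. -/
theorem exists_data (M : AffineDeveloping V G Y) (G₀ : Subgroup (V ≃L[ℝ] V))
    (P : Submodule ℝ (V →L[ℝ] V))
    (hadj : ∀ A ∈ G₀, ∃ B ∈ G₀, ∀ x y : V, inner ℝ (A x) y = inner ℝ x (B y))
    (hsym : ∀ S ∈ P, ∀ x y : V, inner ℝ (S x) y = inner ℝ x (S y))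
    (hpos : ∀ A : V ≃L[ℝ] V, (A ∈ G₀ ∧ (A : V →L[ℝ] V).IsPositive) ↔
      ∃ S ∈ P, (A : V →L[ℝ] V) = NormedSpace.exp S)
    (hcube : ∀ S ∈ P, ∃ c : ℝ, S * S * S = c • S)
    (hlin : ∀ g : G, ∃ L ∈ G₀, ∀ x, (M.hol g).linear x = L x) :
    ∃ D : ROData V G Y, D.toAffineDeveloping = M ∧ D.P = P := by
  have hmem : ∀ S ∈ P, exEquiv S ∈ G₀ ∧ (exEquiv S : V →L[ℝ] V).IsPositive := fun S hS =>
    (hpos _).2 ⟨S, hS, rfl⟩
  have hexsym : ∀ S ∈ P, ∀ x y : V, inner ℝ (ex S x) y = inner ℝ x (ex S y) := fun S hS x y =>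
    (hmem S hS).2.inner_left_eq_inner_right x y
  have hexpos : ∀ S ∈ P, ∀ x : V, 0 ≤ inner ℝ (ex S x) x := fun S hS x =>
    (hmem S hS).2.inner_nonneg_left x
  have htri : ∀ S ∈ P, ∀ T ∈ P, ∃ R ∈ P, ex S * ex T * ex S = ex R := by
    intro S hS T hT
    obtain ⟨R, hR, hR'⟩ := (hpos (exEquiv S * exEquiv T * exEquiv S)).1
      ⟨G₀.mul_mem (G₀.mul_mem (hmem S hS).1 (hmem T hT).1) (hmem S hS).1, by
        rw [ContinuousLinearMap.isPositive_iff]
        refine ⟨fun x y => ?_, fun x => ?_⟩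
        · show inner ℝ (ex S (ex T (ex S x))) y = inner ℝ x (ex S (ex T (ex S y)))
          rw [hexsym S hS, hexsym T hT, hexsym S hS]
        · show 0 ≤ inner ℝ (ex S (ex T (ex S x))) x
          rw [hexsym S hS]
          exact hexpos T hT _⟩
    exact ⟨R, hR, hR'⟩
  have hcart : IsCartan P := ⟨hsym, fun S hS => cube_of_smul (hsym S hS) (hcube S hS), htri⟩
  refine ⟨⟨M, P, hcart, ?_⟩, rfl, rfl⟩
  intro g S hS
  obtain ⟨L, hL, hL'⟩ := hlin g
  obtain ⟨B, hB, hB'⟩ := hadj _ (G₀.inv_mem hL)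
  have h2S : (2 : ℝ) • S ∈ P := P.smul_mem _ hS
  have hBs : ∀ u y : V, inner ℝ (B u) y = inner ℝ u (L⁻¹ y) := fun u y => by
    rw [real_inner_comm, ← hB', real_inner_comm]
  obtain ⟨S2, hS2, hS2'⟩ := (hpos (B * exEquiv ((2 : ℝ) • S) * L⁻¹)).1
    ⟨G₀.mul_mem (G₀.mul_mem hB (hmem _ h2S).1) (G₀.inv_mem hL), by
      rw [ContinuousLinearMap.isPositive_iff]
      refine ⟨fun x y => ?_, fun x => ?_⟩
      · show inner ℝ (B (ex ((2 : ℝ) • S) (L⁻¹ x))) y = inner ℝ x (B (ex ((2 : ℝ) • S) (L⁻¹ y)))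
        rw [hBs, ← hB', hexsym _ h2S]
      · show 0 ≤ inner ℝ (B (ex ((2 : ℝ) • S) (L⁻¹ x))) x
        rw [hBs]
        exact hexpos _ h2S _⟩
  have hS3 : (1 / 2 : ℝ) • S2 ∈ P := P.smul_mem _ hS2
  refine ⟨(1 / 2 : ℝ) • S2, hS3, fun x => ?_⟩
  have h1 : ‖ex ((1 / 2 : ℝ) • S2) ((M.hol g).linear x)‖ ^ 2 = ‖ex S x‖ ^ 2 := by
    rw [norm_ex_sq_inner hcart hS3, norm_ex_sq_inner hcart hS, smul_smul]
    have h3 : (2 : ℝ) * (1 / 2) = 1 := by norm_num
    rw [h3, one_smul, hL']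
    have h4 : ex S2 (L x) = B (ex ((2 : ℝ) • S) (L⁻¹ (L x))) := by
      have := congrArg (fun T : V →L[ℝ] V => T (L x)) hS2'
      exact this.symm
    have h5 : L⁻¹ (L x) = x := L.symm_apply_apply x
    rw [h4, h5, hBs, h5]
  exact (sq_eq_sq₀ (norm_nonneg _) (norm_nonneg _)).1 h1

end Pool.Agent.Helper2.RO
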