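import Pool.Agent.Helper2.RO.Forms

/-! Module FormsLog: positive elements of the group of a form are exponentials. -/

set_option autoImplicit false
set_option linter.unusedSectionVars false

open Set Filter Topology

namespace Pool.Agent.Helper2.RO

variable {V : Type*} [NormedAddCommGroup V] [InnerProductSpace ℝ V] [FiniteDimensional ℝ V]
  {J : V →L[ℝ] V} {A : Set (V →L[ℝ] V)}

/-- An operator anticommuting with an injective positive operator vanishes. -/
theorem anticomm_zero {ℓ T : V →L[ℝ] V} (hsym : ∀ x y : V, inner ℝ (ℓ x) y = inner ℝ x (ℓ y))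
    (hpos : ∀ x : V, 0 ≤ inner ℝ (ℓ x) x) (hinj : ∀ x, ℓ x = 0 → x = 0)
    (h : ℓ * T = -(T * ℓ)) : T = 0 := by
  have hs : (ℓ : V →ₗ[ℝ] V).IsSymmetric := fun x y => hsym x y
  have hz : ∀ i, T (hs.eigenvectorBasis rfl i) = 0 := by
    intro i
    set b := hs.eigenvectorBasis rfl i with hb
    set μ : ℝ := hs.eigenvalues rfl i with hμ
    have h1 : ℓ b = μ • b := hs.apply_eigenvectorBasis rfl i
    have hbn : ‖b‖ = 1 := (hs.eigenvectorBasis rfl).orthonormal.1 i
    have hb0 : b ≠ 0 := by
      intro h0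
      rw [h0, norm_zero] at hbn
      exact zero_ne_one hbn
    have h2 : 0 ≤ μ := by
      have h3 := hpos b
      rwa [h1, inner_smul_left, real_inner_self_eq_norm_sq, hbn, one_pow, mul_one,
        conj_trivial] at h3
    have h4 : μ ≠ 0 := by
      intro h0
      rw [h0, zero_smul] at h1
      exact hb0 (hinj b h1)
    have h5 : 0 < μ := lt_of_le_of_ne h2 (Ne.symm h4)
    have h6 : ℓ (T b) = -(T (ℓ b)) := congrArg (fun S : V →L[ℝ] V => S b) h
    rw [h1, map_smul] at h6
    have h7 := hpos (T b)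
    rw [h6, inner_neg_left, inner_smul_left, real_inner_self_eq_norm_sq, conj_trivial] at h7
    have h8 : ‖T b‖ ^ 2 = 0 := by nlinarith [sq_nonneg ‖T b‖]
    exact norm_eq_zero.mp (pow_eq_zero_iff (two_ne_zero) |>.mp h8)
  have h9 : (T : V →ₗ[ℝ] V) = 0 := by
    refine (hs.eigenvectorBasis rfl).toBasis.ext fun i => ?_
    rw [OrthonormalBasis.coe_toBasis]
    exact hz i
  exact ContinuousLinearMap.coe_inj.mp h9

/-- `L J L = J` for a symmetric element of the group. -/
theorem form_LJL {L : V ≃L[ℝ] V} (hL : L ∈ formGroup J A)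
    (hsym : ∀ x y : V, inner ℝ (L x) y = inner ℝ x (L y)) :
    (L : V →L[ℝ] V) * J * (L : V →L[ℝ] V) = J := by
  refine ContinuousLinearMap.ext fun x => ext_inner_right ℝ fun y => ?_
  change inner ℝ (L (J (L x))) y = inner ℝ (J x) y
  rw [hsym]
  exact hL.1 x y

/-- A positive element `L` commutes with `A`: for `a ∈ A` the operator `L a L⁻¹ ∈ A` commutes with
`J`, and `J L J = L⁻¹`, so `L ^ 2` commutes with `a`; `T = L a - a L` satisfies `L T = - T L`, so
`T` kills all eigenvectors of `L` (positive eigenvalues). -/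
theorem form_pos_comm (h : IsRankOneForm J A) {L : V ≃L[ℝ] V} (hL : L ∈ formGroup J A)
    (hpos : (L : V →L[ℝ] V).IsPositive) : ∀ a ∈ A, a * (L : V →L[ℝ] V) = (L : V →L[ℝ] V) * a := by
  intro a ha
  have hsym : ∀ x y : V, inner ℝ (L x) y = inner ℝ x (L y) := fun x y =>
    hpos.inner_left_eq_inner_right x y
  have hp : ∀ x : V, 0 ≤ inner ℝ (L x) x := fun x => hpos.inner_nonneg_left x
  have h3 := form_LJL hL hsym
  have ha' := (hL.2 a).1 ha
  have hcomm := h.comm _ ha'
  have hca := h.comm a ha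
  set ℓ : V →L[ℝ] V := (L : V →L[ℝ] V) with hℓ
  set m : V →L[ℝ] V := (L.symm : V →L[ℝ] V) with hm
  have hml : m * ℓ = 1 := ContinuousLinearMap.ext fun x => L.symm_apply_apply x
  have hlm : ℓ * m = 1 := ContinuousLinearMap.ext fun x => L.apply_symm_apply x
  have hmJ : m * J = J * ℓ := by
    calc m * J = m * (ℓ * J * ℓ) := by rw [h3]
      _ = m * ℓ * (J * ℓ) := by simp only [mul_assoc]
      _ = J * ℓ := by rw [hml, one_mul]
  have hlJ : ℓ * J = J * m := by
    calc ℓ * J = ℓ * J * (ℓ * m) := by rw [hlm, mul_one]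
      _ = ℓ * J * ℓ * m := by simp only [mul_assoc]
      _ = J * m := by rw [h3]
  have h4 : m * a * ℓ = ℓ * a * m := by
    have h5 : J * (m * a * ℓ) = J * (ℓ * a * m) := by
      calc J * (m * a * ℓ) = (J * m) * (a * ℓ) := by simp only [mul_assoc]
        _ = (ℓ * J) * (a * ℓ) := by rw [hlJ]
        _ = ℓ * (J * a) * ℓ := by simp only [mul_assoc]
        _ = ℓ * (a * J) * ℓ := by rw [hca]
        _ = ℓ * a * (J * ℓ) := by simp only [mul_assoc]
        _ = ℓ * a * (m * J) := by rw [hmJ]
        _ = ℓ * a * m * J := by simp only [mul_assoc]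
        _ = J * (ℓ * a * m) := hcomm
    calc m * a * ℓ = J * J * (m * a * ℓ) := by rw [h.sq, one_mul]
      _ = J * (J * (m * a * ℓ)) := by rw [mul_assoc]
      _ = J * (J * (ℓ * a * m)) := by rw [h5]
      _ = J * J * (ℓ * a * m) := by rw [mul_assoc J J]
      _ = ℓ * a * m := by rw [h.sq, one_mul]
  have h6 : a * ℓ * ℓ = ℓ * ℓ * a := by
    calc a * ℓ * ℓ = ℓ * m * (a * ℓ * ℓ) := by rw [hlm, one_mul]
      _ = ℓ * (m * a * ℓ) * ℓ := by simp only [mul_assoc]
      _ = ℓ * (ℓ * a * m) * ℓ := by rw [h4]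
      _ = ℓ * ℓ * a * (m * ℓ) := by simp only [mul_assoc]
      _ = ℓ * ℓ * a := by rw [hml, mul_one]
  have h7 : ℓ * (ℓ * a - a * ℓ) = -((ℓ * a - a * ℓ) * ℓ) := by
    rw [mul_sub, sub_mul, h6, ← mul_assoc, ← mul_assoc]
    abel
  have h8 := anticomm_zero (ℓ := ℓ) (T := ℓ * a - a * ℓ) hsym hp
    (fun x hx => L.map_eq_zero_iff.mp hx) h7
  exact (sub_eq_zero.mp h8).symm

/-- the exponential of a solution of `S ^ 3 = r ^ 2 S` -/
theorem exp_cubic {S : V →L[ℝ] V} {r : ℝ} (hr : r ≠ 0) (h : S * S * S = r ^ 2 • S) :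
    NormedSpace.exp S =
      1 + (Real.sinh r / r) • S + ((Real.cosh r - 1) / r ^ 2) • (S * S) := by
  let : NormedAlgebra ℚ (V →L[ℝ] V) := NormedAlgebra.restrictScalars ℚ ℝ (V →L[ℝ] V)
  set X : ℝ → (V →L[ℝ] V) := fun t => 1 + (Real.sinh (t * r) / r) • S +
    ((Real.cosh (t * r) - 1) / r ^ 2) • (S * S) with hX
  have hX' : ∀ t, HasDerivAt X (S * X t) t := by
    intro t
    have h0 : HasDerivAt (fun t : ℝ => t * r) r t := by
      simpa using (hasDerivAt_id t).mul_const r
    have h1 : HasDerivAt (fun t : ℝ => Real.sinh (t * r) / r) (Real.cosh (t * r) * r / r) t :=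
      h0.sinh.div_const r
    have h2 : HasDerivAt (fun t : ℝ => (Real.cosh (t * r) - 1) / r ^ 2)
        (Real.sinh (t * r) * r / r ^ 2) t :=
      (h0.cosh.sub_const 1).div_const (r ^ 2)
    have h3 := ((hasDerivAt_const t (1 : V →L[ℝ] V)).add (h1.smul_const S)).add
      (h2.smul_const (S * S))
    have h4 : S * X t = 0 + (Real.cosh (t * r) * r / r) • S +
        (Real.sinh (t * r) * r / r ^ 2) • (S * S) := by
      rw [hX]
      simp only [mul_add, mul_smul_comm, mul_one]
      rw [← mul_assoc, h, smul_smul]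
      have e1 : (Real.cosh (t * r) - 1) / r ^ 2 * r ^ 2 = Real.cosh (t * r) - 1 := by
        field_simp
      have e2 : Real.cosh (t * r) * r / r = Real.cosh (t * r) := by
        field_simp
      have e3 : Real.sinh (t * r) * r / r ^ 2 = Real.sinh (t * r) / r := by
        field_simp
      rw [e1, e2, e3]
      module
    rw [h4]
    exact h3
  have hder : ∀ t, HasDerivAt (fun t => ex ((-t) • S) * X t) 0 t := by
    intro t
    have h1 : HasDerivAt (fun u : ℝ => ex ((-u) • S)) (-(ex ((-t) • S) * S)) t := by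
      have h2 : HasDerivAt (fun u : ℝ => NormedSpace.exp (u • S))
        (NormedSpace.exp ((-t) • S) * S) (-t) := hasDerivAt_exp_smul_const S (-t)
      have h3 := h2.scomp t (hasDerivAt_neg t)
      rw [neg_one_smul] at h3
      exact h3
    have h5 := h1.mul (hX' t)
    have h6 : -(ex ((-t) • S) * S) * X t + ex ((-t) • S) * (S * X t) = 0 := by
      rw [neg_mul, mul_assoc, neg_add_cancel]
    rw [h6] at h5
    exact h5
  have hconst : ex ((-1 : ℝ) • S) * X 1 = 1 := by
    have h1 := is_const_of_deriv_eq_zero (f := fun t => ex ((-t) • S) * X t)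
      (fun t => (hder t).differentiableAt) (fun t => (hder t).deriv) 1 0
    simp only [neg_zero, zero_smul, ex_zero, one_mul] at h1
    rw [h1, hX]
    simp
  have h7 := congrArg (fun T => ex S * T) hconst
  simp only [mul_one] at h7
  rw [← mul_assoc, neg_smul, one_smul, ex_mul_ex_neg, one_mul] at h7
  change ex S = _
  rw [← h7, hX]
  simp only [one_mul]

/-- The logarithm.  `C = (L + L⁻¹)/2` commutes with `J` and `A`, `D = (L - L⁻¹)/2` anticommutes with
`J`.  `C = c ≥ 1` on `ker (J + 1)`; `D ^ 2 = C ^ 2 - 1`; `D (C - c) = 0` (on `ker (J+1)` clear, on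
`ker (J - 1)` since `D x ∈ ker (J + 1)` and `C D = D C`), so `(C + 1)(C - 1)(C - c) = 0`,
`(C - 1)(C - c) = 0` as `C + 1` is invertible.  If `c = 1` then `C = 1`, `D = 0`, `L = 1`.
Otherwise `c = cosh r`, `s = sinh r`, `S = (r / s) • D`: `S ^ 3 = r ^ 2 • S`,
`exp S = 1 + D + ((c - 1) / s ^ 2) • D ^ 2 = C + D = L`. -/
theorem form_exp_of_pos (h : IsRankOneForm J A) {L : V ≃L[ℝ] V} (hL : L ∈ formGroup J A)
    (hpos : (L : V →L[ℝ] V).IsPositive) :
    ∃ S ∈ formP J A, (L : V →L[ℝ] V) = NormedSpace.exp S := by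
  have hsym : ∀ x y : V, inner ℝ (L x) y = inner ℝ x (L y) := fun x y =>
    hpos.inner_left_eq_inner_right x y
  have hp : ∀ x : V, 0 ≤ inner ℝ (L x) x := fun x => hpos.inner_nonneg_left x
  have h3 := form_LJL hL hsym
  have hAl := form_pos_comm h hL hpos
  set ℓ : V →L[ℝ] V := (L : V →L[ℝ] V) with hℓ
  set m : V →L[ℝ] V := (L.symm : V →L[ℝ] V) with hm
  have hml : m * ℓ = 1 := ContinuousLinearMap.ext fun x => L.symm_apply_apply x
  have hlm : ℓ * m = 1 := ContinuousLinearMap.ext fun x => L.apply_symm_apply x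
  have hmJ : m * J = J * ℓ := by
    calc m * J = m * (ℓ * J * ℓ) := by rw [h3]
      _ = m * ℓ * (J * ℓ) := by simp only [mul_assoc]
      _ = J * ℓ := by rw [hml, one_mul]
  have hlJ : ℓ * J = J * m := by
    calc ℓ * J = ℓ * J * (ℓ * m) := by rw [hlm, mul_one]
      _ = ℓ * J * ℓ * m := by simp only [mul_assoc]
      _ = J * m := by rw [h3]
  have hAm : ∀ a ∈ A, a * m = m * a := by
    intro a ha
    calc a * m = m * ℓ * (a * m) := by rw [hml, one_mul]
      _ = m * (ℓ * a) * m := by simp only [mul_assoc]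
      _ = m * (a * ℓ) * m := by rw [hAl a ha]
      _ = m * a * (ℓ * m) := by simp only [mul_assoc]
      _ = m * a := by rw [hlm, mul_one]
  have hls : ∀ x y : V, inner ℝ (ℓ x) y = inner ℝ x (ℓ y) := hsym
  have hlp : ∀ x : V, 0 ≤ inner ℝ (ℓ x) x := hp
  have hlm' : ∀ x, ℓ (m x) = x := fun x => congrArg (fun T : V →L[ℝ] V => T x) hlm
  have hms : ∀ x y : V, inner ℝ (m x) y = inner ℝ x (m y) := by
    intro x y
    calc inner ℝ (m x) y = inner ℝ (m x) (ℓ (m y)) := by rw [hlm']
      _ = inner ℝ (ℓ (m x)) (m y) := (hls _ _).symm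
      _ = inner ℝ x (m y) := by rw [hlm']
  have hmp : ∀ x : V, 0 ≤ inner ℝ (m x) x := by
    intro x
    have h4 := hlp (m x)
    rwa [hlm', real_inner_comm] at h4
  clear_value ℓ m
  clear hℓ hm hsym hp hpos hL
  set C : V →L[ℝ] V := (1 / 2 : ℝ) • (ℓ + m) with hC
  set E : V →L[ℝ] V := (1 / 2 : ℝ) • (ℓ - m) with hE
  have hlCE : ℓ = C + E := by rw [hC, hE]; module
  have hCJ : C * J = J * C := by
    rw [hC, smul_mul_assoc, mul_smul_comm, add_mul, mul_add, hlJ, hmJ, add_comm]
  have hEJ : E * J = -(J * E) := by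
    rw [hE, smul_mul_assoc, mul_smul_comm, sub_mul, mul_sub, hlJ, hmJ, ← smul_neg, neg_sub]
  have hCE : C * E = E * C := by
    rw [hC, hE]
    simp only [smul_mul_assoc, mul_smul_comm, add_mul, mul_add, sub_mul, mul_sub, hml, hlm]
    module
  have hEE : E * E = C * C - 1 := by
    rw [hC, hE]
    simp only [smul_mul_assoc, mul_smul_comm, add_mul, mul_add, sub_mul, mul_sub, hml, hlm]
    module
  have hCs : ∀ x y : V, inner ℝ (C x) y = inner ℝ x (C y) := by
    intro x y
    simp only [hC, ContinuousLinearMap.smul_apply, ContinuousLinearMap.add_apply, inner_smul_left,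
      inner_smul_right, inner_add_left, inner_add_right, hls x y, hms x y, conj_trivial]
  have hEs : ∀ x y : V, inner ℝ (E x) y = inner ℝ x (E y) := by
    intro x y
    simp only [hE, ContinuousLinearMap.smul_apply, ContinuousLinearMap.sub_apply, inner_smul_left,
      inner_smul_right, inner_sub_left, inner_sub_right, hls x y, hms x y, conj_trivial]
  have hCp : ∀ x : V, 0 ≤ inner ℝ (C x) x := by
    intro x
    simp only [hC, ContinuousLinearMap.smul_apply, ContinuousLinearMap.add_apply, inner_smul_left,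
      inner_add_left, conj_trivial]
    have h4 := hlp x
    have h5 := hmp x
    positivity
  have hAC : ∀ a ∈ A, a * C = C * a := by
    intro a ha
    rw [hC, smul_mul_assoc, mul_smul_comm, add_mul, mul_add, hAl a ha, hAm a ha]
  have hAE : ∀ a ∈ A, a * E = E * a := by
    intro a ha
    rw [hE, smul_mul_assoc, mul_smul_comm, sub_mul, mul_sub, hAl a ha, hAm a ha]
  obtain ⟨c, hc⟩ := h.irr C hCs hAC hCJ
  -- `E (C - c) = 0`
  have hJJ : ∀ x, J (J x) = x := fun x => congrArg (fun T : V →L[ℝ] V => T x) h.sq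
  have hEJ' : ∀ x, E (J x) = -(J (E x)) := fun x => congrArg (fun T : V →L[ℝ] V => T x) hEJ
  have hCE' : ∀ x, C (E x) = E (C x) := fun x => congrArg (fun T : V →L[ℝ] V => T x) hCE
  have hEE' : ∀ x, E (E x) = C (C x) - x := fun x => congrArg (fun T : V →L[ℝ] V => T x) hEE
  have hEc : ∀ x, E (C x) = c • E x := by
    have hminus : ∀ x, J x = -x → E (C x) = c • E x := by
      intro x hx
      rw [hc x hx, map_smul]
    have hplus : ∀ x, J x = x → E (C x) = c • E x := by
      intro x hx
      have h4 : J (E x) = -(E x) := by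
        have h5 := hEJ' x
        rw [hx] at h5
        rw [eq_neg_iff_add_eq_zero, add_comm]
        nth_rewrite 1 [h5]
        exact neg_add_cancel _
      rw [← hCE', hc _ h4]
    intro x
    have h4 := hminus ((1 / 2 : ℝ) • (x - J x)) (by
      rw [map_smul, map_sub, hJJ]
      module)
    have h5 := hplus ((1 / 2 : ℝ) • (x + J x)) (by
      rw [map_smul, map_add, hJJ]
      module)
    have h6 : x = (1 / 2 : ℝ) • (x - J x) + (1 / 2 : ℝ) • (x + J x) := by module
    have h7 : ∀ u w : V, E (C u) = c • E u → E (C w) = c • E w →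
        E (C (u + w)) = c • E (u + w) := by
      intro u w hu hw
      rw [map_add, map_add, map_add, hu, hw, smul_add]
    rw [h6]
    exact h7 _ _ h4 h5
  -- the case `E = 0`
  rcases eq_or_ne E 0 with hE0 | hE0
  · refine ⟨0, (formP J A).zero_mem, ?_⟩
    rw [NormedSpace.exp_zero]
    have h4 : ℓ = m := by
      have h5 : ℓ - m = 0 := by
        have h6 : ℓ - m = (2 : ℝ) • E := by rw [hE]; module
        rw [h6, hE0, smul_zero]
      exact sub_eq_zero.mp h5
    rw [← h4] at hlm'
    refine ContinuousLinearMap.ext fun x => ?_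
    change ℓ x = x
    have h6 : ℓ (ℓ x - x) = -(ℓ x - x) := by
      rw [map_sub, hlm']
      abel
    have h7 := hlp (ℓ x - x)
    rw [h6, inner_neg_left, real_inner_self_eq_norm_sq] at h7
    have h8 : ‖ℓ x - x‖ ^ 2 = 0 := by nlinarith [sq_nonneg ‖ℓ x - x‖]
    have h9 : ℓ x - x = 0 := norm_eq_zero.mp (pow_eq_zero_iff (two_ne_zero) |>.mp h8)
    exact sub_eq_zero.mp h9
  -- `c > 1`
  obtain ⟨x, hx⟩ : ∃ x, E x ≠ 0 := by
    by_contra hcon
    push Not at hcon
    exact hE0 (ContinuousLinearMap.ext hcon)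
  have hxn : 0 < ‖E x‖ ^ 2 := by
    have := norm_pos_iff.mpr hx
    positivity
  have hCw : C (E x) = c • E x := by rw [hCE', hEc]
  have hc0 : 0 ≤ c := by
    have h4 := hCp (E x)
    rw [hCw, inner_smul_left, real_inner_self_eq_norm_sq, conj_trivial] at h4
    nlinarith
  have hEw : ‖E (E x)‖ ^ 2 = (c ^ 2 - 1) * ‖E x‖ ^ 2 := by
    rw [← real_inner_self_eq_norm_sq, hEs, hEE' (E x), hCw, map_smul, hCw, inner_sub_right,
      smul_smul, inner_smul_right, real_inner_self_eq_norm_sq]
    ring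
  have hEx0 : 0 < ‖E (E x)‖ ^ 2 := by
    have h4 : E (E x) ≠ 0 := by
      intro h5
      have h6 : inner ℝ (E x) (E x) = inner ℝ x (E (E x)) := hEs x (E x)
      rw [h5, inner_zero_right, real_inner_self_eq_norm_sq] at h6
      exact hxn.ne' h6
    have := norm_pos_iff.mpr h4
    positivity
  have hc1 : 0 < c ^ 2 - 1 := by
    rw [hEw] at hEx0
    exact (mul_pos_iff_of_pos_right hxn).mp hEx0
  have hc1' : 1 < c := by nlinarith
  obtain ⟨r, hr0, hrc⟩ : ∃ r : ℝ, 0 < r ∧ Real.cosh r = c := by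
    refine ⟨Real.arcosh c, ?_, Real.cosh_arcosh hc1'.le⟩
    have h4 : Real.arcosh c ≠ 0 := by
      intro h5
      have h6 := Real.cosh_arcosh hc1'.le
      rw [h5, Real.cosh_zero] at h6
      exact hc1'.ne h6
    exact lt_of_le_of_ne (Real.arcosh_nonneg hc1'.le) (Ne.symm h4)
  set s := Real.sinh r with hs
  have hs0 : 0 < s := Real.sinh_pos_iff.mpr hr0
  have hs2 : s ^ 2 = c ^ 2 - 1 := by
    have := Real.cosh_sq r
    rw [hrc] at this
    rw [hs]
    linarith
  -- `(C - 1) (C - c) = 0`
  have hquad : ∀ x, C (C x) = (c + 1) • C x - c • x := by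
    intro x
    set z := C (C x) - ((c + 1) • C x - c • x) with hz
    have h4 : C z = -z := by
      -- `(C + 1) z = (C ^ 2 - 1) (C - c) x = E (E (C x - c x)) = 0`
      have h5 : E (E (C x)) = c • E (E x) := by
        rw [← map_smul, ← hEc x]
      rw [hEE', hEE'] at h5
      rw [hz]
      simp only [map_sub, map_smul]
      rw [eq_neg_iff_add_eq_zero]
      have h6 : C (C (C x)) = c • (C (C x) - x) + C x := by
        rw [← h5]; abel
      rw [h6]
      module
    have h7 := hCp z
    rw [h4, inner_neg_left, real_inner_self_eq_norm_sq] at h7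
    have h8 : ‖z‖ ^ 2 = 0 := by nlinarith [sq_nonneg ‖z‖]
    have h9 : z = 0 := norm_eq_zero.mp (pow_eq_zero_iff (two_ne_zero) |>.mp h8)
    exact sub_eq_zero.mp h9
  have hE3 : E * E * E = s ^ 2 • E := by
    refine ContinuousLinearMap.ext fun x => ?_
    change E (E (E x)) = s ^ 2 • E x
    rw [hEE' (E x), hCE', hEc, map_smul, hCE', hEc, smul_smul, hs2]
    module
  refine ⟨(r / s) • E, ⟨?_, ?_, ?_⟩, ?_⟩
  · intro x y
    simp only [ContinuousLinearMap.smul_apply, inner_smul_left, inner_smul_right, hEs x y,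
      conj_trivial]
  · rw [smul_mul_assoc, mul_smul_comm, hEJ, smul_neg]
  · intro a ha
    rw [smul_mul_assoc, mul_smul_comm, hAE a ha]
  · have hS3 : ((r / s) • E) * ((r / s) • E) * ((r / s) • E) = r ^ 2 • ((r / s) • E) := by
      simp only [smul_mul_assoc, mul_smul_comm, smul_smul]
      rw [hE3, smul_smul]
      congr 1
      field_simp
    rw [exp_cubic hr0.ne' hS3, hrc, ← hs]
    simp only [smul_mul_assoc, mul_smul_comm, smul_smul]
    refine ContinuousLinearMap.ext fun x => ?_
    simp only [ContinuousLinearMap.add_apply, ContinuousLinearMap.smul_apply,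
      ContinuousLinearMap.one_apply, ContinuousLinearMap.mul_apply]
    rw [hEE' x, hquad x, hlCE]
    simp only [ContinuousLinearMap.add_apply]
    have e1 : s / r * (r / s) = 1 := by field_simp
    have e2 : (c - 1) / r ^ 2 * (r / s * (r / s)) = 1 / (c + 1) := by
      have h4 : (c + 1) ≠ 0 := by linarith
      have h5 : (r / s) * (r / s) = r ^ 2 / (c ^ 2 - 1) := by
        rw [← hs2]; field_simp
      rw [h5]
      have h6 : c ^ 2 - 1 = (c - 1) * (c + 1) := by ring
      have h7 : c - 1 ≠ 0 := by linarith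
      rw [h6]
      field_simp
    rw [e1, e2, one_smul]
    have h4 : (c + 1) • C x - c • x - x = (c + 1) • (C x - x) := by module
    rw [h4, smul_smul, one_div_mul_cancel (by linarith), one_smul]
    abel

end Pool.Agent.Helper2.RO
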