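import Mathlib

/-! Module Scal: a maximum principle. -/

set_option autoImplicit false

open Set Filter Topology

namespace Pool.Agent.Helper2.RO

/-- A continuous function with `2 cosh δ u(t) ≤ u(t + δ) + u(t - δ)` for small `δ` lies below the
solution of `f'' = f` with the same boundary values.  Proof: subtract the solution; at an interior
maximum point with positive value the hypothesis gives `cosh δ ≤ 1`. -/
theorem hyp_convex {u : ℝ → ℝ} {T : ℝ} (hT : 0 < T) (hu : ContinuousOn u (Icc 0 T))
    (h : ∀ t ∈ Ioo (0 : ℝ) T, ∀ᶠ δ in 𝓝[>] (0 : ℝ),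
      2 * Real.cosh δ * u t ≤ u (t + δ) + u (t - δ)) :
    ∀ t ∈ Icc (0 : ℝ) T, Real.sinh T * u t ≤ Real.sinh (T - t) * u 0 + Real.sinh t * u T := by
  set w : ℝ → ℝ := fun t =>
    Real.sinh T * u t - (Real.sinh (T - t) * u 0 + Real.sinh t * u T) with hw
  have hsT : 0 < Real.sinh T := Real.sinh_pos_iff.mpr hT
  have hwc : ContinuousOn w (Icc 0 T) := by
    apply ContinuousOn.sub (hu.const_smul (Real.sinh T) |>.congr fun x _ => by simp [smul_eq_mul])
    apply Continuous.continuousOn
    have h1 : Continuous fun t : ℝ => Real.sinh (T - t) :=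
      Real.continuous_sinh.comp (continuous_const.sub continuous_id)
    exact (h1.mul continuous_const).add (Real.continuous_sinh.mul continuous_const)
  have h0 : w 0 = 0 := by simp [hw]
  have h1 : w T = 0 := by simp [hw]
  obtain ⟨s, hs, hmax⟩ := isCompact_Icc.exists_isMaxOn ⟨0, left_mem_Icc.mpr hT.le⟩ hwc
  have key : w s ≤ 0 := by
    by_contra hpos
    rw [not_le] at hpos
    have hs0 : 0 < s := by
      rcases eq_or_lt_of_le hs.1 with e | e
      · rw [← e, h0] at hpos
        exact absurd hpos (lt_irrefl _)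
      · exact e
    have hsT' : s < T := by
      rcases eq_or_lt_of_le hs.2 with e | e
      · rw [e, h1] at hpos
        exact absurd hpos (lt_irrefl _)
      · exact e
    have hev : ∀ᶠ δ in 𝓝[>] (0 : ℝ), 0 < δ ∧ δ < s ∧ δ < T - s := by
      have a1 : ∀ᶠ δ in 𝓝[>] (0 : ℝ), 0 < δ := eventually_mem_nhdsWithin
      have a2 : ∀ᶠ δ in 𝓝[>] (0 : ℝ), δ < s :=
        (eventually_lt_nhds hs0).filter_mono nhdsWithin_le_nhds
      have a3 : ∀ᶠ δ in 𝓝[>] (0 : ℝ), δ < T - s :=
        (eventually_lt_nhds (sub_pos.mpr hsT')).filter_mono nhdsWithin_le_nhds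
      filter_upwards [a1, a2, a3] with δ b1 b2 b3
      exact ⟨b1, b2, b3⟩
    obtain ⟨δ, hδ, hδ0, hδs, hδT⟩ := ((h s ⟨hs0, hsT'⟩).and hev).exists
    have m1 : w (s + δ) ≤ w s := hmax ⟨by linarith, by linarith⟩
    have m2 : w (s - δ) ≤ w s := hmax ⟨by linarith, by linarith⟩
    have e1 : w (s + δ) + w (s - δ) = Real.sinh T * (u (s + δ) + u (s - δ)) -
        2 * Real.cosh δ * (Real.sinh (T - s) * u 0 + Real.sinh s * u T) := by
      have r1 : T - (s + δ) = (T - s) - δ := by ring
      have r2 : T - (s - δ) = (T - s) + δ := by ring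
      simp only [hw]
      rw [r1, r2, Real.sinh_sub (T - s) δ, Real.sinh_add (T - s) δ, Real.sinh_add s δ,
        Real.sinh_sub s δ]
      ring
    have e2 : Real.sinh T * (2 * Real.cosh δ * u s) ≤ Real.sinh T * (u (s + δ) + u (s - δ)) :=
      mul_le_mul_of_nonneg_left hδ hsT.le
    have e3 : 2 * Real.cosh δ * w s ≤ 2 * w s := by
      have : 2 * Real.cosh δ * w s = Real.sinh T * (2 * Real.cosh δ * u s) -
          2 * Real.cosh δ * (Real.sinh (T - s) * u 0 + Real.sinh s * u T) := by
        simp only [hw]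
        ring
      linarith
    have hc : 1 < Real.cosh δ := Real.one_lt_cosh.mpr hδ0.ne'
    nlinarith
  intro t ht
  have := hmax ht
  have h2 : w t ≤ 0 := le_trans this key
  simp only [hw] at h2
  linarith

end Pool.Agent.Helper2.RO
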