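import Pool.Agent.Helper2.RO.AlgA

/-! Module AlgB: identities for two operators in `P`. -/

set_option autoImplicit false
set_option linter.unusedSectionVars false

open Set Filter Topology

namespace Pool.Agent.Helper2.RO

variable {V : Type*} [NormedAddCommGroup V] [InnerProductSpace ℝ V] [FiniteDimensional ℝ V]
  {P : Submodule ℝ (V →L[ℝ] V)} (hP : IsCartan P)
include hP

/-- the cubes of `S + T` and `S - T` -/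
theorem algB_cubes {S T : V →L[ℝ] V} (hS : S ∈ P) (hT : T ∈ P) :
    ((2 : ℝ) • (S * S * T + S * T * S + T * S * S) = (‖S + T‖ ^ 2 - ‖S - T‖ ^ 2) • S +
      (‖S + T‖ ^ 2 + ‖S - T‖ ^ 2 - 2 * ‖T‖ ^ 2) • T) ∧
    ((2 : ℝ) • (S * T * T + T * S * T + T * T * S) =
      (‖S + T‖ ^ 2 + ‖S - T‖ ^ 2 - 2 * ‖S‖ ^ 2) • S + (‖S + T‖ ^ 2 - ‖S - T‖ ^ 2) • T) := by
  have h1 := hP.cube (S + T) (P.add_mem hS hT)
  have h2 := hP.cube (S - T) (P.sub_mem hS hT)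
  have h3 := hP.cube S hS
  have h4 := hP.cube T hT
  have e1 : (S + T) * (S + T) * (S + T) = S * S * S + (S * S * T + S * T * S + T * S * S) +
      (S * T * T + T * S * T + T * T * S) + T * T * T := by noncomm_ring
  have e2 : (S - T) * (S - T) * (S - T) = S * S * S - (S * S * T + S * T * S + T * S * S) +
      (S * T * T + T * S * T + T * T * S) - T * T * T := by noncomm_ring
  rw [e1, h3, h4] at h1
  rw [e2, h3, h4] at h2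
  set A := S * S * T + S * T * S + T * S * S
  set B := S * T * T + T * S * T + T * T * S
  constructor
  · have : (2 : ℝ) • A = ((‖S‖ ^ 2) • S + A + B + (‖T‖ ^ 2) • T) -
      ((‖S‖ ^ 2) • S - A + B - (‖T‖ ^ 2) • T) - (2 * ‖T‖ ^ 2) • T := by module
    rw [this, h1, h2]
    module
  · have : (2 : ℝ) • B = ((‖S‖ ^ 2) • S + A + B + (‖T‖ ^ 2) • T) +
      ((‖S‖ ^ 2) • S - A + B - (‖T‖ ^ 2) • T) - (2 * ‖S‖ ^ 2) • S := by module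
    rw [this, h1, h2]
    module

/-- The operator norm on `P` satisfies the parallelogram law.  Proof: compare the coefficients of
`S`, `T` in the cubes of `S + T`, `S - T`, `S + 2 T` if `S`, `T` are linearly independent. -/
theorem parallelogram {S T : V →L[ℝ] V} (hS : S ∈ P) (hT : T ∈ P) :
    ‖S + T‖ ^ 2 + ‖S - T‖ ^ 2 = 2 * (‖S‖ ^ 2 + ‖T‖ ^ 2) := by
  obtain ⟨h1, h2⟩ := algB_cubes hP hS hT
  have h3 := hP.cube S hS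
  have h4 := hP.cube T hT
  have h5 := hP.cube (S + (2 : ℝ) • T) (P.add_mem hS (P.smul_mem _ hT))
  have e1 : (S + (2 : ℝ) • T) * (S + (2 : ℝ) • T) * (S + (2 : ℝ) • T) =
      S * S * S + (2 : ℝ) • (S * S * T + S * T * S + T * S * S) +
      (2 : ℝ) • ((2 : ℝ) • (S * T * T + T * S * T + T * T * S)) + (8 : ℝ) • (T * T * T) := by
    simp only [add_mul, mul_add, smul_mul_assoc, mul_smul_comm]
    simp only [mul_assoc]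
    module
  rw [e1, h1, h2, h3, h4] at h5
  set a := ‖S + T‖ ^ 2
  set b := ‖S - T‖ ^ 2
  set c := ‖S + (2 : ℝ) • T‖ ^ 2
  have h6 : (3 * a + b - 3 * ‖S‖ ^ 2 - c) • S + (3 * a - b + 6 * ‖T‖ ^ 2 - 2 * c) • T = 0 := by
    have h7 := sub_eq_zero.2 h5
    rw [← h7]
    module
  by_cases hβ : 3 * a - b + 6 * ‖T‖ ^ 2 - 2 * c = 0
  · by_cases hα : 3 * a + b - 3 * ‖S‖ ^ 2 - c = 0
    · linarith
    · rw [hβ, zero_smul, add_zero, smul_eq_zero] at h6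
      have hS0 : S = 0 := h6.resolve_left hα
      simp only [a, b, hS0, zero_add, zero_sub, norm_neg, norm_zero]
      ring
  · have hT' : T = (-(3 * a + b - 3 * ‖S‖ ^ 2 - c) / (3 * a - b + 6 * ‖T‖ ^ 2 - 2 * c)) • S := by
      have h7 : (3 * a - b + 6 * ‖T‖ ^ 2 - 2 * c) • T = (-(3 * a + b - 3 * ‖S‖ ^ 2 - c)) • S := by
        rw [neg_smul]
        exact eq_neg_of_add_eq_zero_right h6
      rw [div_eq_inv_mul, mul_smul, ← h7, smul_smul, inv_mul_cancel₀ hβ, one_smul]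
    obtain ⟨μ, hμ⟩ : ∃ μ : ℝ, T = μ • S := ⟨_, hT'⟩
    have f1 : S + μ • S = (1 + μ) • S := by module
    have f2 : S - μ • S = (1 - μ) • S := by module
    simp only [a, b, hμ, f1, f2, norm_smul, mul_pow, Real.norm_eq_abs, sq_abs]
    ring

theorem tri_id {S T : V →L[ℝ] V} (hS : S ∈ P) (hT : T ∈ P) :
    S * S * T + S * T * S + T * S * S =
      (‖S‖ ^ 2) • T + ((‖S + T‖ ^ 2 - ‖S - T‖ ^ 2) / 2) • S := by
  have h1 := (algB_cubes hP hS hT).1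
  have h2 := parallelogram hP hS hT
  rw [h2] at h1
  have h3 : S * S * T + S * T * S + T * S * S =
      (1 / 2 : ℝ) • ((2 : ℝ) • (S * S * T + S * T * S + T * S * S)) := by module
  rw [h3, h1]
  module

/-- (β) -/
theorem top_beta {η S : V →L[ℝ] V} (hη : η ∈ P) (h1 : ‖η‖ = 1) (hS : S ∈ P) {ℓ : V}
    (hℓ : η ℓ = ℓ) : top η (S ℓ) = ((‖S + η‖ ^ 2 - ‖S - η‖ ^ 2) / 4) • ℓ := by
  have h2 := congrArg (fun T : V →L[ℝ] V => T ℓ) (tri_id hP hη hS)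
  simp only [add_apply, mul_apply_eq_comp, smul_apply, hℓ, h1, one_pow, one_smul] at h2
  rw [norm_sub_rev, add_comm η S] at h2
  have h3 : top η (S ℓ) = (1 / 2 : ℝ) • (η (η (S ℓ)) + η (S ℓ)) := by
    simp only [top, h1, inv_one, one_smul]
    simp
  rw [h3]
  have h4 : η (η (S ℓ)) + η (S ℓ) = ((‖S + η‖ ^ 2 - ‖S - η‖ ^ 2) / 2) • ℓ := by
    have h5 : η (η (S ℓ)) + η (S ℓ) = (η (η (S ℓ)) + η (S ℓ) + S ℓ) - S ℓ := by abel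
    rw [h5, h2]
    abel
  rw [h4]
  module

/-- (β) -/
theorem inner_beta {η S : V →L[ℝ] V} (hη : η ∈ P) (h1 : ‖η‖ = 1) (hS : S ∈ P) {ℓ : V}
    (hℓ : η ℓ = ℓ) : inner ℝ ℓ (S ℓ) = (‖S + η‖ ^ 2 - ‖S - η‖ ^ 2) / 4 * ‖ℓ‖ ^ 2 := by
  have hF : top η ℓ = ℓ := (fix_iff hP hη h1).1 hℓ
  have h2 : inner ℝ ℓ (S ℓ) = inner ℝ ℓ (top η (S ℓ)) := by
    rw [← top_symm hP hη, hF]
  rw [h2, top_beta hP hη h1 hS hℓ, inner_smul_right, real_inner_self_eq_norm_sq]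

/-- (γ) -/
theorem gamma {η S : V →L[ℝ] V} (hη : η ∈ P) (h1 : ‖η‖ = 1) (hS : S ∈ P) {ν : V}
    (hν : η ν = ν) (hν1 : ‖ν‖ = 1) : ‖S‖ ^ 2 + inner ℝ ν (S ν) ^ 2 ≤ 2 * ‖S ν‖ ^ 2 := by
  have h2 := congrArg (fun T : V →L[ℝ] V => inner ℝ ν (T ν)) (tri_id hP hS hη)
  have hb := inner_beta hP hη h1 hS hν
  have ht := top_beta hP hη h1 hS hν
  rw [hν1, one_pow, mul_one] at hb
  rw [← hb] at ht
  simp only [add_apply, mul_apply_eq_comp, smul_apply, hν, inner_add_right, inner_smul_right,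
    real_inner_self_eq_norm_sq, hν1, one_pow, mul_one] at h2
  have e1 : inner ℝ ν (S (S ν)) = ‖S ν‖ ^ 2 := by
    rw [← hP.symm S hS, real_inner_self_eq_norm_sq]
  have e2 : inner ℝ ν (η (S (S ν))) = ‖S ν‖ ^ 2 := by
    rw [← hP.symm η hη, hν, e1]
  have e3 : inner ℝ ν (S (η (S ν))) = ‖top η (S ν)‖ ^ 2 - ‖bot η (S ν)‖ ^ 2 := by
    rw [← hP.symm S hS, apply_eq η (S ν), h1, one_smul, inner_sub_right, inner_top_self hP hη]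
    have h3 := inner_top_self hP (P.neg_mem hη) (S ν)
    rw [top_neg] at h3
    rw [h3]
  have e4 : ‖top η (S ν)‖ ^ 2 = inner ℝ ν (S ν) ^ 2 := by
    rw [ht, norm_smul, hν1, mul_one, Real.norm_eq_abs, sq_abs]
  rw [e1, e2, e3, e4] at h2
  have h5 : 0 ≤ ‖bot η (S ν)‖ ^ 2 := sq_nonneg _
  have h6 : (‖S + η‖ ^ 2 - ‖S - η‖ ^ 2) / 2 * inner ℝ ν (S ν) = 2 * inner ℝ ν (S ν) ^ 2 := by
    have : (‖S + η‖ ^ 2 - ‖S - η‖ ^ 2) / 2 = 2 * inner ℝ ν (S ν) := by rw [hb]; ring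
    rw [this]
    ring
  rw [h6] at h2
  linarith

/-- (δ) -/
theorem eq_of_fix {η η' : V →L[ℝ] V} (hη : η ∈ P) (h1 : ‖η‖ = 1) (hη' : η' ∈ P) (h1' : ‖η'‖ = 1)
    {ν : V} (hν0 : ν ≠ 0) (hν : η ν = ν) (hν' : η' ν = ν) : η = η' := by
  have hb := inner_beta hP hη h1 hη' hν
  rw [hν', real_inner_self_eq_norm_sq] at hb
  have hp := parallelogram hP hη' hη
  rw [h1, h1'] at hp
  have hn : 0 < ‖ν‖ ^ 2 := by positivity
  have h2 : (‖η' + η‖ ^ 2 - ‖η' - η‖ ^ 2) / 4 = 1 := by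
    have h3 : ((‖η' + η‖ ^ 2 - ‖η' - η‖ ^ 2) / 4 - 1) * ‖ν‖ ^ 2 = 0 := by
      rw [sub_mul, ← hb]
      ring
    rcases mul_eq_zero.1 h3 with h4 | h4
    · linarith
    · exact absurd h4 hn.ne'
  have h3 : ‖η' - η‖ ^ 2 = 0 := by linarith
  have h4 : ‖η' - η‖ = 0 := by rwa [sq_eq_zero_iff] at h3
  exact (sub_eq_zero.1 (norm_eq_zero.1 h4)).symm

theorem algB_mid_unit {η ζ : V →L[ℝ] V} (hη : η ∈ P) (h1 : ‖η‖ = 1) (hζ : ζ ∈ P) (h1' : ‖ζ‖ = 1)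
    {ℓ : V} (hℓ : η ℓ = ℓ) (hn : ‖ℓ‖ = 1) :
    (‖mid ζ ℓ‖ ^ 2) ^ 2 ≤ 4 * ‖top ζ ℓ‖ ^ 2 * ‖bot ζ ℓ‖ ^ 2 := by
  have hg := gamma hP hη h1 hζ hℓ hn
  have hsum := norm_sq_decomp hP hζ ℓ
  have hbot := inner_top_self hP (P.neg_mem hζ) ℓ
  rw [top_neg] at hbot
  have hin : inner ℝ ℓ (ζ ℓ) = ‖top ζ ℓ‖ ^ 2 - ‖bot ζ ℓ‖ ^ 2 := by
    rw [apply_eq ζ ℓ, h1', one_smul, inner_sub_right, inner_top_self hP hζ, hbot]
  have hSn : ‖ζ ℓ‖ ^ 2 = ‖top ζ ℓ‖ ^ 2 + ‖bot ζ ℓ‖ ^ 2 := by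
    have h0 : inner ℝ (top ζ ℓ) (bot ζ ℓ) = 0 := by
      rw [top_symm hP hζ, ← mul_apply_eq_comp, top_mul_bot hP hζ]
      simp
    rw [apply_eq ζ ℓ, h1', one_smul, norm_sub_sq_real, h0]
    ring
  rw [hn] at hsum
  rw [hSn, hin, h1'] at hg
  set p := ‖top ζ ℓ‖ ^ 2
  set g := ‖mid ζ ℓ‖ ^ 2
  set m := ‖bot ζ ℓ‖ ^ 2
  have hgg : g = 1 - p - m := by linarith
  rw [hgg]
  nlinarith

/-- the components of a fixed vector of `η` with respect to `ζ` -/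
theorem mid_sq_le {η ζ : V →L[ℝ] V} (hη : η ∈ P) (h1 : ‖η‖ = 1) (hζ : ζ ∈ P) (h1' : ‖ζ‖ = 1)
    {ℓ : V} (hℓ : η ℓ = ℓ) :
    (‖mid ζ ℓ‖ ^ 2) ^ 2 ≤ 4 * ‖top ζ ℓ‖ ^ 2 * ‖bot ζ ℓ‖ ^ 2 := by
  by_cases h0 : ℓ = 0
  · simp [h0]
  have hn : 0 < ‖ℓ‖ := norm_pos_iff.2 h0
  have hν : η (‖ℓ‖⁻¹ • ℓ) = ‖ℓ‖⁻¹ • ℓ := by rw [map_smul, hℓ]
  have hν1 : ‖‖ℓ‖⁻¹ • ℓ‖ = 1 := by
    rw [norm_smul, norm_inv, norm_norm, inv_mul_cancel₀ hn.ne']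
  have h2 := algB_mid_unit hP hη h1 hζ h1' hν hν1
  simp only [map_smul, norm_smul, norm_inv, norm_norm, mul_pow] at h2
  have h3 : 0 < ‖ℓ‖⁻¹ ^ 2 := by positivity
  have h4 : 0 < (‖ℓ‖⁻¹ ^ 2) ^ 2 := by positivity
  have h5 : (‖ℓ‖⁻¹ ^ 2) ^ 2 * (‖mid ζ ℓ‖ ^ 2) ^ 2 ≤
      (‖ℓ‖⁻¹ ^ 2) ^ 2 * (4 * ‖top ζ ℓ‖ ^ 2 * ‖bot ζ ℓ‖ ^ 2) := by
    calc _ ≤ 4 * (‖ℓ‖⁻¹ ^ 2 * ‖top ζ ℓ‖ ^ 2) * (‖ℓ‖⁻¹ ^ 2 * ‖bot ζ ℓ‖ ^ 2) := h2
      _ = _ := by ring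
  exact le_of_mul_le_mul_left h5 h4

end Pool.Agent.Helper2.RO
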