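import Pool.Agent.Helper2.RO.AlgB

/-! Module AlgC: further facts on the norms `x ↦ ‖exp(S) x‖`, `S ∈ P`. -/

set_option autoImplicit false
set_option linter.unusedSectionVars false

open Set Filter Topology

namespace Pool.Agent.Helper2.RO

variable {V : Type*} [NormedAddCommGroup V] [InnerProductSpace ℝ V] [FiniteDimensional ℝ V]
  {P : Submodule ℝ (V →L[ℝ] V)} (hP : IsCartan P)

/-! ### auxiliary facts -/

theorem algC_exp_neg {x : ℝ} (hx : 0 ≤ x) : 1 - x + x ^ 2 / 2 - x ^ 3 ≤ Real.exp (-x) := by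
  rcases le_total x 1 with h | h
  · have h1 := Real.exp_bound (x := -x) (n := 3) (by rw [abs_neg, abs_of_nonneg hx]; exact h)
      (by norm_num)
    have h2 := (abs_le.1 h1).1
    rw [abs_neg, abs_of_nonneg hx] at h2
    simp only [Finset.sum_range_succ, Finset.sum_range_zero, Nat.factorial] at h2
    norm_num at h2
    have h3 : 0 ≤ x ^ 3 := pow_nonneg hx 3
    nlinarith
  · have h1 : 0 ≤ Real.exp (-x) := (Real.exp_pos _).le
    have h2 : x ^ 2 ≤ x ^ 3 := by nlinarith [sq_nonneg x]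
    nlinarith [sq_nonneg x]

theorem algC_quadratic {x : ℝ} (hx : 0 ≤ x) : 1 + x + x ^ 2 / 2 ≤ Real.exp x :=
  Real.quadratic_le_exp_of_nonneg hx

include hP

theorem algC_inner_bot_self {S : V →L[ℝ] V} (hS : S ∈ P) (x : V) :
    inner ℝ x (bot S x) = ‖bot S x‖ ^ 2 := by
  have h := inner_top_self hP (P.neg_mem hS) x
  rwa [top_neg] at h

theorem algC_norm_sub_top_le {S : V →L[ℝ] V} (hS : S ∈ P) (x : V) : ‖x - top S x‖ ≤ ‖x‖ := by
  have h1 : ‖x - top S x‖ ^ 2 = ‖x‖ ^ 2 - ‖top S x‖ ^ 2 := by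
    rw [norm_sub_sq_real, inner_top_self hP hS]
    ring
  have h2 : ‖x - top S x‖ ^ 2 ≤ ‖x‖ ^ 2 := by
    rw [h1]
    nlinarith [sq_nonneg ‖top S x‖]
  exact (sq_le_sq₀ (norm_nonneg _) (norm_nonneg _)).1 h2

theorem algC_cubic {R : V →L[ℝ] V} (hR : R ∈ P) :
    (ex R - ‖ex R‖ • (1 : V →L[ℝ] V)) *
      ((ex R - 1) * (ex R - Real.exp (-‖R‖) • (1 : V →L[ℝ] V))) = 0 := by
  have hex := ex_eq hP hR
  have hone := top_add_mid_add_bot R
  have hTT := top_mul_top hP hR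
  have hTM := top_mul_mid hP hR
  have hMT := mid_mul_top hP hR
  have hTB := top_mul_bot hP hR
  have hBT := bot_mul_top hP hR
  have hMB := mid_mul_bot hP hR
  have hBM := bot_mul_mid hP hR
  have h1 : (ex R - 1) * (ex R - Real.exp (-‖R‖) • (1 : V →L[ℝ] V)) =
      ((Real.exp ‖R‖ - 1) * (Real.exp ‖R‖ - Real.exp (-‖R‖))) • top R := by
    have e1 : ex R - 1 = (Real.exp ‖R‖ - 1) • top R + (Real.exp (-‖R‖) - 1) • bot R := by
      rw [hex, ← hone]
      module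
    have e2 : ex R - Real.exp (-‖R‖) • (1 : V →L[ℝ] V) =
        (Real.exp ‖R‖ - Real.exp (-‖R‖)) • top R + (1 - Real.exp (-‖R‖)) • mid R := by
      rw [hex, ← hone]
      module
    rw [e1, e2, add_mul, mul_add, mul_add]
    simp only [smul_mul_assoc, mul_smul_comm, hTT, hTM, hBT, hBM, smul_zero, add_zero]
    rw [smul_smul]
    congr 1
    ring
  rw [h1]
  by_cases h0 : top R = 0
  · rw [h0, smul_zero, mul_zero]
  · -- the norm of `ex R` is `exp ‖R‖`
    obtain ⟨z, hz⟩ : ∃ z, top R z ≠ 0 := by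
      by_contra h
      push Not at h
      exact h0 (ContinuousLinearMap.ext fun z => by simpa using h z)
    have hn : ‖ex R‖ = Real.exp ‖R‖ := by
      apply le_antisymm
      · exact ContinuousLinearMap.opNorm_le_bound _ (Real.exp_pos _).le (norm_ex_le hP hR)
      · have h2 := norm_ex_of_top hP hR (top_top hP hR z)
        have h3 := (ex R).le_opNorm (top R z)
        rw [h2] at h3
        exact le_of_mul_le_mul_right h3 (norm_pos_iff.2 hz)
    have e3 : ex R - ‖ex R‖ • (1 : V →L[ℝ] V) =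
        (1 - Real.exp ‖R‖) • mid R + (Real.exp (-‖R‖) - Real.exp ‖R‖) • bot R := by
      rw [hn, hex, ← hone]
      module
    rw [e3, add_mul]
    simp only [smul_mul_assoc, mul_smul_comm, hMT, hBT, smul_zero, add_zero]

/-- Second order lower bound at a fixed vector of a unit `η ∈ P`. -/
theorem second_order : ∃ C : ℝ, 0 < C ∧ ∀ η ∈ P, ‖η‖ = 1 → ∀ S ∈ P, ‖S‖ ≤ 1 → ∀ ν : V, η ν = ν →
    ‖ν‖ = 1 → 1 - 2 * inner ℝ ν (S ν) + ‖S‖ ^ 2 + inner ℝ ν (S ν) ^ 2 - C * ‖S‖ ^ 3 ≤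
      ‖ex (-S) ν‖ ^ 2 := by
  refine ⟨8, by norm_num, ?_⟩
  intro η hη h1 S hS _ ν hν hν1
  have hg := gamma hP hη h1 hS hν hν1
  have hsum := norm_sq_decomp hP hS ν
  have hex := norm_ex_sq hP (P.neg_mem hS) ν
  rw [top_neg, mid_neg, bot_neg, norm_neg] at hex
  have hin : inner ℝ ν (S ν) = ‖S‖ * (‖top S ν‖ ^ 2 - ‖bot S ν‖ ^ 2) := by
    rw [apply_eq S ν, inner_smul_right, inner_sub_right, inner_top_self hP hS,
      algC_inner_bot_self hP hS]
  have hSn : ‖S ν‖ ^ 2 = ‖S‖ ^ 2 * (‖top S ν‖ ^ 2 + ‖bot S ν‖ ^ 2) := by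
    have h0 : inner ℝ (top S ν) (bot S ν) = 0 := by
      rw [top_symm hP hS, ← mul_apply_eq_comp, top_mul_bot hP hS]
      simp
    have h2 : ‖S ν‖ ^ 2 = ‖S‖ ^ 2 * ‖top S ν - bot S ν‖ ^ 2 := by
      conv_lhs => rw [apply_eq S ν]
      rw [norm_smul, norm_norm, mul_pow]
    rw [h2, norm_sub_sq_real, h0]
    ring
  rw [hν1] at hsum
  rw [hex]
  rw [hSn] at hg
  rw [hin] at hg ⊢
  set n := ‖S‖ with hn
  have hn0 : 0 ≤ n := norm_nonneg _
  set p := ‖top S ν‖ ^ 2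
  set g := ‖mid S ν‖ ^ 2
  set m := ‖bot S ν‖ ^ 2
  have hp : 0 ≤ p := sq_nonneg _
  have hg0 : 0 ≤ g := sq_nonneg _
  have hm : 0 ≤ m := sq_nonneg _
  have e1 := algC_quadratic (x := 2 * n) (by positivity)
  have e2 := algC_exp_neg (x := 2 * n) (by positivity)
  have h3 : (1 + 2 * n + (2 * n) ^ 2 / 2) * m ≤ Real.exp (2 * n) * m :=
    mul_le_mul_of_nonneg_right e1 hm
  have h4 : (1 - 2 * n + (2 * n) ^ 2 / 2 - (2 * n) ^ 3) * p ≤ Real.exp (-(2 * n)) * p :=
    mul_le_mul_of_nonneg_right e2 hp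
  have h5 : n ^ 3 * p ≤ n ^ 3 := by
    have : p ≤ 1 := by nlinarith
    nlinarith [pow_nonneg hn0 3]
  nlinarith

/-- (P3) `exp(S)` is a similarity on the fixed space of `η`, and so is the compression of
`exp(2 S)`.  Proof: `exp(tη) exp(2S) exp(tη) = exp(R_t)`, multiply by `exp(-2t)` and let `t → ∞`. -/
theorem conformal {η S : V →L[ℝ] V} (hη : η ∈ P) (h1 : ‖η‖ = 1) (hS : S ∈ P) :
    ∃ f : ℝ, 0 < f ∧ (∀ ℓ, η ℓ = ℓ → ‖ex S ℓ‖ = f * ‖ℓ‖) ∧
      ∀ ℓ, η ℓ = ℓ → top η (ex ((2 : ℝ) • S) ℓ) = (f ^ 2) • ℓ := by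
  have h2S : (2 : ℝ) • S ∈ P := P.smul_mem _ hS
  obtain ⟨R, hR⟩ : ∃ R : ℕ → (V →L[ℝ] V), ∀ n, R n ∈ P ∧
      ex (((n : ℝ) + 1) • η) * ex ((2 : ℝ) • S) * ex (((n : ℝ) + 1) • η) = ex (R n) := by
    choose R hR using fun n : ℕ => hP.tri _ (P.smul_mem ((n : ℝ) + 1) hη) _ h2S
    exact ⟨R, fun n => ⟨(hR n).1, (hR n).2⟩⟩
  set B : V →L[ℝ] V := top η * ex ((2 : ℝ) • S) * top η with hB
  -- the limit
  have hE : Tendsto (fun n : ℕ => Real.exp (-((n : ℝ) + 1))) atTop (𝓝 0) := by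
    apply Real.tendsto_exp_neg_atTop_nhds_zero.comp
    exact tendsto_atTop_add_const_right _ _ tendsto_natCast_atTop_atTop
  have hY : Tendsto (fun n : ℕ => Real.exp (-((n : ℝ) + 1)) • ex (((n : ℝ) + 1) • η)) atTop
      (𝓝 (top η)) := by
    have h3 : ∀ n : ℕ, Real.exp (-((n : ℝ) + 1)) • ex (((n : ℝ) + 1) • η) =
        top η + Real.exp (-((n : ℝ) + 1)) • mid η +
          (Real.exp (-((n : ℝ) + 1)) * Real.exp (-((n : ℝ) + 1))) • bot η := by
      intro n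
      have hpos : (0 : ℝ) < (n : ℝ) + 1 := by positivity
      have hnorm : ‖((n : ℝ) + 1) • η‖ = (n : ℝ) + 1 := by
        rw [norm_smul, h1, mul_one, Real.norm_of_nonneg hpos.le]
      rw [ex_eq hP (P.smul_mem _ hη), hnorm, top_smul hpos, mid_smul hpos, bot_smul hpos,
        smul_add, smul_add, smul_smul, smul_smul, ← Real.exp_add, neg_add_cancel, Real.exp_zero,
        one_smul]
    simp only [h3]
    have h4 : Tendsto (fun n : ℕ => top η + Real.exp (-((n : ℝ) + 1)) • mid η +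
          (Real.exp (-((n : ℝ) + 1)) * Real.exp (-((n : ℝ) + 1))) • bot η) atTop
        (𝓝 (top η + (0 : ℝ) • mid η + ((0 : ℝ) * 0) • bot η)) :=
      (tendsto_const_nhds.add (hE.smul_const _)).add ((hE.mul hE).smul_const _)
    simpa using h4
  set X : ℕ → (V →L[ℝ] V) := fun n =>
    (Real.exp (-((n : ℝ) + 1)) * Real.exp (-((n : ℝ) + 1))) • ex (R n) with hXdef
  have hX : Tendsto X atTop (𝓝 B) := by
    have h3 : ∀ n, X n = (Real.exp (-((n : ℝ) + 1)) • ex (((n : ℝ) + 1) • η)) *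
        ex ((2 : ℝ) • S) * (Real.exp (-((n : ℝ) + 1)) • ex (((n : ℝ) + 1) • η)) := by
      intro n
      rw [hXdef]
      simp only
      rw [← (hR n).2, smul_mul_assoc, mul_smul_comm, smul_mul_assoc, smul_smul]
    rw [funext h3]
    exact (hY.mul tendsto_const_nhds).mul hY
  have hcub : ∀ n, (X n - ‖X n‖ • (1 : V →L[ℝ] V)) *
      ((X n - (Real.exp (-((n : ℝ) + 1)) * Real.exp (-((n : ℝ) + 1))) • (1 : V →L[ℝ] V)) *
        (X n - (Real.exp (-((n : ℝ) + 1)) * Real.exp (-((n : ℝ) + 1)) * Real.exp (-‖R n‖)) •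
          (1 : V →L[ℝ] V))) = 0 := by
    intro n
    set κ := Real.exp (-((n : ℝ) + 1)) * Real.exp (-((n : ℝ) + 1)) with hκ
    have hκ0 : 0 < κ := by positivity
    have e1 : X n - ‖X n‖ • (1 : V →L[ℝ] V) = κ • (ex (R n) - ‖ex (R n)‖ • (1 : V →L[ℝ] V)) := by
      rw [hXdef]
      simp only
      rw [← hκ, norm_smul, Real.norm_of_nonneg hκ0.le, smul_sub, smul_smul]
    have e2 : X n - κ • (1 : V →L[ℝ] V) = κ • (ex (R n) - 1) := by
      rw [hXdef]
      simp only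
      rw [← hκ, smul_sub]
    have e3 : X n - (κ * Real.exp (-‖R n‖)) • (1 : V →L[ℝ] V) =
        κ • (ex (R n) - Real.exp (-‖R n‖) • (1 : V →L[ℝ] V)) := by
      rw [hXdef]
      simp only
      rw [← hκ, smul_sub, smul_smul]
    rw [e1, e2, e3]
    simp only [smul_mul_assoc, mul_smul_comm]
    rw [algC_cubic hP (hR n).1]
    simp
  have hcubB : (B - ‖B‖ • (1 : V →L[ℝ] V)) * (B * B) = 0 := by
    have hl1 : Tendsto (fun n => X n - ‖X n‖ • (1 : V →L[ℝ] V)) atTop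
        (𝓝 (B - ‖B‖ • (1 : V →L[ℝ] V))) := hX.sub (hX.norm.smul_const _)
    have hl2 : Tendsto (fun n : ℕ => X n -
        (Real.exp (-((n : ℝ) + 1)) * Real.exp (-((n : ℝ) + 1))) • (1 : V →L[ℝ] V)) atTop
        (𝓝 (B - ((0 : ℝ) * 0) • (1 : V →L[ℝ] V))) := hX.sub ((hE.mul hE).smul_const _)
    have hE3 : Tendsto (fun n : ℕ => Real.exp (-((n : ℝ) + 1)) * Real.exp (-((n : ℝ) + 1)) *
        Real.exp (-‖R n‖)) atTop (𝓝 0) := by
      have hEE : Tendsto (fun n : ℕ => Real.exp (-((n : ℝ) + 1)) * Real.exp (-((n : ℝ) + 1)))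
          atTop (𝓝 0) := by simpa using hE.mul hE
      refine squeeze_zero (fun n => by positivity) (fun n => ?_) hEE
      have : Real.exp (-‖R n‖) ≤ 1 := Real.exp_le_one_iff.2 (neg_nonpos.2 (norm_nonneg _))
      exact mul_le_of_le_one_right (by positivity) this
    have hl3 : Tendsto (fun n : ℕ => X n - (Real.exp (-((n : ℝ) + 1)) *
        Real.exp (-((n : ℝ) + 1)) * Real.exp (-‖R n‖)) • (1 : V →L[ℝ] V)) atTop
        (𝓝 (B - (0 : ℝ) • (1 : V →L[ℝ] V))) := hX.sub (hE3.smul_const _)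
    have hl := hl1.mul (hl2.mul hl3)
    rw [funext hcub] at hl
    have h5 := tendsto_nhds_unique hl tendsto_const_nhds
    simpa using h5
  have hBapp : ∀ x, B x = top η (ex ((2 : ℝ) • S) (top η x)) := fun x => rfl
  have hBsymm : ∀ x y, inner ℝ (B x) y = inner ℝ x (B y) := by
    intro x y
    rw [hBapp, hBapp, top_symm hP hη, ex_symm hP h2S, top_symm hP hη]
  have hBker : ∀ x, B (B x - ‖B‖ • x) = 0 := by
    intro x
    have h3 : B (B (B x - ‖B‖ • x)) = 0 := by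
      have h4 := congrArg (fun T : V →L[ℝ] V => T x) hcubB
      simp only [mul_apply_eq_comp, sub_apply, smul_apply, one_apply_eq_self, zero_apply] at h4
      rw [map_sub, map_sub, map_smul, map_smul]
      exact h4
    have h5 : inner ℝ (B (B x - ‖B‖ • x)) (B (B x - ‖B‖ • x)) = 0 := by
      rw [hBsymm, h3, inner_zero_right]
    exact inner_self_eq_zero.1 h5
  have hfix : ∀ ℓ, η ℓ = ℓ → top η (ex ((2 : ℝ) • S) ℓ) = ‖B‖ • ℓ := by
    intro ℓ hℓ
    have hF : top η ℓ = ℓ := (fix_iff hP hη h1).1 hℓ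
    have hBℓ : B ℓ = top η (ex ((2 : ℝ) • S) ℓ) := by rw [hBapp, hF]
    set w := B ℓ - ‖B‖ • ℓ with hw
    have hFw : top η w = w := by
      rw [hw, map_sub, map_smul, hF, hBℓ, top_top hP hη]
    have h3 : inner ℝ (ex ((2 : ℝ) • S) w) w = 0 := by
      have h4 : inner ℝ (B w) w = 0 := by rw [hw, hBker ℓ, inner_zero_left]
      rw [hBapp, hFw, top_symm hP hη, hFw] at h4
      exact h4
    rw [← norm_ex_sq_inner hP hS] at h3
    have h5 : ‖ex S w‖ = 0 := by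
      rwa [sq_eq_zero_iff] at h3
    have h6 := le_norm_ex hP hS w
    rw [h5, mul_zero] at h6
    have h7 : w = 0 := norm_le_zero_iff.1 h6
    rw [← hBℓ]
    exact sub_eq_zero.1 h7
  have hnorm : ∀ ℓ, η ℓ = ℓ → ‖ex S ℓ‖ ^ 2 = ‖B‖ * ‖ℓ‖ ^ 2 := by
    intro ℓ hℓ
    have hF : top η ℓ = ℓ := (fix_iff hP hη h1).1 hℓ
    rw [norm_ex_sq_inner hP hS]
    have h3 : inner ℝ (ex ((2 : ℝ) • S) ℓ) ℓ = inner ℝ (top η (ex ((2 : ℝ) • S) ℓ)) ℓ := by
      rw [top_symm hP hη, hF]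
    rw [h3, hfix ℓ hℓ, inner_smul_left, real_inner_self_eq_norm_sq]
    simp
  by_cases hex : ∃ ℓ, ℓ ≠ 0 ∧ η ℓ = ℓ
  · obtain ⟨ℓ0, hℓ0, hℓη⟩ := hex
    have hBpos : 0 < ‖B‖ := by
      rcases (norm_nonneg B).eq_or_lt' with h | h
      · exfalso
        have h3 := hnorm ℓ0 hℓη
        rw [h, zero_mul, sq_eq_zero_iff] at h3
        have h6 := le_norm_ex hP hS ℓ0
        rw [h3, mul_zero] at h6
        exact hℓ0 (norm_le_zero_iff.1 h6)
      · exact h
    refine ⟨Real.sqrt ‖B‖, Real.sqrt_pos.2 hBpos, fun ℓ hℓ => ?_, fun ℓ hℓ => ?_⟩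
    · have h3 := hnorm ℓ hℓ
      have h4 : ‖ex S ℓ‖ ^ 2 = (Real.sqrt ‖B‖ * ‖ℓ‖) ^ 2 := by
        rw [h3, mul_pow, Real.sq_sqrt hBpos.le]
      exact (sq_eq_sq₀ (norm_nonneg _) (by positivity)).1 h4
    · rw [Real.sq_sqrt hBpos.le]
      exact hfix ℓ hℓ
  · push Not at hex
    refine ⟨1, one_pos, fun ℓ hℓ => ?_, fun ℓ hℓ => ?_⟩
    · have : ℓ = 0 := by
        by_contra h
        exact hex ℓ h hℓ
      simp [this]
    · have : ℓ = 0 := by
        by_contra h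
        exact hex ℓ h hℓ
      simp [this]

theorem algC_top_ker {S S' : V →L[ℝ] V} (hS : S ∈ P) (hS' : S' ∈ P) {A : ℝ} (hA : 0 ≤ A)
    (h : ∀ x, ‖ex S' x‖ ≤ A * ‖ex S x‖) {y : V} (hy : top S y = 0) :
    ‖top S' y‖ ≤ A * Real.exp (-‖S'‖) * ‖y‖ := by
  have h1 := norm_top_le_ex hP hS' y
  have h2 := norm_ex_of_ker hP hS hy
  have h3 : Real.exp ‖S'‖ * ‖top S' y‖ ≤ A * ‖y‖ :=
    h1.trans ((h y).trans (mul_le_mul_of_nonneg_left h2 hA))
  have h4 : ‖top S' y‖ = Real.exp (-‖S'‖) * (Real.exp ‖S'‖ * ‖top S' y‖) := by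
    rw [← mul_assoc, ← Real.exp_add, neg_add_cancel, Real.exp_zero, one_mul]
  rw [h4]
  calc Real.exp (-‖S'‖) * (Real.exp ‖S'‖ * ‖top S' y‖) ≤ Real.exp (-‖S'‖) * (A * ‖y‖) :=
        mul_le_mul_of_nonneg_left h3 (Real.exp_pos _).le
    _ = A * Real.exp (-‖S'‖) * ‖y‖ := by ring

/-- (ζ) the top projections of comparable norms are close -/
theorem top_sub_le {S S' : V →L[ℝ] V} (hS : S ∈ P) (hS' : S' ∈ P) {A : ℝ}
    (h : ∀ x, ‖ex S' x‖ ≤ A * ‖ex S x‖) (h' : ∀ x, ‖ex S x‖ ≤ A * ‖ex S' x‖) (x : V) :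
    ‖top S x - top S' x‖ ≤ (A * Real.exp (-‖S‖) + A * Real.exp (-‖S'‖)) * ‖x‖ := by
  by_cases hx : x = 0
  · simp [hx]
  have hA : 0 ≤ A := by
    have h1 : 0 < ‖ex S x‖ := by
      rcases (norm_nonneg (ex S x)).eq_or_lt' with h2 | h2
      · exfalso
        have h6 := le_norm_ex hP hS x
        rw [h2, mul_zero] at h6
        exact hx (norm_le_zero_iff.1 h6)
      · exact h2
    by_contra hneg
    have h2 := h x
    have h3 : A * ‖ex S x‖ < 0 := mul_neg_of_neg_of_pos (not_le.1 hneg) h1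
    linarith [norm_nonneg (ex S' x)]
  -- the first term
  have h1 : ‖top S (x - top S' x)‖ ≤ A * Real.exp (-‖S‖) * ‖x‖ := by
    have h2 : top S' (x - top S' x) = 0 := by
      rw [map_sub, top_top hP hS', sub_self]
    have h3 := algC_top_ker hP hS' hS hA h' h2
    refine h3.trans (mul_le_mul_of_nonneg_left (algC_norm_sub_top_le hP hS' x) ?_)
    exact mul_nonneg hA (Real.exp_pos _).le
  -- the second term
  set z := top S' x - top S (top S' x) with hz
  have h2 : ‖z‖ ≤ A * Real.exp (-‖S'‖) * ‖x‖ := by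
    have hzk : top S z = 0 := by rw [hz, map_sub, top_top hP hS, sub_self]
    have h3 := algC_top_ker hP hS hS' hA h hzk
    have h4 : ‖z‖ ^ 2 = inner ℝ x (top S' z) := by
      rw [← top_symm hP hS', ← real_inner_self_eq_norm_sq]
      have h5 : inner ℝ (top S (top S' x)) z = 0 := by
        rw [top_symm hP hS, hzk, inner_zero_right]
      conv_lhs => rw [hz]
      rw [inner_sub_left, ← hz, h5, sub_zero]
    have h5 : ‖z‖ ^ 2 ≤ ‖x‖ * (A * Real.exp (-‖S'‖) * ‖z‖) := by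
      rw [h4]
      exact (real_inner_le_norm _ _).trans (mul_le_mul_of_nonneg_left h3 (norm_nonneg _))
    rcases (norm_nonneg z).eq_or_lt' with h6 | h6
    · rw [h6]
      positivity
    · have h7 : ‖z‖ * ‖z‖ ≤ (A * Real.exp (-‖S'‖) * ‖x‖) * ‖z‖ := by nlinarith
      exact le_of_mul_le_mul_right h7 h6
  have h3 : top S x - top S' x = top S (x - top S' x) - z := by
    rw [hz, map_sub]
    abel
  rw [h3, add_mul]
  exact (norm_sub_le _ _).trans (add_le_add h1 h2)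

theorem exp_norm_le {S S' : V →L[ℝ] V} (hS : S ∈ P) (hS' : S' ∈ P) {A : ℝ} (hA : 1 ≤ A)
    (h : ∀ x, ‖ex S' x‖ ≤ A * ‖ex S x‖) (h' : ∀ x, ‖ex S x‖ ≤ A * ‖ex S' x‖) :
    Real.exp ‖S‖ ≤ A * Real.exp ‖S'‖ := by
  have hA0 : 0 ≤ A := zero_le_one.trans hA
  by_cases hS0 : S = 0
  · rw [hS0, norm_zero, Real.exp_zero]
    have : 1 ≤ Real.exp ‖S'‖ := Real.one_le_exp (norm_nonneg _)
    nlinarith
  by_cases htop : top S = 0
  · -- then `bot S ≠ 0`
    have hbot : bot S ≠ 0 := by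
      intro hb
      apply hS0
      rw [← smul_top_sub_bot S, htop, hb]
      simp
    obtain ⟨z, hz⟩ : ∃ z, bot S z ≠ 0 := by
      by_contra hc
      push Not at hc
      exact hbot (ContinuousLinearMap.ext fun z => by simpa using hc z)
    have hnS := P.neg_mem hS
    have hnS' := P.neg_mem hS'
    have hfix : top (-S) (bot S z) = bot S z := by
      rw [← top_neg]
      exact top_top hP hnS z
    have h1 := norm_ex_of_top hP hnS hfix
    rw [norm_neg] at h1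
    have h2 : ∀ y, ‖ex (-S) (ex S' y)‖ ≤ A * ‖y‖ := by
      intro y
      set u := ex (-S) (ex S' y) with hu
      have h3 : ‖u‖ ^ 2 = inner ℝ y (ex S' (ex (-S) u)) := by
        rw [← real_inner_self_eq_norm_sq]
        conv_lhs => rw [hu]
        rw [ex_symm hP hnS, ex_symm hP hS']
      have h4 : ‖ex S' (ex (-S) u)‖ ≤ A * ‖u‖ := by
        have := h (ex (-S) u)
        rwa [ex_ex_neg] at this
      have h5 : ‖u‖ ^ 2 ≤ ‖y‖ * (A * ‖u‖) := by
        rw [h3]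
        exact (real_inner_le_norm _ _).trans (mul_le_mul_of_nonneg_left h4 (norm_nonneg _))
      rcases (norm_nonneg u).eq_or_lt' with h6 | h6
      · rw [h6]
        positivity
      · have h7 : ‖u‖ * ‖u‖ ≤ (A * ‖y‖) * ‖u‖ := by nlinarith
        exact le_of_mul_le_mul_right h7 h6
    have h3 := h2 (ex (-S') (bot S z))
    rw [ex_ex_neg, h1] at h3
    have h4 := norm_ex_le hP hnS' (bot S z)
    rw [norm_neg] at h4
    have h5 : Real.exp ‖S‖ * ‖bot S z‖ ≤ (A * Real.exp ‖S'‖) * ‖bot S z‖ := by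
      refine h3.trans ?_
      rw [mul_assoc]
      exact mul_le_mul_of_nonneg_left h4 hA0
    exact le_of_mul_le_mul_right h5 (norm_pos_iff.2 hz)
  · obtain ⟨z, hz⟩ : ∃ z, top S z ≠ 0 := by
      by_contra hc
      push Not at hc
      exact htop (ContinuousLinearMap.ext fun z => by simpa using hc z)
    have h1 := norm_ex_of_top hP hS (top_top hP hS z)
    have h2 := h' (top S z)
    rw [h1] at h2
    have h3 := norm_ex_le hP hS' (top S z)
    have h5 : Real.exp ‖S‖ * ‖top S z‖ ≤ (A * Real.exp ‖S'‖) * ‖top S z‖ := by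
      refine h2.trans ?_
      rw [mul_assoc]
      exact mul_le_mul_of_nonneg_left h3 hA0
    exact le_of_mul_le_mul_right h5 (norm_pos_iff.2 hz)

/-- pointwise form of the convexity of the support functions along a ray -/
theorem two_point {η ζ : V →L[ℝ] V} (hη : η ∈ P) (h1 : ‖η‖ = 1) (hζ : ζ ∈ P) (h1' : ‖ζ‖ = 1)
    {ℓ : V} (hℓ : η ℓ = ℓ) (t δ : ℝ) :
    2 * Real.cosh δ * ‖ex (-(t • ζ)) ℓ‖ ≤ ‖ex (-((t + δ) • ζ)) ℓ‖ + ‖ex (-((t - δ) • ζ)) ℓ‖ := by
  have hms := mid_sq_le hP hη h1 hζ h1' hℓ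
  have e0 := norm_ex_smul_sq hP hζ h1' (-t) ℓ
  have e1 := norm_ex_smul_sq hP hζ h1' (-(t + δ)) ℓ
  have e2 := norm_ex_smul_sq hP hζ h1' (-(t - δ)) ℓ
  rw [← neg_smul, ← neg_smul, ← neg_smul]
  set x := ‖ex (-(t + δ) • ζ) ℓ‖ with hx
  set y := ‖ex (-(t - δ) • ζ) ℓ‖ with hy
  set z := ‖ex (-t • ζ) ℓ‖ with hz
  set p := ‖top ζ ℓ‖ ^ 2
  set g := ‖mid ζ ℓ‖ ^ 2
  set m := ‖bot ζ ℓ‖ ^ 2
  have hx0 : 0 ≤ x := norm_nonneg _
  have hy0 : 0 ≤ y := norm_nonneg _
  have hz0 : 0 ≤ z := norm_nonneg _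
  have hp : 0 ≤ p := sq_nonneg _
  have hg : 0 ≤ g := sq_nonneg _
  have hm : 0 ≤ m := sq_nonneg _
  -- exponentials
  set E := Real.exp (2 * t) with hE
  set E' := Real.exp (-(2 * t)) with hE'
  set D := Real.exp (2 * δ) with hD
  set D' := Real.exp (-(2 * δ)) with hD'
  have hEE : E * E' = 1 := by rw [hE, hE', ← Real.exp_add, add_neg_cancel, Real.exp_zero]
  have hDD : D * D' = 1 := by rw [hD, hD', ← Real.exp_add, add_neg_cancel, Real.exp_zero]
  have hE0 : 0 < E := Real.exp_pos _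
  have hE0' : 0 < E' := Real.exp_pos _
  have hD0 : 0 < D := Real.exp_pos _
  have hD0' : 0 < D' := Real.exp_pos _
  have f0 : z ^ 2 = E' * p + g + E * m := by
    rw [e0, hE, hE']
    congr 2
    · congr 2
      ring_nf
    · congr 2
      ring
  have f1 : x ^ 2 = E' * p * D' + g + E * m * D := by
    rw [e1, hE, hE', hD, hD']
    have a1 : Real.exp (2 * -(t + δ)) = Real.exp (-(2 * t)) * Real.exp (-(2 * δ)) := by
      rw [← Real.exp_add]; congr 1; ring
    have a2 : Real.exp (-(2 * -(t + δ))) = Real.exp (2 * t) * Real.exp (2 * δ) := by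
      rw [← Real.exp_add]; congr 1; ring
    rw [a1, a2]
    ring
  have f2 : y ^ 2 = E' * p * D + g + E * m * D' := by
    rw [e2, hE, hE', hD, hD']
    have a1 : Real.exp (2 * -(t - δ)) = Real.exp (-(2 * t)) * Real.exp (2 * δ) := by
      rw [← Real.exp_add]; congr 1; ring
    have a2 : Real.exp (-(2 * -(t - δ))) = Real.exp (2 * t) * Real.exp (-(2 * δ)) := by
      rw [← Real.exp_add]; congr 1; ring
    rw [a1, a2]
    ring
  have hcosh : (2 * Real.cosh δ) ^ 2 = D + D' + 2 := by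
    rw [Real.cosh_eq, hD, hD']
    have a1 : Real.exp (2 * δ) = Real.exp δ * Real.exp δ := by rw [← Real.exp_add]; congr 1; ring
    have a2 : Real.exp (-(2 * δ)) = Real.exp (-δ) * Real.exp (-δ) := by
      rw [← Real.exp_add]; congr 1; ring
    have a3 : Real.exp δ * Real.exp (-δ) = 1 := by
      rw [← Real.exp_add, add_neg_cancel, Real.exp_zero]
    rw [a1, a2]
    linear_combination 2 * a3
  set a := E' * p with ha
  set c := E * m with hc
  have ha0 : 0 ≤ a := by positivity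
  have hc0 : 0 ≤ c := by positivity
  have hac : g ^ 2 ≤ 4 * a * c := by
    have : 4 * a * c = 4 * p * m := by
      rw [ha, hc]
      linear_combination 4 * p * m * hEE
    rw [this]
    exact hms
  -- `C = (D + D') / 2 ≥ 1`
  have hC1 : 2 ≤ D + D' := by nlinarith [sq_nonneg (D - 1), sq_nonneg (D' - 1), sq_nonneg (D - D')]
  have hprod : ((a + c) + (D + D') / 2 * g) ^ 2 ≤ (x * y) ^ 2 := by
    have h3 : (x * y) ^ 2 - ((a + c) + (D + D') / 2 * g) ^ 2 =
        (((D + D') / 2) ^ 2 - 1) * (4 * a * c - g ^ 2) := by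
      rw [mul_pow, f1, f2]
      linear_combination (a ^ 2 + c ^ 2 - 2 * a * c) * hDD
    have h4 : 0 ≤ (((D + D') / 2) ^ 2 - 1) * (4 * a * c - g ^ 2) := by
      apply mul_nonneg
      · have hC : 1 ≤ (D + D') / 2 := by linarith
        exact sub_nonneg.2 (one_le_pow₀ hC)
      · linarith
    linarith
  have hxy : (a + c) + (D + D') / 2 * g ≤ x * y := by
    have h5 : 0 ≤ x * y := by positivity
    have h6 : 0 ≤ (a + c) + (D + D') / 2 * g := by positivity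
    exact (sq_le_sq₀ h6 h5).1 hprod
  have hfin : (2 * Real.cosh δ * z) ^ 2 ≤ (x + y) ^ 2 := by
    rw [mul_pow, hcosh, f0]
    have : (x + y) ^ 2 = x ^ 2 + y ^ 2 + 2 * (x * y) := by ring
    rw [this, f1, f2]
    linarith
  exact (sq_le_sq₀ (by have := Real.cosh_pos δ; positivity) (by positivity)).1 hfin

end Pool.Agent.Helper2.RO
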