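import Pool.Agent.Helper2.RO.CaseE

/-! Module Base: change of the base point of `P`, and the end of Case E. -/

set_option autoImplicit false
set_option linter.unusedSectionVars false

open Set Filter Topology

namespace Pool.Agent.Helper2.RO

open Pool.Agent.Helper2.MK Pool.Agent.Helper50.HL

variable {V G Y : Type*} [NormedAddCommGroup V] [InnerProductSpace ℝ V] [FiniteDimensional ℝ V]
    [Group G] [TopologicalSpace Y] [T2Space Y] [MulAction G Y]

/-- the composition of two norms is again one of the norms -/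
theorem base_norm {P : Submodule ℝ (V →L[ℝ] V)} (hP : IsCartan P) {S S0 : V →L[ℝ] V} (hS : S ∈ P)
    (hS0 : S0 ∈ P) : ∃ R ∈ P, ∀ z, ‖ex S (ex S0 z)‖ = ‖ex R z‖ := by
  obtain ⟨R, hR, h⟩ := hP.tri S0 hS0 ((2 : ℝ) • S) (P.smul_mem _ hS)
  refine ⟨(1 / 2 : ℝ) • R, P.smul_mem _ hR, fun z => ?_⟩
  have h1 : ‖ex S (ex S0 z)‖ ^ 2 = ‖ex ((1 / 2 : ℝ) • R) z‖ ^ 2 := by
    rw [norm_ex_sq_inner hP hS, norm_ex_sq_inner hP (P.smul_mem _ hR), smul_smul,
      show (2 : ℝ) * (1 / 2) = 1 by norm_num, one_smul, ← h, mul_apply_eq_comp,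
      mul_apply_eq_comp, ex_symm hP hS0]
  exact (sq_eq_sq₀ (norm_nonneg _) (norm_nonneg _)).1 h1

/-- `exp(S)` as a linear equivalence -/
noncomputable def baseLE (S : V →L[ℝ] V) : V ≃ₗ[ℝ] V :=
  { (ex S : V →ₗ[ℝ] V) with
    invFun := ex (-S)
    left_inv := fun x => ex_neg_ex S x
    right_inv := fun x => ex_ex_neg S x }

theorem baseLE_apply (S : V →L[ℝ] V) (x : V) : baseLE S x = ex S x := rfl

theorem baseLE_symm_apply (S : V →L[ℝ] V) (x : V) : (baseLE S).symm x = ex (-S) x := rfl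

theorem base_homeo (S : V →L[ℝ] V) : ∃ e : V ≃ₜ V, (∀ x, e x = ex S x) ∧ ∀ x, e.symm x = ex (-S) x :=
  ⟨{ toFun := ex S, invFun := ex (-S), left_inv := fun x => ex_neg_ex S x,
     right_inv := fun x => ex_ex_neg S x, continuous_toFun := (ex S).continuous,
     continuous_invFun := (ex (-S)).continuous }, fun _ => rfl, fun _ => rfl⟩

/-- the new holonomy -/
noncomputable def baseHol (S : V →L[ℝ] V) (A : V ≃ᵃ[ℝ] V) : V ≃ᵃ[ℝ] V :=
  ((baseLE S).symm.toAffineEquiv.trans A).trans (baseLE S).toAffineEquiv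

theorem baseHol_apply (S : V →L[ℝ] V) (A : V ≃ᵃ[ℝ] V) (x : V) :
    baseHol S A x = ex S (A (ex (-S) x)) := rfl

theorem baseHol_linear (S : V →L[ℝ] V) (A : V ≃ᵃ[ℝ] V) (x : V) :
    (baseHol S A).linear x = ex S (A.linear (ex (-S) x)) := rfl

theorem base_dom_sub {dev dev' : Y → V} {S : V →L[ℝ] V} (h : ∀ y, dev' y = ex S (dev y)) (y : Y)
    {x : V} (hx : x ∈ dom dev y) : ex S x ∈ dom dev' y := by
  obtain ⟨C, hC, hconv, hy, hxC, s, hs, hsy⟩ := hx
  refine ⟨ex (-S) ⁻¹' C, hC.preimage (ex (-S)).continuous,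
    hconv.linear_preimage ((ex (-S) : V →L[ℝ] V) : V →ₗ[ℝ] V), ?_, ?_,
    fun v => s (ex (-S) v), ⟨?_, ?_⟩, ?_⟩
  · show ex (-S) (dev' y) ∈ C
    rw [h, ex_neg_ex]; exact hy
  · show ex (-S) (ex S x) ∈ C
    rw [ex_neg_ex]; exact hxC
  · exact hs.1.comp (ex (-S)).continuous.continuousOn fun v hv => hv
  · intro v hv
    rw [h, hs.2 _ hv, ex_ex_neg]
  · simp only
    rw [h, ex_neg_ex, hsy]

theorem base_dom {dev dev' : Y → V} {S : V →L[ℝ] V} (h : ∀ y, dev' y = ex S (dev y)) (y : Y)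
    (x : V) : ex S x ∈ dom dev' y ↔ x ∈ dom dev y := by
  refine ⟨fun hx => ?_, base_dom_sub h y⟩
  have h' : ∀ y, dev y = ex (-S) (dev' y) := fun y => by rw [h, ex_neg_ex]
  have := base_dom_sub h' y hx
  rwa [ex_neg_ex] at this

theorem base_rad {dev dev' : Y → V} {S0 T R : V →L[ℝ] V} (h : ∀ y, dev' y = ex S0 (dev y)) (y : Y)
    (hT : ∀ x, ‖T (ex S0 x)‖ = ‖R x‖) : rad dev' y T = rad dev y R := by
  unfold rad
  congr 1
  ext r
  constructor
  · rintro ⟨b, hb, rfl⟩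
    refine ⟨ex (-S0) b, ?_, ?_⟩
    · intro h'
      apply hb
      rw [← base_dom h y, ex_ex_neg] at h'
      exact h'
    · simp only
      rw [← hT, map_sub, ex_ex_neg, h]
  · rintro ⟨b, hb, rfl⟩
    refine ⟨ex S0 b, ?_, ?_⟩
    · intro h'
      exact hb ((base_dom h y b).1 h')
    · simp only
      rw [← hT, map_sub (ex S0), h]

/-- Replace `dev` by `exp(S0) ∘ dev`. -/
theorem exists_base_change (D : ROData V G Y) {S0 : V →L[ℝ] V} (hS0 : S0 ∈ D.P) :
    ∃ D' : ROData V G Y, (∀ y, dom D.dev y = univ ↔ dom D'.dev y = univ) ∧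
      (∀ S ∈ D'.P, ∃ R ∈ D.P, ∀ y, FR D'.dev y S = FR D.dev y R) ∧
      (∀ R ∈ D.P, ∃ S ∈ D'.P, ∀ y, FR D'.dev y S = FR D.dev y R) ∧
      ∀ y, FR D'.dev y 0 = FR D.dev y S0 := by
  have hP := D.cartan
  obtain ⟨e, he, he'⟩ := base_homeo S0
  let D' : ROData V G Y :=
    { dev := fun y => ex S0 (D.dev y)
      hol := fun g => baseHol S0 (D.hol g)
      dev_local := by
        have h1 := e.isLocalHomeomorph.comp D.dev_local
        have h2 : ⇑e ∘ D.dev = fun y => ex S0 (D.dev y) := funext fun y => he _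
        rwa [h2] at h1
      hol_mul := by
        intro g g' x
        rw [baseHol_apply, baseHol_apply, baseHol_apply, ex_neg_ex, D.hol_mul]
      dev_smul := by
        intro g y
        rw [baseHol_apply, ex_neg_ex, D.dev_smul]
      volume_hol := by
        intro g
        have h1 := D.volume_hol g
        unfold PreservesVolume at h1 ⊢
        rw [← h1]
        congr 1
        exact LinearMap.det_conj ((D.hol g).linear : V →ₗ[ℝ] V) (baseLE S0)
      covering := D.covering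
      P := D.P
      cartan := hP
      pres := by
        intro g S hS
        obtain ⟨R, hR, h1⟩ := base_norm hP hS hS0
        obtain ⟨R', hR', h2⟩ := D.pres g R hR
        obtain ⟨S', hS', h3⟩ := base_norm hP hR' (D.P.neg_mem hS0)
        refine ⟨S', hS', fun x => ?_⟩
        rw [baseHol_linear, ← h3, ex_neg_ex, h2, ← h1, ex_ex_neg] }
  have hdev : ∀ y, D'.dev y = ex S0 (D.dev y) := fun y => rfl
  have hFR : ∀ S R : V →L[ℝ] V, (∀ z, ‖ex S (ex S0 z)‖ = ‖ex R z‖) →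
      ∀ y, FR D'.dev y S = FR D.dev y R := by
    intro S R h y
    unfold FR
    rw [base_rad hdev y h]
  refine ⟨D', ?_, ?_, ?_, ?_⟩
  · intro y
    constructor
    · intro h
      rw [eq_univ_iff_forall]
      intro x
      rw [← ex_ex_neg S0 x, base_dom hdev y, h]
      trivial
    · intro h
      rw [eq_univ_iff_forall]
      intro x
      rw [← base_dom hdev y, h]
      trivial
  · intro S hS
    obtain ⟨R, hR, h1⟩ := base_norm hP hS hS0
    exact ⟨R, hR, hFR S R h1⟩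
  · intro R hR
    obtain ⟨S, hS, h1⟩ := base_norm hP hR (D.P.neg_mem hS0)
    refine ⟨S, hS, hFR S R fun z => ?_⟩
    rw [← h1, ex_neg_ex]
  · apply hFR
    intro z
    rw [ex_zero, one_apply_eq_self]

/-- the infimum of `FR` over `P` -/
noncomputable def baseM (D : ROData V G Y) (y : Y) : ℝ := ⨅ S : D.P, FR D.dev y (S : V →L[ℝ] V)

theorem baseM_bdd {D : ROData V G Y} (hinc : ∀ y, dom D.dev y ≠ univ) (y : Y) :
    BddBelow (range fun S : D.P => FR D.dev y (S : V →L[ℝ] V)) := by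
  refine ⟨0, ?_⟩
  rintro _ ⟨S, rfl⟩
  exact (FR_pos hinc y S.2).le

theorem baseM_le {D : ROData V G Y} (hinc : ∀ y, dom D.dev y ≠ univ) (y : Y) {S : V →L[ℝ] V}
    (hS : S ∈ D.P) : baseM D y ≤ FR D.dev y S :=
  ciInf_le (baseM_bdd hinc y) (⟨S, hS⟩ : D.P)

theorem base_exists_lt {D : ROData V G Y} {y : Y} {c : ℝ} (h : baseM D y < c) :
    ∃ S ∈ D.P, FR D.dev y S < c := by
  obtain ⟨S, hS⟩ := exists_lt_of_ciInf_lt h
  exact ⟨S, S.2, hS⟩

theorem baseM_smul_le {D : ROData V G Y} (hinc : ∀ y, dom D.dev y ≠ univ) (g : G) (y : Y) :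
    baseM D (g • y) ≤ baseM D y := by
  refine le_ciInf fun S => ?_
  obtain ⟨S', hS', h⟩ := D.pres g S S.2
  rw [← FR_equiv hinc h]
  exact baseM_le hinc _ hS'

theorem baseM_smul {D : ROData V G Y} (hinc : ∀ y, dom D.dev y ≠ univ) (g : G) (y : Y) :
    baseM D (g • y) = baseM D y := by
  refine le_antisymm (baseM_smul_le hinc g y) ?_
  have h := baseM_smul_le hinc g⁻¹ (g • y)
  rwa [inv_smul_smul] at h

theorem baseM_usc {D : ROData V G Y} (hinc : ∀ y, dom D.dev y ≠ univ) :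
    UpperSemicontinuous (baseM D) := by
  intro y c hc
  obtain ⟨S, hS, hlt⟩ := base_exists_lt hc
  have h1 : ContinuousAt (fun y' => FR D.dev y' S) y :=
    ContinuousAt.comp (x := y) (f := fun y' : Y => (y', S))
      (g := fun p : Y × (V →L[ℝ] V) => FR D.dev p.1 p.2) (FR_continuousAt hinc y hS) (by fun_prop)
  filter_upwards [h1.eventually_lt_const hlt] with y' hy'
  exact (baseM_le hinc y' hS).trans_lt hy'

/-- E1: the max-min exists. -/
theorem exists_maxmin [Nonempty Y] {D : ROData V G Y} (hinc : ∀ y, dom D.dev y ≠ univ)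
    (h : ∃ y, ∃ ε > 0, ∀ S ∈ D.P, ε ≤ FR D.dev y S) :
    ∃ y0, ∃ S0 ∈ D.P, (∀ S ∈ D.P, FR D.dev y0 S0 ≤ FR D.dev y0 S) ∧
      ∀ y, ∀ δ > 0, ∃ S ∈ D.P, FR D.dev y S < FR D.dev y0 S0 + δ := by
  obtain ⟨K, hK, hcov⟩ := D.covering.cocompact
  have hKne : K.Nonempty := by
    obtain ⟨y⟩ := ‹Nonempty Y›
    obtain ⟨g, hg⟩ := hcov y
    exact ⟨_, hg⟩
  obtain ⟨y0, hy0, hmax⟩ := ((baseM_usc hinc).upperSemicontinuousOn K).exists_isMaxOn hKne hK
  have hmax' : ∀ y, baseM D y ≤ baseM D y0 := by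
    intro y
    obtain ⟨g, hg⟩ := hcov y
    rw [← baseM_smul hinc g y]
    exact hmax hg
  obtain ⟨y1, ε, hε, h1⟩ := h
  have hpos : 0 < baseM D y0 := by
    refine lt_of_lt_of_le hε (le_trans ?_ (hmax' y1))
    exact le_ciInf fun S => h1 S S.2
  -- the sublevel set is bounded
  have hbdd : ∃ N : ℝ, ∀ S ∈ D.P, N ≤ ‖S‖ → baseM D y0 + 1 < FR D.dev y0 S := by
    by_contra hcon
    push Not at hcon
    obtain ⟨ζ, hζ, hζ1, hray⟩ := exists_ray hinc y0 hcon
    have hlim : Tendsto (fun t : ℝ => Real.exp (-t) * FR D.dev y0 0) atTop (𝓝 (0 * FR D.dev y0 0)) :=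
      (Real.tendsto_exp_neg_atTop_nhds_zero).mul_const _
    rw [zero_mul] at hlim
    obtain ⟨t, ht, ht0⟩ := ((hlim.eventually_lt_const hpos).and (eventually_ge_atTop 0)).exists
    have := hray t ht0
    have h2 := baseM_le hinc y0 (D.P.smul_mem t hζ)
    linarith
  obtain ⟨N, hN⟩ := hbdd
  have : FiniteDimensional ℝ (V →L[ℝ] V) := inferInstance
  have : ProperSpace (V →L[ℝ] V) := FiniteDimensional.proper ℝ _
  have hcpt : IsCompact ((D.P : Set (V →L[ℝ] V)) ∩ Metric.closedBall 0 N) :=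
    (isCompact_closedBall _ _).inter_left D.P.closed_of_finiteDimensional
  obtain ⟨S1, hS1, hlt1⟩ := base_exists_lt (lt_add_one (baseM D y0))
  have hS1m : S1 ∈ (D.P : Set (V →L[ℝ] V)) ∩ Metric.closedBall 0 N := by
    refine ⟨hS1, ?_⟩
    rw [mem_closedBall_zero_iff]
    by_contra hcon
    push Not at hcon
    exact absurd (hN S1 hS1 hcon.le) (not_lt.2 hlt1.le)
  have hcont : ContinuousOn (fun S : V →L[ℝ] V => FR D.dev y0 S)
      ((D.P : Set (V →L[ℝ] V)) ∩ Metric.closedBall 0 N) := by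
    intro S hS
    apply ContinuousAt.continuousWithinAt
    exact ContinuousAt.comp (x := S) (f := fun S : V →L[ℝ] V => (y0, S))
      (g := fun p : Y × (V →L[ℝ] V) => FR D.dev p.1 p.2) (FR_continuousAt hinc y0 hS.1)
      (by fun_prop)
  obtain ⟨S0, hS0, hmin⟩ := hcpt.exists_isMinOn ⟨S1, hS1m⟩ hcont
  have hmin' : ∀ S ∈ D.P, FR D.dev y0 S0 ≤ FR D.dev y0 S := by
    intro S hS
    by_cases hSN : ‖S‖ ≤ N
    · exact hmin ⟨hS, mem_closedBall_zero_iff.2 hSN⟩
    · push Not at hSN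
      have h2 := hN S hS hSN.le
      have h3 : FR D.dev y0 S0 ≤ FR D.dev y0 S1 := hmin hS1m
      linarith
  refine ⟨y0, S0, hS0.1, hmin', fun y δ hδ => ?_⟩
  apply base_exists_lt
  have h4 : baseM D y0 ≤ FR D.dev y0 S0 := baseM_le hinc y0 hS0.1
  linarith [hmax' y]

theorem caseE {D : ROData V G Y} (hinc : ∀ y, dom D.dev y ≠ univ)
    (h : ∃ y, ∃ ε > 0, ∀ S ∈ D.P, ε ≤ FR D.dev y S) : False := by
  obtain ⟨y1, -⟩ := id h
  haveI : Nonempty Y := ⟨y1⟩
  obtain ⟨y0, S0, hS0, hmin, hmax⟩ := exists_maxmin hinc h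
  obtain ⟨D', hdom, hf, hb, h0⟩ := exists_base_change D hS0
  refine caseE_core (D := D') (fun y hy => hinc y ((hdom y).2 hy)) (y0 := y0) ?_ ?_
  · intro S hS
    obtain ⟨R, hR, hRy⟩ := hf S hS
    rw [h0, hRy]
    exact hmin R hR
  · intro y δ hδ
    obtain ⟨R, hR, hlt⟩ := hmax y δ hδ
    obtain ⟨S, hS, hSy⟩ := hb R hR
    exact ⟨S, hS, by rw [hSy, h0]; exact hlt⟩

end Pool.Agent.Helper2.RO
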