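import Pool.Agent.Helper2.RO.Conv

/-! Module CaseE1: the barycentre of the contact directions and the star inequality. -/

set_option autoImplicit false
set_option linter.unusedSectionVars false

open Set Filter Topology

namespace Pool.Agent.Helper2.RO

open Pool.Agent.Helper2.MK Pool.Agent.Helper50.HL

/-- Compactness of the convex hull of a compact set in finite dimension (from Helper71, Helper50). -/
theorem ce1_isCompact_convexHull {E : Type*} [NormedAddCommGroup E] [NormedSpace ℝ E]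
    [FiniteDimensional ℝ E] {s : Set E} (hs : IsCompact s) : IsCompact (convexHull ℝ s) := by
  classical
  rcases s.eq_empty_or_nonempty with rfl | ⟨s0, hs0⟩
  · simp
  set d := Module.finrank ℝ E + 1 with hd
  let F : (Fin d → ℝ) × (Fin d → E) → E := fun p => ∑ i, p.1 i • p.2 i
  have hF : Continuous F := by
    refine continuous_finsetSum _ (fun i _ => ?_)
    exact ((continuous_apply i).comp continuous_fst).smul ((continuous_apply i).comp continuous_snd)
  have hK : IsCompact ((stdSimplex ℝ (Fin d)) ×ˢ (Set.univ.pi (fun _ : Fin d => s))) :=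
    (isCompact_stdSimplex ℝ (Fin d)).prod (isCompact_univ_pi (fun _ => hs))
  have himg : convexHull ℝ s = F '' ((stdSimplex ℝ (Fin d)) ×ˢ (Set.univ.pi (fun _ : Fin d => s))) := by
    apply Set.Subset.antisymm
    · intro x hx
      obtain ⟨ι, hι, z, w, hz, hai, hw, hw1, hx⟩ := eq_pos_convex_span_of_mem_convexHull hx
      have hcard : Fintype.card ι ≤ d := by
        have := hai.card_le_finrank_succ
        refine this.trans ?_
        have h2 : Module.finrank ℝ (vectorSpan ℝ (Set.range z)) ≤ Module.finrank ℝ E :=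
          Submodule.finrank_le _
        omega
      obtain ⟨e⟩ : Nonempty (ι ↪ Fin d) := by
        apply Function.Embedding.nonempty_of_card_le
        simpa using hcard
      let w' : Fin d → ℝ := fun j => if h : ∃ i, e i = j then w h.choose else 0
      let z' : Fin d → E := fun j => if h : ∃ i, e i = j then z h.choose else s0
      have hw'e : ∀ i, w' (e i) = w i := by
        intro i
        have h : ∃ i', e i' = e i := ⟨i, rfl⟩
        have hc : h.choose = i := e.injective h.choose_spec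
        simp only [w', dif_pos h, hc]
      have hz'e : ∀ i, z' (e i) = z i := by
        intro i
        have h : ∃ i', e i' = e i := ⟨i, rfl⟩
        have hc : h.choose = i := e.injective h.choose_spec
        simp only [z', dif_pos h, hc]
      have hw'0 : ∀ j, (¬ ∃ i, e i = j) → w' j = 0 := by
        intro j hj
        simp only [w', dif_neg hj]
      refine ⟨(w', z'), ⟨⟨?_, ?_⟩, ?_⟩, ?_⟩
      · intro j
        by_cases h : ∃ i, e i = j
        · obtain ⟨i, rfl⟩ := h
          show 0 ≤ w' (e i)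
          rw [hw'e]; exact (hw i).le
        · show 0 ≤ w' j
          rw [hw'0 j h]
      · have : ∑ j, w' j = ∑ i, w' (e i) := by
          symm
          rw [← Finset.sum_map Finset.univ e w']
          apply Finset.sum_subset (Finset.subset_univ _)
          intro j _ hj
          apply hw'0
          rintro ⟨i, hi⟩
          apply hj
          simp only [Finset.mem_map, Finset.mem_univ, true_and]
          exact ⟨i, hi⟩
        show ∑ j, w' j = 1
        rw [this]
        simpa [hw'e] using hw1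
      · intro j _
        by_cases h : ∃ i, e i = j
        · obtain ⟨i, rfl⟩ := h
          show z' (e i) ∈ s
          rw [hz'e]; exact hz ⟨i, rfl⟩
        · show z' j ∈ s
          simp only [z', dif_neg h]; exact hs0
      · show ∑ j, w' j • z' j = x
        have : ∑ j, w' j • z' j = ∑ i, w' (e i) • z' (e i) := by
          symm
          rw [← Finset.sum_map Finset.univ e (fun j => w' j • z' j)]
          apply Finset.sum_subset (Finset.subset_univ _)
          intro j _ hj
          have : w' j = 0 := by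
            apply hw'0
            rintro ⟨i, hi⟩
            apply hj
            simp only [Finset.mem_map, Finset.mem_univ, true_and]
            exact ⟨i, hi⟩
          rw [this, zero_smul]
        rw [this]
        simpa [hw'e, hz'e] using hx
    · rintro x ⟨⟨w, z⟩, ⟨⟨hw0, hw1⟩, hz⟩, rfl⟩
      apply (convex_convexHull ℝ s).sum_mem (fun i _ => hw0 i) hw1
      intro i _
      exact subset_convexHull ℝ s (hz i (Set.mem_univ i))
  rw [himg]
  exact hK.image hF

variable {V G Y : Type*} [NormedAddCommGroup V] [InnerProductSpace ℝ V] [FiniteDimensional ℝ V]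
    [Group G] [TopologicalSpace Y] [T2Space Y] [MulAction G Y] {D : ROData V G Y}
    (hinc : ∀ y, dom D.dev y ≠ univ)
include hinc

/-- the contact direction of an almost balanced operator -/
theorem ce1_direction {y0 : Y} (hmin : ∀ S ∈ D.P, FR D.dev y0 0 ≤ FR D.dev y0 S) {S : V →L[ℝ] V}
    (hS : S ∈ D.P) : ∃ ν : V, ‖ν‖ = 1 ∧
      D.dev y0 + rad D.dev y0 (ex 0) • ν ∉ dom D.dev y0 ∧ inner ℝ ν (S ν) ≤ 0 := by
  have hP := D.cartan
  have hprop := FiniteDimensional.proper ℝ V
  set r := rad D.dev y0 (ex (0 : V →L[ℝ] V)) with hr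
  have hrpos : 0 < r := rad_ex_pos hinc y0 D.P.zero_mem
  -- the contacts
  have hc : ∀ n : ℕ, ∃ b, IsContact D.dev y0 (ex (((n : ℝ) + 1)⁻¹ • S)) b := fun n =>
    exists_contact_ex hinc y0 (D.P.smul_mem _ hS)
  choose b hb using hc
  set v : ℕ → V := fun n => b n - D.dev y0 with hv
  have htn : ∀ n : ℕ, 0 < ((n : ℝ) + 1)⁻¹ := fun n => by positivity
  have hrad : ∀ n : ℕ, rad D.dev y0 (ex (((n : ℝ) + 1)⁻¹ • S)) ≤ r := by
    intro n
    have h1 := hmin _ (D.P.smul_mem ((n : ℝ) + 1)⁻¹ hS)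
    unfold FR at h1
    rwa [inv_le_inv₀ hrpos (rad_ex_pos hinc y0 (D.P.smul_mem _ hS))] at h1
  have hlow : ∀ n, r ≤ ‖v n‖ := by
    intro n
    have h1 := rad_le (T := ex (0 : V →L[ℝ] V)) (hb n).1
    rwa [← hr, ex_zero] at h1
  have hup : ∀ n : ℕ, ‖v n‖ ≤ Real.exp (((n : ℝ) + 1)⁻¹ * ‖S‖) * r := by
    intro n
    have h1 := le_norm_ex hP (D.P.smul_mem ((n : ℝ) + 1)⁻¹ hS) (v n)
    rw [norm_smul, Real.norm_of_nonneg (htn n).le] at h1
    refine h1.trans (mul_le_mul_of_nonneg_left ?_ (Real.exp_pos _).le)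
    exact ((hb n).2.le).trans (hrad n)
  have hsgn : ∀ n, inner ℝ (v n) (S (v n)) ≤ 0 := by
    intro n
    have h1 := norm_ex_lower hP (D.P.smul_mem ((n : ℝ) + 1)⁻¹ hS) (v n)
    have h2 : ‖ex (((n : ℝ) + 1)⁻¹ • S) (v n)‖ ≤ r := ((hb n).2.le).trans (hrad n)
    have h3 : ‖ex (((n : ℝ) + 1)⁻¹ • S) (v n)‖ ^ 2 ≤ r ^ 2 := by gcongr
    have h4 : r ^ 2 ≤ ‖v n‖ ^ 2 := by
      have := hlow n
      gcongr
    rw [smul_apply, inner_smul_right] at h1
    have h5 : ((n : ℝ) + 1)⁻¹ * inner ℝ (v n) (S (v n)) ≤ 0 := by linarith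
    by_contra h6
    push Not at h6
    have := mul_pos (htn n) h6
    linarith
  -- a convergent subsequence
  have hbd : ∀ n, v n ∈ Metric.closedBall (0 : V) (Real.exp ‖S‖ * r) := by
    intro n
    rw [mem_closedBall_zero_iff]
    refine (hup n).trans (mul_le_mul_of_nonneg_right ?_ hrpos.le)
    apply Real.exp_le_exp.2
    have h1 : ((n : ℝ) + 1)⁻¹ ≤ 1 := inv_le_one_of_one_le₀ (by linarith [n.cast_nonneg (α := ℝ)])
    have := norm_nonneg S
    nlinarith
  obtain ⟨v0, -, φ, hφ, hv0⟩ := (isCompact_closedBall (0 : V) (Real.exp ‖S‖ * r)).tendsto_subseq hbd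
  have h0 : Tendsto (fun n : ℕ => ((n : ℝ) + 1)⁻¹) atTop (𝓝 0) := by
    have := tendsto_one_div_add_atTop_nhds_zero_nat (𝕜 := ℝ)
    simpa only [one_div] using this
  have hexp : Tendsto (fun n : ℕ => Real.exp (((n : ℝ) + 1)⁻¹ * ‖S‖) * r) atTop (𝓝 r) := by
    have h1 : Tendsto (fun n : ℕ => Real.exp (((n : ℝ) + 1)⁻¹ * ‖S‖) * r) atTop
        (𝓝 (Real.exp (0 * ‖S‖) * r)) :=
      ((Real.continuous_exp.tendsto _).comp (h0.mul_const _)).mul_const r
    simpa using h1
  have hnorm : ‖v0‖ = r := by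
    apply le_antisymm
    · exact le_of_tendsto_of_tendsto' hv0.norm (hexp.comp hφ.tendsto_atTop) fun n => hup _
    · exact ge_of_tendsto' hv0.norm fun n => hlow _
  have hnd : D.dev y0 + v0 ∉ dom D.dev y0 := by
    have hcl : IsClosed (dom D.dev y0)ᶜ := (isOpen_dom y0).isClosed_compl
    refine hcl.mem_of_tendsto (hv0.const_add (D.dev y0)) (Eventually.of_forall fun n => ?_)
    show D.dev y0 + v (φ n) ∉ dom D.dev y0
    rw [hv]
    simp only [add_sub_cancel]
    exact (hb _).1
  have hsgn0 : inner ℝ v0 (S v0) ≤ 0 := by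
    have h1 : Tendsto (fun n => inner ℝ ((v ∘ φ) n) (S ((v ∘ φ) n))) atTop
        (𝓝 (inner ℝ v0 (S v0))) := hv0.inner ((S.continuous.tendsto v0).comp hv0)
    exact le_of_tendsto' h1 fun n => hsgn _
  refine ⟨r⁻¹ • v0, ?_, ?_, ?_⟩
  · rw [norm_smul, hnorm, norm_inv, Real.norm_of_nonneg hrpos.le, inv_mul_cancel₀ hrpos.ne']
  · rw [smul_smul, mul_inv_cancel₀ hrpos.ne', one_smul]
    exact hnd
  · rw [map_smul, inner_smul_left, inner_smul_right]
    simp only [conj_trivial]
    rw [← mul_assoc]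
    exact mul_nonpos_of_nonneg_of_nonpos (by positivity) hsgn0

/-- E3: if `0` is a minimum of `FR y0` then the contact directions at `(y0, 0)` are balanced. -/
theorem barycentre {y0 : Y} (hmin : ∀ S ∈ D.P, FR D.dev y0 0 ≤ FR D.dev y0 S) :
    ∃ (n : ℕ) (l : Fin n → ℝ) (ν : Fin n → V), (∀ i, 0 < l i) ∧ ∑ i, l i = 1 ∧
      (∀ i, ‖ν i‖ = 1 ∧ IsContact D.dev y0 (ex 0) (D.dev y0 + rad D.dev y0 (ex 0) • ν i)) ∧
      ∀ S ∈ D.P, ∑ i, l i * inner ℝ (ν i) (S (ν i)) = 0 := by
  have hprop := FiniteDimensional.proper ℝ V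
  set r := rad D.dev y0 (ex (0 : V →L[ℝ] V)) with hr
  have hrpos : 0 < r := rad_ex_pos hinc y0 D.P.zero_mem
  set N : Set V := {ν | ‖ν‖ = 1 ∧ D.dev y0 + r • ν ∉ dom D.dev y0} with hN
  have hNc : IsCompact N := by
    have h1 : N = Metric.sphere (0 : V) 1 ∩ (fun ν => D.dev y0 + r • ν) ⁻¹' (dom D.dev y0)ᶜ := by
      ext ν
      simp [hN]
    rw [h1]
    refine (isCompact_sphere (0 : V) 1).inter_right ?_
    exact (isOpen_dom y0).isClosed_compl.preimage (by fun_prop)
  set e := Module.finBasis ℝ D.P with he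
  set Φ : V → (Fin (Module.finrank ℝ D.P) → ℝ) := fun ν j =>
    inner ℝ ν (((e j : D.P) : V →L[ℝ] V) ν) with hΦ
  have hΦc : Continuous Φ := by
    refine continuous_pi fun j => ?_
    exact continuous_id.inner ((e j : D.P) : V →L[ℝ] V).continuous
  have hmem : (0 : Fin (Module.finrank ℝ D.P) → ℝ) ∈ convexHull ℝ (Φ '' N) := by
    by_contra hcon
    obtain ⟨f, u, hu, hfu⟩ := geometric_hahn_banach_point_closed (convex_convexHull ℝ (Φ '' N))
      (ce1_isCompact_convexHull (hNc.image hΦc)).isClosed hcon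
    rw [map_zero] at hu
    set S : D.P := ∑ j, f (Pi.single j 1) • e j with hS
    obtain ⟨ν, hν1, hν2, hν3⟩ := ce1_direction hinc hmin S.2
    have h1 := hfu _ (subset_convexHull ℝ _ ⟨ν, ⟨hν1, hν2⟩, rfl⟩)
    have h2 : f (Φ ν) = inner ℝ ν ((S : V →L[ℝ] V) ν) := by
      have h3 : Φ ν = ∑ j, Φ ν j • (Pi.single j (1 : ℝ) : Fin (Module.finrank ℝ D.P) → ℝ) := by
        ext j
        simp [Finset.sum_apply, Pi.single_apply]
      rw [h3, map_sum, hS]
      simp only [Submodule.coe_sum, Submodule.coe_smul, sum_apply,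
        smul_apply, inner_sum, inner_smul_right, map_smul, smul_eq_mul]
      refine Finset.sum_congr rfl fun j _ => ?_
      rw [hΦ]
      ring
    rw [h2] at h1
    linarith
  obtain ⟨ι, hι, z, w, hz, -, hw, hw1, hwz⟩ := eq_pos_convex_span_of_mem_convexHull hmem
  have hzi : ∀ i, ∃ ν ∈ N, Φ ν = z i := fun i => hz ⟨i, rfl⟩
  choose ν hνN hνz using hzi
  let eq := Fintype.equivFin ι
  refine ⟨Fintype.card ι, fun i => w (eq.symm i), fun i => ν (eq.symm i), fun i => hw _, ?_, ?_, ?_⟩
  · rw [← hw1]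
    exact Equiv.sum_comp eq.symm w
  · intro i
    refine ⟨(hνN _).1, (hνN _).2, ?_⟩
    rw [add_sub_cancel_left, ex_zero, one_apply_eq_self, norm_smul, (hνN _).1, mul_one,
      Real.norm_of_nonneg hrpos.le, hr, ex_zero]
  · intro S hS
    have h1 : ∀ j, ∑ i, w i * inner ℝ (ν i) (((e j : D.P) : V →L[ℝ] V) (ν i)) = 0 := by
      intro j
      have h2 := congrFun hwz j
      simp only [Finset.sum_apply, Pi.smul_apply, smul_eq_mul, Pi.zero_apply] at h2
      rw [← h2]
      refine Finset.sum_congr rfl fun i _ => ?_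
      rw [← hνz i]
    have h3 : ∑ i, w i * inner ℝ (ν i) (S (ν i)) = 0 := by
      have h4 : S = ∑ j, e.repr ⟨S, hS⟩ j • ((e j : D.P) : V →L[ℝ] V) := by
        have h5 := congrArg (fun T : D.P => (T : V →L[ℝ] V)) (e.sum_repr ⟨S, hS⟩)
        simp only [Submodule.coe_sum, Submodule.coe_smul] at h5
        exact h5.symm
      calc ∑ i, w i * inner ℝ (ν i) (S (ν i))
          = ∑ i, ∑ j, e.repr ⟨S, hS⟩ j *
              (w i * inner ℝ (ν i) (((e j : D.P) : V →L[ℝ] V) (ν i))) := by
            refine Finset.sum_congr rfl fun i _ => ?_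
            conv_lhs => rw [h4]
            simp only [sum_apply, smul_apply, inner_sum,
              inner_smul_right, Finset.mul_sum]
            refine Finset.sum_congr rfl fun j _ => ?_
            ring
        _ = ∑ j, e.repr ⟨S, hS⟩ j *
              ∑ i, (w i * inner ℝ (ν i) (((e j : D.P) : V →L[ℝ] V) (ν i))) := by
            rw [Finset.sum_comm]
            refine Finset.sum_congr rfl fun j _ => ?_
            rw [Finset.mul_sum]
        _ = 0 := by
            refine Finset.sum_eq_zero fun j _ => ?_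
            rw [h1 j, mul_zero]
    rw [← h3]
    exact Equiv.sum_comp eq.symm (fun i => w i * inner ℝ (ν i) (S (ν i)))

/-- E4: the inequality (★) for one contact direction. -/
theorem star_ineq {y0 : Y} {ν : V} (hν : ‖ν‖ = 1)
    (hc : IsContact D.dev y0 (ex 0) (D.dev y0 + rad D.dev y0 (ex 0) • ν)) :
    ∃ η ∈ D.P, ‖η‖ = 1 ∧ η ν = ν ∧ ∃ ε > 0, ∀ᶠ y in 𝓝 y0, ∀ S ∈ D.P, ‖S‖ ≤ ε →
      FR D.dev y S ≤ FR D.dev y0 0 →
      ‖ex (-S) ν‖ ≤ ‖ν - (rad D.dev y0 (ex 0))⁻¹ • top η (D.dev y - D.dev y0)‖ := by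
  have hP := D.cartan
  set r := rad D.dev y0 (ex (0 : V →L[ℝ] V)) with hr
  have hrpos : 0 < r := rad_ex_pos hinc y0 D.P.zero_mem
  obtain ⟨η, hη, h1, hfix, hev⟩ := contact_support hinc D.P.zero_mem hc
  rw [smul_zero, ex_zero, one_apply_eq_self, add_sub_cancel_left, map_smul] at hfix
  have hην : η ν = ν := smul_right_injective V hrpos.ne' hfix
  have htop : top η ν = ν := top_of_fix hP hη h1 hην
  rw [nhds_prod_eq] at hev
  obtain ⟨s1, hs1, s2, hs2, hsub⟩ := Filter.mem_prod_iff.1 hev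
  obtain ⟨ε, hε, hball⟩ := Metric.mem_nhds_iff.1 hs2
  refine ⟨η, hη, h1, hην, ε / 2, half_pos hε, ?_⟩
  filter_upwards [hs1] with y hy S hS hSε hFR
  have hS2 : S ∈ s2 := by
    apply hball
    rw [mem_ball_zero_iff]
    linarith
  have h2 := hsub (Set.mk_mem_prod hy hS2) hS ν hην
  simp only at h2
  have hrS : r ≤ rad D.dev y (ex S) := by
    unfold FR at hFR
    rwa [inv_le_inv₀ (rad_ex_pos hinc y hS) hrpos] at hFR
  rw [hν, mul_one] at h2
  have h3 : r * ‖ex (-S) ν‖ ≤ r * ‖ν - r⁻¹ • top η (D.dev y - D.dev y0)‖ := by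
    calc r * ‖ex (-S) ν‖ ≤ rad D.dev y (ex S) * ‖ex (-S) ν‖ :=
          mul_le_mul_of_nonneg_right hrS (norm_nonneg _)
      _ ≤ ‖top η (D.dev y0 + r • ν - D.dev y)‖ := h2
      _ = ‖r • (ν - r⁻¹ • top η (D.dev y - D.dev y0))‖ := by
          congr 1
          rw [smul_sub, smul_smul, mul_inv_cancel₀ hrpos.ne', one_smul]
          have h4 : D.dev y0 + r • ν - D.dev y = r • ν - (D.dev y - D.dev y0) := by abel
          rw [h4, map_sub, map_smul, htop]
      _ = _ := by rw [norm_smul, Real.norm_of_nonneg hrpos.le]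
  exact le_of_mul_le_mul_left h3 hrpos

end Pool.Agent.Helper2.RO
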