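import Pool.Agent.Helper2.RO.Conv

/-! Module CaseFa: the case `inf FR = 0`: slabs, constancy of their direction, similarity. -/

set_option autoImplicit false
set_option linter.unusedSectionVars false

open Set Filter Topology

namespace Pool.Agent.Helper2.RO

open Pool.Agent.Helper2.MK Pool.Agent.Helper50.HL

variable {V G Y : Type*} [NormedAddCommGroup V] [InnerProductSpace ℝ V] [FiniteDimensional ℝ V]
    [Group G] [TopologicalSpace Y] [T2Space Y] [MulAction G Y] {D : ROData V G Y}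
    (hinc : ∀ y, dom D.dev y ≠ univ)
include hinc

theorem slab_of_ray {y : Y} {ζ : V →L[ℝ] V} (hζ : ζ ∈ D.P) (h1 : ‖ζ‖ = 1)
    (h : ∀ t : ℝ, 0 ≤ t → FR D.dev y (t • ζ) ≤ Real.exp (-t) * FR D.dev y 0) :
    Slab D.dev y ζ (rad D.dev y (ex 0)) := by
  intro x hx
  set u := x - D.dev y with hu
  set r := rad D.dev y (ex (0 : V →L[ℝ] V)) with hr
  have hr0 : 0 < r := rad_ex_pos hinc y D.P.zero_mem
  have key : ∀ᶠ t : ℝ in atTop, ‖top ζ u‖ ^ 2 + Real.exp (-(2 * t)) * ‖mid ζ u‖ ^ 2 +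
      Real.exp (-(4 * t)) * ‖bot ζ u‖ ^ 2 < r ^ 2 := by
    have ha : ∀ c : ℝ, 0 < c → Tendsto (fun t : ℝ => Real.exp (-(c * t))) atTop (𝓝 0) :=
      fun c hc => Real.tendsto_exp_neg_atTop_nhds_zero.comp (tendsto_id.const_mul_atTop hc)
    have hlim : Tendsto (fun t : ℝ => ‖top ζ u‖ ^ 2 + Real.exp (-(2 * t)) * ‖mid ζ u‖ ^ 2 +
        Real.exp (-(4 * t)) * ‖bot ζ u‖ ^ 2) atTop
        (𝓝 (‖top ζ u‖ ^ 2 + 0 * ‖mid ζ u‖ ^ 2 + 0 * ‖bot ζ u‖ ^ 2)) :=
      (tendsto_const_nhds.add ((ha 2 (by norm_num)).mul_const _)).add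
        ((ha 4 (by norm_num)).mul_const _)
    refine hlim.eventually_lt_const ?_
    rw [zero_mul, zero_mul, add_zero, add_zero]
    gcongr
  obtain ⟨t, ht0, ht⟩ := ((eventually_ge_atTop (0 : ℝ)).and key).exists
  have hS : t • ζ ∈ D.P := D.P.smul_mem t hζ
  have hrt : 0 < rad D.dev y (ex (t • ζ)) := rad_ex_pos hinc y hS
  have h2 : Real.exp t * r ≤ rad D.dev y (ex (t • ζ)) := by
    have h3 := h t ht0
    unfold FR at h3
    rw [← hr] at h3
    have h4 : Real.exp (-t) * r⁻¹ = (Real.exp t * r)⁻¹ := by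
      rw [Real.exp_neg, mul_inv]
    rw [h4] at h3
    exact (inv_le_inv₀ hrt (by positivity)).mp h3
  refine mem_dom_of_lt (T := ex (t • ζ)) (lt_of_lt_of_le ?_ h2)
  refine lt_of_pow_lt_pow_left₀ 2 (by positivity) ?_
  rw [norm_ex_smul_sq D.cartan hζ h1, mul_pow, ← Real.exp_nat_mul]
  push_cast
  have h5 := mul_lt_mul_of_pos_left ht (Real.exp_pos (2 * t))
  have h6 : Real.exp (2 * t) * (‖top ζ u‖ ^ 2 + Real.exp (-(2 * t)) * ‖mid ζ u‖ ^ 2 +
      Real.exp (-(4 * t)) * ‖bot ζ u‖ ^ 2) = Real.exp (2 * t) * ‖top ζ u‖ ^ 2 + ‖mid ζ u‖ ^ 2 +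
      Real.exp (-(2 * t)) * ‖bot ζ u‖ ^ 2 := by
    have e1 : Real.exp (2 * t) * Real.exp (-(2 * t)) = 1 := by
      rw [← Real.exp_add, add_neg_cancel, Real.exp_zero]
    have e2 : Real.exp (2 * t) * Real.exp (-(4 * t)) = Real.exp (-(2 * t)) := by
      rw [← Real.exp_add]; congr 1; ring
    rw [mul_add, mul_add, ← mul_assoc (Real.exp (2 * t)) (Real.exp (-(2 * t))), e1, one_mul,
      ← mul_assoc (Real.exp (2 * t)) (Real.exp (-(4 * t))), e2]
  rw [h6] at h5
  exact h5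

theorem ray_of_slab {y : Y} {ζ : V →L[ℝ] V} (hζ : ζ ∈ D.P) (h1 : ‖ζ‖ = 1) {c : ℝ} (hc : 0 < c)
    (h : Slab D.dev y ζ c) :
    ∀ t : ℝ, 0 ≤ t → FR D.dev y (t • ζ) ≤ Real.exp (-t) * FR D.dev y 0 := by
  have hub : ∀ T : ℝ, 0 < T → FR D.dev y (T • ζ) ≤ Real.exp (-T) / c := by
    intro T hT
    have hS : T • ζ ∈ D.P := D.P.smul_mem T hζ
    have h3 : Real.exp T * c ≤ rad D.dev y (ex (T • ζ)) := by
      refine le_rad hinc fun x hx => h x ?_
      have h4 := norm_top_le_ex D.cartan hS (x - D.dev y)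
      rw [top_smul hT, norm_smul, Real.norm_of_nonneg hT.le, h1, mul_one] at h4
      exact lt_of_mul_lt_mul_left (h4.trans_lt hx) (Real.exp_pos T).le
    have h5 : (rad D.dev y (ex (T • ζ)))⁻¹ ≤ (Real.exp T * c)⁻¹ :=
      inv_anti₀ (by positivity) h3
    refine h5.trans (le_of_eq ?_)
    rw [Real.exp_neg, mul_inv, div_eq_mul_inv]
  intro t ht0
  set F0 := FR D.dev y (0 : V →L[ℝ] V) with hF0
  set Ft := FR D.dev y (t • ζ) with hFt
  have key : ∀ᶠ T : ℝ in atTop, (1 - Real.exp (-(2 * T))) * Ft ≤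
      (Real.exp (-t) - Real.exp t * Real.exp (-(2 * T))) * F0 +
        2 * Real.sinh t * (Real.exp (-(2 * T)) / c) := by
    filter_upwards [eventually_ge_atTop t, eventually_gt_atTop (0 : ℝ)] with T hT hT0
    have h3 := FR_conv hinc y hζ h1 ht0 hT
    have h4 := mul_le_mul_of_nonneg_left (hub T hT0) (Real.sinh_nonneg_iff.mpr ht0)
    have h5 : Real.sinh T * Ft ≤ Real.sinh (T - t) * F0 + Real.sinh t * (Real.exp (-T) / c) :=
      h3.trans (by linarith)
    have h6 := mul_le_mul_of_nonneg_left h5 (show (0 : ℝ) ≤ 2 * Real.exp (-T) by positivity)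
    have e1 : 2 * Real.exp (-T) * (Real.sinh T * Ft) = (1 - Real.exp (-(2 * T))) * Ft := by
      rw [Real.sinh_eq]
      have e2 : Real.exp (-T) * Real.exp T = 1 := by
        rw [← Real.exp_add, neg_add_cancel, Real.exp_zero]
      have e3 : Real.exp (-T) * Real.exp (-T) = Real.exp (-(2 * T)) := by
        rw [← Real.exp_add]; congr 1; ring
      rw [← e3, ← e2]
      ring
    have e4 : 2 * Real.exp (-T) * (Real.sinh (T - t) * F0) =
        (Real.exp (-t) - Real.exp t * Real.exp (-(2 * T))) * F0 := by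
      rw [Real.sinh_eq]
      have e2 : Real.exp (-T) * Real.exp (T - t) = Real.exp (-t) := by
        rw [← Real.exp_add]; congr 1; ring
      have e3 : Real.exp (-T) * Real.exp (-(T - t)) = Real.exp t * Real.exp (-(2 * T)) := by
        rw [← Real.exp_add, ← Real.exp_add]; congr 1; ring
      rw [← e3, ← e2]
      ring
    have e5 : 2 * Real.exp (-T) * (Real.sinh t * (Real.exp (-T) / c)) =
        2 * Real.sinh t * (Real.exp (-(2 * T)) / c) := by
      have e3 : Real.exp (-T) * Real.exp (-T) = Real.exp (-(2 * T)) := by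
        rw [← Real.exp_add]; congr 1; ring
      rw [← e3]
      ring
    rw [mul_add, e1, e4, e5] at h6
    exact h6
  have ha : Tendsto (fun T : ℝ => Real.exp (-(2 * T))) atTop (𝓝 0) :=
    Real.tendsto_exp_neg_atTop_nhds_zero.comp (tendsto_id.const_mul_atTop (by norm_num))
  have hl : Tendsto (fun T : ℝ => (1 - Real.exp (-(2 * T))) * Ft) atTop (𝓝 ((1 - 0) * Ft)) :=
    (tendsto_const_nhds.sub ha).mul_const _
  have hr : Tendsto (fun T : ℝ => (Real.exp (-t) - Real.exp t * Real.exp (-(2 * T))) * F0 +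
        2 * Real.sinh t * (Real.exp (-(2 * T)) / c)) atTop
      (𝓝 ((Real.exp (-t) - Real.exp t * 0) * F0 + 2 * Real.sinh t * (0 / c))) :=
    ((tendsto_const_nhds.sub (ha.const_mul _)).mul_const _).add
      ((ha.div_const c).const_mul _)
  have h7 := le_of_tendsto_of_tendsto hl hr key
  simpa using h7

theorem slab_unique {y : Y} {ζ ζ' : V →L[ℝ] V} (hζ : ζ ∈ D.P) (h1 : ‖ζ‖ = 1) (hζ' : ζ' ∈ D.P)
    (h1' : ‖ζ'‖ = 1) {c c' : ℝ} (hc : 0 < c) (hc' : 0 < c') (h : Slab D.dev y ζ c)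
    (h' : Slab D.dev y ζ' c') : ζ = ζ' := by
  have hs := slab_of_ray hinc hζ h1 (ray_of_slab hinc hζ h1 hc h)
  have hs' := slab_of_ray hinc hζ' h1' (ray_of_slab hinc hζ' h1' hc' h')
  obtain ⟨b, hb, hbr⟩ := exists_contact_ex hinc y D.P.zero_mem
  have hr0 : 0 < rad D.dev y (ex (0 : V →L[ℝ] V)) := rad_ex_pos hinc y D.P.zero_mem
  have hv : ‖b - D.dev y‖ = rad D.dev y (ex (0 : V →L[ℝ] V)) := by
    rw [← hbr, ex_zero]
    rfl
  have hv0 : b - D.dev y ≠ 0 := by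
    rw [← norm_pos_iff, hv]
    exact hr0
  have aux : ∀ z : V →L[ℝ] V, z ∈ D.P → ‖z‖ = 1 →
      Slab D.dev y z (rad D.dev y (ex (0 : V →L[ℝ] V))) → z (b - D.dev y) = b - D.dev y := by
    intro z hz hz1 hsl
    have h3 : ‖b - D.dev y‖ ≤ ‖top z (b - D.dev y)‖ := by
      rw [hv]
      by_contra hcon
      exact hb (hsl b (not_le.mp hcon))
    exact (fix_iff D.cartan hz hz1).mpr (top_eq_self_of_norm D.cartan hz h3)
  exact eq_of_fix D.cartan hζ h1 hζ' h1' hv0 (aux ζ hζ h1 hs) (aux ζ' hζ' h1' hs')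

/-- the direction is constant -/
theorem exists_eta [ConnectedSpace Y] (h : ∀ y, ∀ ε > 0, ∃ S ∈ D.P, FR D.dev y S < ε) :
    ∃ η ∈ D.P, ‖η‖ = 1 ∧ ∀ y, Slab D.dev y η (rad D.dev y (ex 0)) := by
  have hex : ∀ y, ∃ z ∈ D.P, ‖z‖ = 1 ∧ Slab D.dev y z (rad D.dev y (ex 0)) := by
    intro y
    obtain ⟨z, hz, hz1, hray⟩ := exists_ray hinc y (B := 1)
      (fun N => exists_far_of_small hinc y (h y) N)
    exact ⟨z, hz, hz1, slab_of_ray hinc hz hz1 hray⟩
  choose z hz hz1 hsl using hex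
  have hloc : IsLocallyConstant z := by
    rw [IsLocallyConstant.iff_eventually_eq]
    intro y
    set r := rad D.dev y (ex (0 : V →L[ℝ] V)) with hr
    have hr0 : 0 < r := rad_ex_pos hinc y D.P.zero_mem
    have hC : IsOpen {x | ‖top (z y) (x - D.dev y)‖ < r} := isOpen_tball _ _ _
    have hconv : Convex ℝ {x | ‖top (z y) (x - D.dev y)‖ < r} := convex_tball _ _ _
    have hmem : D.dev y ∈ {x | ‖top (z y) (x - D.dev y)‖ < r} := by
      simpa using hr0
    have hsub : {x | ‖top (z y) (x - D.dev y)‖ < r} ⊆ dom D.dev y := fun x hx => hsl y x hx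
    have h2 := near_convex D.dev_local hC hconv hmem hsub
    have h3 : ∀ᶠ y' in 𝓝 y, ‖top (z y) (D.dev y' - D.dev y)‖ < r / 2 := by
      have hc : Continuous fun y' => ‖top (z y) (D.dev y' - D.dev y)‖ :=
        ((top (z y)).continuous.comp (D.dev_local.continuous.sub continuous_const)).norm
      refine hc.continuousAt.eventually_lt continuousAt_const ?_
      simpa using half_pos hr0
    filter_upwards [h2, h3] with y' h4 h5
    have hs2 : Slab D.dev y' (z y) (r / 2) := by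
      intro x hx
      apply h4.1
      have h6 : top (z y) (x - D.dev y) = top (z y) (x - D.dev y') +
          top (z y) (D.dev y' - D.dev y) := by
        rw [← map_add]
        congr 1
        abel
      change ‖top (z y) (x - D.dev y)‖ < r
      rw [h6]
      have := norm_add_le (top (z y) (x - D.dev y')) (top (z y) (D.dev y' - D.dev y))
      linarith
    exact slab_unique hinc (hz y') (hz1 y') (hz y) (hz1 y) (rad_ex_pos hinc y' D.P.zero_mem)
      (half_pos hr0) (hsl y') hs2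
  obtain ⟨y0⟩ : Nonempty Y := inferInstance
  refine ⟨z y0, hz y0, hz1 y0, fun y => ?_⟩
  rw [hloc.apply_eq_of_preconnectedSpace y0 y]
  exact hsl y

omit hinc in
/-- the rescaled norms along a sequence going to infinity in the direction `η` -/
theorem tendsto_ex {S : ℕ → (V →L[ℝ] V)} (hS : ∀ j, S j ∈ D.P)
    (hinf : Tendsto (fun j => ‖S j‖) atTop atTop) {η : V →L[ℝ] V} (hη0 : η ≠ 0)
    (hlim : Tendsto (fun j => ‖S j‖⁻¹ • S j) atTop (𝓝 η)) (u : V) :
    Tendsto (fun j => Real.exp (-‖S j‖) * ‖ex (S j) u‖) atTop (𝓝 ‖top η u‖) := by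
  have htop : Tendsto (fun j => ‖top (S j) u‖ ^ 2) atTop (𝓝 (‖top η u‖ ^ 2)) := by
    have h2 : Tendsto (fun j => top (‖S j‖⁻¹ • S j)) atTop (𝓝 (top η)) :=
      (top_continuousAt hη0).tendsto.comp hlim
    have h3 : Tendsto (fun j => top (‖S j‖⁻¹ • S j) u) atTop (𝓝 (top η u)) :=
      ((ContinuousLinearMap.apply ℝ V u).continuous.tendsto (top η)).comp h2
    refine (h3.norm.pow 2).congr' ?_
    filter_upwards [hinf.eventually_gt_atTop 0] with j hj
    rw [top_smul (inv_pos.mpr hj)]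
  have h0 : Tendsto (fun j => Real.exp (-(2 * ‖S j‖)) * (2 * ‖u‖ ^ 2)) atTop (𝓝 0) := by
    have h4 : Tendsto (fun j => Real.exp (-(2 * ‖S j‖))) atTop (𝓝 0) :=
      Real.tendsto_exp_neg_atTop_nhds_zero.comp (hinf.const_mul_atTop (by norm_num))
    simpa using h4.mul_const (2 * ‖u‖ ^ 2)
  have hsq : ∀ j, (Real.exp (-‖S j‖) * ‖ex (S j) u‖) ^ 2 = ‖top (S j) u‖ ^ 2 +
      (Real.exp (-(2 * ‖S j‖)) * ‖mid (S j) u‖ ^ 2 +
        Real.exp (-(4 * ‖S j‖)) * ‖bot (S j) u‖ ^ 2) := by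
    intro j
    have e0 : Real.exp (-‖S j‖) ^ 2 = Real.exp (-(2 * ‖S j‖)) := by
      rw [← Real.exp_nat_mul]; congr 1; push_cast; ring
    have e1 : Real.exp (-(2 * ‖S j‖)) * Real.exp (2 * ‖S j‖) = 1 := by
      rw [← Real.exp_add, neg_add_cancel, Real.exp_zero]
    have e2 : Real.exp (-(2 * ‖S j‖)) * Real.exp (-(2 * ‖S j‖)) = Real.exp (-(4 * ‖S j‖)) := by
      rw [← Real.exp_add]; congr 1; ring
    rw [mul_pow, norm_ex_sq D.cartan (hS j), e0, mul_add, mul_add, ← mul_assoc, e1, one_mul,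
      ← mul_assoc (Real.exp (-(2 * ‖S j‖))) (Real.exp (-(2 * ‖S j‖))), e2, add_assoc]
  have hlim2 : Tendsto (fun j => (Real.exp (-‖S j‖) * ‖ex (S j) u‖) ^ 2) atTop
      (𝓝 (‖top η u‖ ^ 2)) := by
    have hup : Tendsto (fun j => ‖top (S j) u‖ ^ 2 + Real.exp (-(2 * ‖S j‖)) * (2 * ‖u‖ ^ 2))
        atTop (𝓝 (‖top η u‖ ^ 2)) := by
      simpa using htop.add h0
    refine tendsto_of_tendsto_of_tendsto_of_le_of_le htop hup ?_ ?_
    · intro j
      change ‖top (S j) u‖ ^ 2 ≤ (Real.exp (-‖S j‖) * ‖ex (S j) u‖) ^ 2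
      rw [hsq j]
      have : 0 ≤ Real.exp (-(2 * ‖S j‖)) * ‖mid (S j) u‖ ^ 2 +
        Real.exp (-(4 * ‖S j‖)) * ‖bot (S j) u‖ ^ 2 := by positivity
      linarith
    · intro j
      change (Real.exp (-‖S j‖) * ‖ex (S j) u‖) ^ 2 ≤
        ‖top (S j) u‖ ^ 2 + Real.exp (-(2 * ‖S j‖)) * (2 * ‖u‖ ^ 2)
      rw [hsq j]
      have hd := norm_sq_decomp D.cartan (hS j) u
      have hm : ‖mid (S j) u‖ ^ 2 ≤ ‖u‖ ^ 2 := by
        nlinarith [sq_nonneg ‖top (S j) u‖, sq_nonneg ‖bot (S j) u‖]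
      have hb : ‖bot (S j) u‖ ^ 2 ≤ ‖u‖ ^ 2 := by
        nlinarith [sq_nonneg ‖top (S j) u‖, sq_nonneg ‖mid (S j) u‖]
      have he : Real.exp (-(4 * ‖S j‖)) ≤ Real.exp (-(2 * ‖S j‖)) :=
        Real.exp_le_exp.mpr (by linarith [norm_nonneg (S j)])
      have h5 := mul_le_mul_of_nonneg_left hm (Real.exp_pos (-(2 * ‖S j‖))).le
      have h6 : Real.exp (-(4 * ‖S j‖)) * ‖bot (S j) u‖ ^ 2 ≤
          Real.exp (-(2 * ‖S j‖)) * ‖u‖ ^ 2 :=
        mul_le_mul he hb (by positivity) (by positivity)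
      linarith
  have h7 := hlim2.sqrt
  rw [Real.sqrt_sq (norm_nonneg _)] at h7
  refine h7.congr fun j => ?_
  exact Real.sqrt_sq (by positivity)

theorem top_ne_zero [Nonempty Y] {η : V →L[ℝ] V} (h : ∀ y, Slab D.dev y η (rad D.dev y (ex 0))) :
    ∃ x, top η x ≠ 0 := by
  by_contra hcon
  push Not at hcon
  obtain ⟨y⟩ : Nonempty Y := inferInstance
  refine hinc y (eq_univ_of_forall fun x => h y x ?_)
  rw [hcon, norm_zero]
  exact rad_ex_pos hinc y D.P.zero_mem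

/-- the holonomy acts by similarities modulo the kernel of `top η` -/
theorem similar [Nonempty Y] {η : V →L[ℝ] V} (hη : η ∈ D.P) (h1 : ‖η‖ = 1)
    (h : ∀ y, Slab D.dev y η (rad D.dev y (ex 0))) (g : G) :
    ∃ κ > 0, ∀ x, ‖top η ((D.hol g).linear x)‖ = κ * ‖top η x‖ := by
  obtain ⟨x1, hx1⟩ := top_ne_zero hinc h
  obtain ⟨y⟩ : Nonempty Y := inferInstance
  have : ProperSpace (V →L[ℝ] V) := FiniteDimensional.proper ℝ (V →L[ℝ] V)
  have hη0 : η ≠ 0 := by
    rintro rfl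
    simp at h1
  set L := (D.hol g).linear with hL
  set R : ℕ → (V →L[ℝ] V) := fun j => (j : ℝ) • η with hR
  have hRP : ∀ j, R j ∈ D.P := fun j => D.P.smul_mem _ hη
  have hRn : ∀ j, ‖R j‖ = j := by
    intro j
    rw [hR]
    simp only [norm_smul, h1, mul_one, Real.norm_natCast]
  choose S hSP hS using fun j => D.pres g (R j) (hRP j)
  have hray := ray_of_slab hinc hη h1 (rad_ex_pos hinc y D.P.zero_mem) (h y)
  have hB : ∀ j, FR D.dev (g • y) (S j) ≤ FR D.dev y 0 := by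
    intro j
    rw [FR_equiv hinc (hS j)]
    refine (hray j (Nat.cast_nonneg j)).trans ?_
    have h2 : Real.exp (-(j : ℝ)) ≤ 1 := Real.exp_le_one_iff.mpr (by simp)
    have h3 := (FR_pos hinc y D.P.zero_mem).le
    nlinarith
  -- the norms go to infinity
  set ℓ := top η x1 with hℓ
  have hℓtop : top η ℓ = ℓ := top_top D.cartan hη x1
  have hLℓ : 0 < ‖L ℓ‖ := by
    rw [norm_pos_iff]
    intro h2
    exact hx1 (L.map_eq_zero_iff.mp h2)
  have hℓ0 : 0 < ‖ℓ‖ := norm_pos_iff.mpr hx1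
  have hexp : ∀ j : ℕ, Real.exp j * (‖ℓ‖ / ‖L ℓ‖) ≤ Real.exp ‖S j‖ := by
    intro j
    have h2 := norm_ex_le D.cartan (hSP j) (L ℓ)
    rw [hS j ℓ] at h2
    have h3 : Real.exp j * ‖ℓ‖ ≤ ‖ex (R j) ℓ‖ := by
      have h4 := norm_ex_smul_sq D.cartan hη h1 j ℓ
      refine le_of_sq_le_sq ?_ (norm_nonneg _)
      rw [h4, hℓtop, mul_pow, ← Real.exp_nat_mul]
      push_cast
      have : 0 ≤ ‖mid η ℓ‖ ^ 2 + Real.exp (-(2 * (j : ℝ))) * ‖bot η ℓ‖ ^ 2 := by positivity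
      linarith
    rw [← mul_div_assoc, div_le_iff₀ hLℓ]
    exact h3.trans h2
  have hinf : Tendsto (fun j => ‖S j‖) atTop atTop := by
    have h2 : Tendsto (fun j : ℕ => (j : ℝ) + Real.log (‖ℓ‖ / ‖L ℓ‖)) atTop atTop :=
      tendsto_atTop_add_const_right _ _ tendsto_natCast_atTop_atTop
    refine tendsto_atTop_mono (fun j => ?_) h2
    have h3 := Real.log_le_log (by positivity) (hexp j)
    rwa [Real.log_mul (by positivity) (by positivity), Real.log_exp, Real.log_exp] at h3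
  -- a subsequence of the directions converges
  obtain ⟨ζ, -, φ, hφ, hlim⟩ := (isCompact_closedBall (0 : V →L[ℝ] V) 1).tendsto_subseq
    (x := fun j => ‖S j‖⁻¹ • S j) (fun j => by
      rw [mem_closedBall_zero_iff, norm_smul, norm_inv, norm_norm]
      exact inv_mul_le_one)
  have hinf' : Tendsto (fun j => ‖S (φ j)‖) atTop atTop := hinf.comp hφ.tendsto_atTop
  have hζP : ζ ∈ D.P := by
    have hcl : IsClosed (D.P : Set (V →L[ℝ] V)) := Submodule.closed_of_finiteDimensional D.P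
    exact hcl.mem_of_tendsto hlim (Eventually.of_forall fun j => D.P.smul_mem _ (hSP (φ j)))
  have hζ1 : ‖ζ‖ = 1 := by
    have h2 : Tendsto (fun j => ‖‖S (φ j)‖⁻¹ • S (φ j)‖) atTop (𝓝 1) := by
      refine tendsto_const_nhds.congr' ?_
      filter_upwards [hinf'.eventually_gt_atTop 0] with j hj
      rw [norm_smul, norm_inv, norm_norm, inv_mul_cancel₀ hj.ne']
    exact tendsto_nhds_unique hlim.norm h2
  have hζη : ζ = η := by
    have h2 := ray_limit hinc (g • y) (S := fun j => S (φ j)) (fun j => hSP (φ j)) hinf'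
      (fun j => hB (φ j)) hlim
    have h3 := slab_of_ray hinc hζP hζ1 h2
    exact slab_unique hinc hζP hζ1 hη h1 (rad_ex_pos hinc _ D.P.zero_mem)
      (rad_ex_pos hinc _ D.P.zero_mem) h3 (h (g • y))
  subst hζη
  -- the two limits
  have hq := fun u => tendsto_ex (D := D) (S := fun j => S (φ j)) (fun j => hSP (φ j)) hinf' hη0
    hlim u
  have hRinf : Tendsto (fun j => ‖R (φ j)‖) atTop atTop := by
    simp only [hRn]
    exact tendsto_natCast_atTop_atTop.comp hφ.tendsto_atTop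
  have hRlim : Tendsto (fun j => ‖R (φ j)‖⁻¹ • R (φ j)) atTop (𝓝 ζ) := by
    refine tendsto_const_nhds.congr' ?_
    filter_upwards [hRinf.eventually_gt_atTop 0] with j hj
    rw [hRn] at hj ⊢
    rw [hR]
    simp only [smul_smul]
    rw [inv_mul_cancel₀ hj.ne', one_smul]
  have hp := fun u => tendsto_ex (D := D) (S := fun j => R (φ j)) (fun j => hRP (φ j)) hRinf hη0
    hRlim u
  have hcq : ∀ x j, Real.exp (‖S (φ j)‖ - ‖R (φ j)‖) *
      (Real.exp (-‖S (φ j)‖) * ‖ex (S (φ j)) (L x)‖) =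
      Real.exp (-‖R (φ j)‖) * ‖ex (R (φ j)) x‖ := by
    intro x j
    rw [hS (φ j) x, ← mul_assoc, ← Real.exp_add]
    congr 2
    ring
  set x0 := L.symm ℓ with hx0
  have hLx0 : L x0 = ℓ := L.apply_symm_apply ℓ
  have hqx0 : ‖top ζ (L x0)‖ ≠ 0 := by
    rw [hLx0, hℓtop]
    exact hℓ0.ne'
  set c := ‖top ζ x0‖ / ‖top ζ (L x0)‖ with hc
  have hclim : Tendsto (fun j => Real.exp (‖S (φ j)‖ - ‖R (φ j)‖)) atTop (𝓝 c) := by
    have h2 := (hp x0).div (hq (L x0)) hqx0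
    refine h2.congr' ?_
    filter_upwards [(hq (L x0)).eventually_ne hqx0] with j hj
    change Real.exp (-‖R (φ j)‖) * ‖ex (R (φ j)) x0‖ /
      (Real.exp (-‖S (φ j)‖) * ‖ex (S (φ j)) (L x0)‖) = _
    rw [← hcq x0 j, mul_div_assoc, div_self hj, mul_one]
  have hall : ∀ x, c * ‖top ζ (L x)‖ = ‖top ζ x‖ := by
    intro x
    have h2 := hclim.mul (hq (L x))
    refine tendsto_nhds_unique h2 ((hp x).congr fun j => ?_)
    exact (hcq x j).symm
  have hc0 : c ≠ 0 := by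
    intro h2
    have h3 := hall x1
    rw [h2, zero_mul] at h3
    exact hx1 (norm_eq_zero.mp h3.symm)
  have hcpos : 0 < c := lt_of_le_of_ne (by positivity) (Ne.symm hc0)
  refine ⟨c⁻¹, inv_pos.mpr hcpos, fun x => ?_⟩
  rw [← hall x, ← mul_assoc, inv_mul_cancel₀ hc0, one_mul]

end Pool.Agent.Helper2.RO
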