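import Mathlib
import Pool.Agent.Helper2.MK.Data
import Pool.Agent.Helper50.HL.Charts

/-!
# Compact affine manifolds with linear holonomy of rank one quadratic type: definitions

`V` is a finite-dimensional real inner product space and `P` a linear space of symmetric operators
`S` with `S ^ 3 = ‖S‖ ^ 2 • S` (eigenvalues `‖S‖`, `0`, `-‖S‖`), whose exponentials are closed under
`(A, B) ↦ A B A`.
-/

set_option autoImplicit false

open Set Filter Topology

namespace Pool.Agent.Helper2.RO

open Pool.Agent.Helper2.MK Pool.Agent.Helper50.HL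

section Op

variable {V : Type*} [NormedAddCommGroup V] [NormedSpace ℝ V]

/-- The exponential of an operator. -/
noncomputable def ex (S : V →L[ℝ] V) : V →L[ℝ] V := NormedSpace.exp S

/-- The spectral projection of `S` for the eigenvalue `‖S‖` (zero if `S = 0`). -/
noncomputable def top (S : V →L[ℝ] V) : V →L[ℝ] V :=
  (1 / 2 : ℝ) • ((‖S‖⁻¹ • S) * (‖S‖⁻¹ • S) + ‖S‖⁻¹ • S)

/-- The spectral projection of `S` for the eigenvalue `-‖S‖` (zero if `S = 0`). -/
noncomputable def bot (S : V →L[ℝ] V) : V →L[ℝ] V :=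
  (1 / 2 : ℝ) • ((‖S‖⁻¹ • S) * (‖S‖⁻¹ • S) - ‖S‖⁻¹ • S)

/-- The spectral projection of `S` for the eigenvalue `0` (the identity if `S = 0`). -/
noncomputable def mid (S : V →L[ℝ] V) : V →L[ℝ] V := 1 - (‖S‖⁻¹ • S) * (‖S‖⁻¹ • S)

end Op

section Cart

variable {V : Type*} [NormedAddCommGroup V] [InnerProductSpace ℝ V]

/-- `P` is a linear space of symmetric operators with `S ^ 3 = ‖S‖ ^ 2 • S`, whose exponentials are
closed under `(A, B) ↦ A B A`. -/
structure IsCartan (P : Submodule ℝ (V →L[ℝ] V)) : Prop where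
  symm : ∀ S ∈ P, ∀ x y : V, inner ℝ (S x) y = inner ℝ x (S y)
  cube : ∀ S ∈ P, S * S * S = (‖S‖ ^ 2) • S
  tri : ∀ S ∈ P, ∀ T ∈ P, ∃ R ∈ P, ex S * ex T * ex S = ex R

end Cart

section Rad

variable {V W Y : Type*} [NormedAddCommGroup V] [NormedSpace ℝ V] [NormedAddCommGroup W]
  [NormedSpace ℝ W] [TopologicalSpace Y]

/-- The radius of the largest open `T`-ball about `dev y` inside the star domain of `y`, where the
`T`-seminorm is `x ↦ ‖T x‖`. -/
noncomputable def rad (dev : Y → V) (y : Y) (T : V →L[ℝ] W) : ℝ :=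
  sInf ((fun b => ‖T (b - dev y)‖) '' (dom dev y)ᶜ)

/-- Contact points of the `T`-ball about `dev y`. -/
def IsContact (dev : Y → V) (y : Y) (T : V →L[ℝ] W) (b : V) : Prop :=
  b ∉ dom dev y ∧ ‖T (b - dev y)‖ = rad dev y T

/-- The inverse radius for the norm `x ↦ ‖exp(S) x‖`. -/
noncomputable def FR (dev : Y → V) (y : Y) (S : V →L[ℝ] V) : ℝ := (rad dev y (ex S))⁻¹

/-- The slab `‖top ζ (x - dev y)‖ < c` is contained in the star domain of `y`. -/
def Slab (dev : Y → V) (y : Y) (ζ : V →L[ℝ] V) (c : ℝ) : Prop :=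
  ∀ x, ‖top ζ (x - dev y)‖ < c → x ∈ dom dev y

end Rad

/-- A compact affine manifold together with a space `P` as above such that the linear holonomy
permutes the norms `x ↦ ‖exp(S) x‖`, `S ∈ P`. -/
structure ROData (V G Y : Type*) [NormedAddCommGroup V] [InnerProductSpace ℝ V] [Group G]
    [TopologicalSpace Y] [MulAction G Y] extends AffineDeveloping V G Y where
  /-- the Cartan part -/
  P : Submodule ℝ (V →L[ℝ] V)
  cartan : IsCartan P
  pres : ∀ (g : G), ∀ S ∈ P, ∃ S' ∈ P, ∀ x, ‖ex S' ((hol g).linear x)‖ = ‖ex S x‖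

end Pool.Agent.Helper2.RO
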