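import Pool.Agent.Helper2.RO.Main
import Pool.Agent.Helper2.RO.FormsLog

/-! Module Final: the two forms of the main theorem. -/

set_option autoImplicit false
set_option linter.unusedSectionVars false

open Set Filter Topology

namespace Pool.Agent.Helper2.RO

open Pool.Agent.Helper2.MK Pool.Agent.Helper50.HL

variable {V G Y : Type*} [NormedAddCommGroup V] [InnerProductSpace ℝ V] [FiniteDimensional ℝ V]
    [Group G] [TopologicalSpace Y] [T2Space Y] [ConnectedSpace Y] [MulAction G Y]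

theorem main_group (M : AffineDeveloping V G Y) (G₀ : Subgroup (V ≃L[ℝ] V))
    (P : Submodule ℝ (V →L[ℝ] V))
    (hadj : ∀ A ∈ G₀, ∃ B ∈ G₀, ∀ x y : V, inner ℝ (A x) y = inner ℝ x (B y))
    (hsym : ∀ S ∈ P, ∀ x y : V, inner ℝ (S x) y = inner ℝ x (S y))
    (hpos : ∀ A : V ≃L[ℝ] V, (A ∈ G₀ ∧ (A : V →L[ℝ] V).IsPositive) ↔
      ∃ S ∈ P, (A : V →L[ℝ] V) = NormedSpace.exp S)
    (hcube : ∀ S ∈ P, ∃ c : ℝ, S * S * S = c • S)
    (hlin : ∀ g : G, ∃ L ∈ G₀, ∀ x, (M.hol g).linear x = L x) :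
    ∃ E : Y ≃ₜ V, ⇑E = M.dev := by
  obtain ⟨D, hD, -⟩ := exists_data M G₀ P hadj hsym hpos hcube hlin
  obtain ⟨E, hE⟩ := main_data D
  exact ⟨E, by rw [hE, ← hD]⟩

omit [FiniteDimensional ℝ V] in
/-- If `A` acts irreducibly on `ker (J + 1)` then symmetric operators commuting with `A` and `J` are
scalar there. -/
theorem irr_of_irreducible [FiniteDimensional ℝ V] {J : V →L[ℝ] V} {A : Set (V →L[ℝ] V)}
    (hcomm : ∀ a ∈ A, a * J = J * a)
    (hirr : ∀ U : Submodule ℝ V, (∀ x ∈ U, J x = -x) → (∀ a ∈ A, ∀ x ∈ U, a x ∈ U) →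
      U = ⊥ ∨ ∀ x, J x = -x → x ∈ U)
    (B : V →L[ℝ] V) (hB : ∀ x y : V, inner ℝ (B x) y = inner ℝ x (B y))
    (hBA : ∀ a ∈ A, a * B = B * a) (hBJ : B * J = J * B) :
    ∃ c : ℝ, ∀ x, J x = -x → B x = c • x := by
  let E : Submodule ℝ V := LinearMap.ker ((J : V →ₗ[ℝ] V) + 1)
  have hE : ∀ x, x ∈ E ↔ J x = -x := by
    intro x
    rw [LinearMap.mem_ker, LinearMap.add_apply, Module.End.one_apply, add_eq_zero_iff_eq_neg]
    rfl
  have hBE : ∀ x ∈ E, B x ∈ E := by
    intro x hx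
    rw [hE] at hx ⊢
    have h1 : B (J x) = J (B x) := congrArg (fun T : V →L[ℝ] V => T x) hBJ
    rw [← h1, hx, map_neg]
  by_cases htriv : Subsingleton E
  · refine ⟨0, fun x hx => ?_⟩
    have h1 : (⟨x, (hE x).2 hx⟩ : E) = 0 := Subsingleton.elim _ _
    have h2 : x = 0 := congrArg Subtype.val h1
    rw [h2, map_zero, smul_zero]
  · have : Nontrivial E := not_subsingleton_iff_nontrivial.mp htriv
    have hsym : (B : V →ₗ[ℝ] V).IsSymmetric := hB
    have hsymE := hsym.restrict_invariant hBE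
    have hev := hsymE.hasEigenvalue_iSup_of_finiteDimensional
    obtain ⟨v, hv⟩ := hev.exists_hasEigenvector
    set c : ℝ := ⨆ x : { x : E // x ≠ 0 },
      RCLike.re (inner ℝ (((B : V →ₗ[ℝ] V).restrict hBE) x.1) x.1 : ℝ) / ‖x.1‖ ^ 2 with hc
    have hv1 := hv.apply_eq_smul
    have hv2 : B (v : V) = c • (v : V) := congrArg Subtype.val hv1
    let U : Submodule ℝ V := E ⊓ LinearMap.ker ((B : V →ₗ[ℝ] V) - c • (1 : V →ₗ[ℝ] V))
    have hU : ∀ x, x ∈ U ↔ J x = -x ∧ B x = c • x := by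
      intro x
      rw [Submodule.mem_inf, hE, LinearMap.mem_ker, LinearMap.sub_apply, LinearMap.smul_apply,
        Module.End.one_apply, sub_eq_zero]
      rfl
    rcases hirr U (fun x hx => ((hU x).1 hx).1) (fun a ha x hx => by
      rw [hU] at hx ⊢
      have h1 : a (J x) = J (a x) := congrArg (fun T : V →L[ℝ] V => T x) (hcomm a ha)
      have h2 : a (B x) = B (a x) := congrArg (fun T : V →L[ℝ] V => T x) (hBA a ha)
      refine ⟨by rw [← h1, hx.1, map_neg], by rw [← h2, hx.2, map_smul]⟩) with h | h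
    · exfalso
      have h1 : (v : V) ∈ U := (hU _).2 ⟨(hE _).1 v.2, hv2⟩
      rw [h, Submodule.mem_bot] at h1
      exact hv.2 (Subtype.ext h1)
    · exact ⟨c, fun x hx => ((hU x).1 (h x hx)).2⟩

/-- The case of a form: the linear holonomy preserves `⟪J x, y⟫`, where `J` is a symmetric
involution, and normalises a set `A` of operators which commute with `J` and act irreducibly on
`ker (J + 1)`. -/
theorem main_form (M : AffineDeveloping V G Y) (J : V →L[ℝ] V) (A : Set (V →L[ℝ] V))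
    (hJ : ∀ x y : V, inner ℝ (J x) y = inner ℝ x (J y)) (hJ2 : J * J = 1)
    (hcomm : ∀ a ∈ A, a * J = J * a)
    (hirr : ∀ U : Submodule ℝ V, (∀ x ∈ U, J x = -x) → (∀ a ∈ A, ∀ x ∈ U, a x ∈ U) →
      U = ⊥ ∨ ∀ x, J x = -x → x ∈ U)
    (hform : ∀ (g : G) (x y : V),
      inner ℝ (J ((M.hol g).linear x)) ((M.hol g).linear y) = inner ℝ (J x) y)
    (hnorm : ∀ g : G, ∀ a ∈ A, ∃ a' ∈ A, ∀ x,
      (M.hol g).linear (a x) = a' ((M.hol g).linear x)) :
    ∃ E : Y ≃ₜ V, ⇑E = M.dev := by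
  have h : IsRankOneForm J A := ⟨hJ, hJ2, hcomm, irr_of_irreducible hcomm hirr⟩
  refine main_group M (formGroup J A) (formP J A) (form_adj h) (fun S hS => hS.1)
    (fun L => ⟨fun hL => form_exp_of_pos h hL.1 hL.2, fun hL => form_pos_of_exp h L hL⟩)
    (form_cube h) ?_
  have key : ∀ (g : G) (a : V →L[ℝ] V), a ∈ A →
      (((M.hol g).linear.toContinuousLinearEquiv : V ≃L[ℝ] V) : V →L[ℝ] V) * a *
        (((M.hol g).linear.toContinuousLinearEquiv : V ≃L[ℝ] V).symm : V →L[ℝ] V) ∈ A := by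
    intro g a ha
    obtain ⟨a', ha', h1⟩ := hnorm g a ha
    have h2 : (((M.hol g).linear.toContinuousLinearEquiv : V ≃L[ℝ] V) : V →L[ℝ] V) * a *
        (((M.hol g).linear.toContinuousLinearEquiv : V ≃L[ℝ] V).symm : V →L[ℝ] V) = a' := by
      ext x
      show (M.hol g).linear (a ((M.hol g).linear.symm x)) = a' x
      rw [h1, LinearEquiv.apply_symm_apply]
    rw [h2]
    exact ha'
  intro g
  refine ⟨(M.hol g).linear.toContinuousLinearEquiv, ⟨hform g, fun a => ⟨key g a, fun ha => ?_⟩⟩,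
    fun x => rfl⟩
  have h3 := key g⁻¹ _ ha
  have hinv : ∀ x, (M.hol g⁻¹).linear x = (M.hol g).linear.symm x := by
    intro x
    rw [LinearEquiv.eq_symm_apply]
    exact lin_lin_inv M g x
  have hinv' : ∀ x, (M.hol g⁻¹).linear.symm x = (M.hol g).linear x := by
    intro x
    rw [LinearEquiv.symm_apply_eq]
    exact (lin_inv_lin M g x).symm
  convert h3 using 1
  ext x
  show a x = (M.hol g⁻¹).linear ((M.hol g).linear (a ((M.hol g).linear.symm
    ((M.hol g⁻¹).linear.symm x))))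
  rw [hinv', LinearEquiv.symm_apply_apply, hinv, LinearEquiv.symm_apply_apply]

end Pool.Agent.Helper2.RO
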