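import Pool.Agent.Helper2.RO.Cartan

/-! Module Forms: the group preserving the form `⟪J x, y⟫` (`J` a symmetric involution) and
normalising a set `A` of operators commuting with `J` satisfies the hypotheses of the main theorem
as soon as every symmetric operator commuting with `A` and `J` is a scalar on `ker (J + 1)`. -/

set_option autoImplicit false
set_option linter.unusedSectionVars false

open Set Filter Topology

namespace Pool.Agent.Helper2.RO

variable {V : Type*} [NormedAddCommGroup V] [InnerProductSpace ℝ V] [FiniteDimensional ℝ V]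

/-- The hypotheses on the form and the set of operators. -/
structure IsRankOneForm (J : V →L[ℝ] V) (A : Set (V →L[ℝ] V)) : Prop where
  symm : ∀ x y : V, inner ℝ (J x) y = inner ℝ x (J y)
  sq : J * J = 1
  comm : ∀ a ∈ A, a * J = J * a
  irr : ∀ B : V →L[ℝ] V, (∀ x y : V, inner ℝ (B x) y = inner ℝ x (B y)) →
    (∀ a ∈ A, a * B = B * a) → B * J = J * B → ∃ c : ℝ, ∀ x, J x = -x → B x = c • x

variable {J : V →L[ℝ] V} {A : Set (V →L[ℝ] V)}

/-- The group of the form: it preserves `⟪J x, y⟫` and normalises `A`. -/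
def formGroup (J : V →L[ℝ] V) (A : Set (V →L[ℝ] V)) : Subgroup (V ≃L[ℝ] V) where
  carrier := {L | (∀ x y, inner ℝ (J (L x)) (L y) = inner ℝ (J x) y) ∧
    ∀ a : V →L[ℝ] V, a ∈ A ↔ (L : V →L[ℝ] V) * a * (L.symm : V →L[ℝ] V) ∈ A}
  mul_mem' := by
    rintro L K ⟨h1, h2⟩ ⟨h3, h4⟩
    refine ⟨fun x y => ?_, fun a => ?_⟩
    · show inner ℝ (J (L (K x))) (L (K y)) = inner ℝ (J x) y
      rw [h1, h3]
    · rw [h4 a, h2]
      have e : ((L * K : V ≃L[ℝ] V) : V →L[ℝ] V) * a * ((L * K).symm : V →L[ℝ] V) =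
          (L : V →L[ℝ] V) * ((K : V →L[ℝ] V) * a * (K.symm : V →L[ℝ] V)) * (L.symm : V →L[ℝ] V) := by
        ext x
        rfl
      rw [e]
  one_mem' := by
    refine ⟨fun x y => rfl, fun a => ?_⟩
    have e : ((1 : V ≃L[ℝ] V) : V →L[ℝ] V) * a * ((1 : V ≃L[ℝ] V).symm : V →L[ℝ] V) = a := by
      ext x
      rfl
    rw [e]
  inv_mem' := by
    rintro L ⟨h1, h2⟩
    refine ⟨fun x y => ?_, fun a => ?_⟩
    · have h := h1 (L.symm x) (L.symm y)
      rw [L.apply_symm_apply, L.apply_symm_apply] at h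
      exact h.symm
    · have e : a = (L : V →L[ℝ] V) * (((L⁻¹ : V ≃L[ℝ] V) : V →L[ℝ] V) * a *
          ((L⁻¹ : V ≃L[ℝ] V).symm : V →L[ℝ] V)) * (L.symm : V →L[ℝ] V) := by
        ext x
        show a x = L (L.symm (a (L (L.symm x))))
        rw [L.apply_symm_apply, L.apply_symm_apply]
      constructor
      · intro ha
        rw [e] at ha
        exact (h2 _).2 ha
      · intro ha
        rw [e]
        exact (h2 _).1 ha

/-- The symmetric operators anticommuting with `J` and commuting with `A`. -/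
def formP (J : V →L[ℝ] V) (A : Set (V →L[ℝ] V)) : Submodule ℝ (V →L[ℝ] V) where
  carrier := {S | (∀ x y : V, inner ℝ (S x) y = inner ℝ x (S y)) ∧ S * J = -(J * S) ∧
    ∀ a ∈ A, a * S = S * a}
  add_mem' := by
    rintro S T ⟨h1, h2, h3⟩ ⟨g1, g2, g3⟩
    refine ⟨fun x y => ?_, ?_, fun a ha => ?_⟩
    · show inner ℝ (S x + T x) y = inner ℝ x (S y + T y)
      rw [inner_add_left, inner_add_right, h1, g1]
    · rw [add_mul, mul_add, h2, g2, neg_add]
    · rw [add_mul, mul_add, h3 a ha, g3 a ha]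
  zero_mem' := by
    refine ⟨fun x y => ?_, ?_, fun a ha => ?_⟩
    · show inner ℝ (0 : V) y = inner ℝ x (0 : V)
      rw [inner_zero_left, inner_zero_right]
    · rw [zero_mul, mul_zero, neg_zero]
    · rw [zero_mul, mul_zero]
  smul_mem' := by
    rintro c S ⟨h1, h2, h3⟩
    refine ⟨fun x y => ?_, ?_, fun a ha => ?_⟩
    · show inner ℝ (c • S x) y = inner ℝ x (c • S y)
      rw [real_inner_smul_left, real_inner_smul_right, h1]
    · rw [smul_mul_assoc, mul_smul_comm, h2, smul_neg]
    · rw [smul_mul_assoc, mul_smul_comm, h3 a ha]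

lemma form_JJ (h : IsRankOneForm J A) (x : V) : J (J x) = x :=
  congrArg (fun T : V →L[ℝ] V => T x) h.sq

/-- the involution as an equivalence -/
noncomputable def formJ (h : IsRankOneForm J A) : V ≃L[ℝ] V :=
  ContinuousLinearEquiv.equivOfInverse J J (form_JJ h) (form_JJ h)

lemma formJ_apply (h : IsRankOneForm J A) (x : V) : formJ h x = J x := rfl
lemma formJ_coe (h : IsRankOneForm J A) : (formJ h : V →L[ℝ] V) = J := by
  ext x
  rfl
lemma formJ_symm_coe (h : IsRankOneForm J A) : ((formJ h).symm : V →L[ℝ] V) = J := by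
  ext x
  rfl

lemma formJ_mem (h : IsRankOneForm J A) : formJ h ∈ formGroup J A := by
  refine ⟨fun x y => ?_, fun a => ?_⟩
  · rw [formJ_apply, formJ_apply, form_JJ h, ← h.symm]
  · rw [formJ_coe, formJ_symm_coe]
    constructor
    · intro ha
      rw [← h.comm a ha, mul_assoc, h.sq, mul_one]
      exact ha
    · intro ha
      have h1 : J * a * J * J = J * (J * a * J) := h.comm _ ha
      have h2 : J * a * J * J = J * a := by rw [mul_assoc, h.sq, mul_one]
      have h3 : J * (J * a * J) = a * J := by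
        rw [← mul_assoc, ← mul_assoc, h.sq, one_mul]
      rw [h2, h3] at h1
      rw [h1, mul_assoc, h.sq, mul_one] at ha
      exact ha

/-- closed under adjoints: the adjoint of `L` is `J L⁻¹ J`. -/
theorem form_adj (h : IsRankOneForm J A) : ∀ L ∈ formGroup J A, ∃ B ∈ formGroup J A,
    ∀ x y : V, inner ℝ (L x) y = inner ℝ x (B y) := by
  intro L hL
  refine ⟨formJ h * L⁻¹ * formJ h, mul_mem (mul_mem (formJ_mem h) (inv_mem hL)) (formJ_mem h), ?_⟩
  intro x y
  show inner ℝ (L x) y = inner ℝ x (J (L.symm (J y)))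
  have h1 := hL.1 x (L.symm (J y))
  rw [L.apply_symm_apply] at h1
  rw [← h.symm x, ← h1, h.symm (L x) (J y), form_JJ h]

/-- `S ^ 2` commutes with `A` and `J`, so it is a scalar `c` on `ker (J + 1)`; on `ker (J - 1)` use
`S x ∈ ker (J + 1)`. -/
theorem form_cube (h : IsRankOneForm J A) : ∀ S ∈ formP J A, ∃ c : ℝ, S * S * S = c • S := by
  intro S hS
  obtain ⟨h1, h2, h3⟩ := hS
  have hSJ : ∀ x, S (J x) = -J (S x) := fun x => congrArg (fun T : V →L[ℝ] V => T x) h2
  obtain ⟨c, hc⟩ := h.irr (S * S) (fun x y => by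
      show inner ℝ (S (S x)) y = inner ℝ x (S (S y))
      rw [h1, h1]) (fun a ha => by rw [← mul_assoc, h3 a ha, mul_assoc, h3 a ha, mul_assoc])
      (by rw [mul_assoc, h2, mul_neg, ← mul_assoc, h2, neg_mul, neg_neg, mul_assoc])
  refine ⟨c, ?_⟩
  have hc' : ∀ x, J x = -x → S (S x) = c • x := hc
  ext x
  show S (S (S x)) = c • S x
  have hm : J ((1 / 2 : ℝ) • (x - J x)) = -((1 / 2 : ℝ) • (x - J x)) := by
    rw [map_smul, map_sub, form_JJ h, ← smul_neg, neg_sub]
  have hp : J ((1 / 2 : ℝ) • (x + J x)) = (1 / 2 : ℝ) • (x + J x) := by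
    rw [map_smul, map_add, form_JJ h, add_comm]
  have hx : x = (1 / 2 : ℝ) • (x - J x) + (1 / 2 : ℝ) • (x + J x) := by
    rw [← smul_add, sub_add_add_cancel, ← two_smul ℝ x, smul_smul]
    norm_num
  have e1 : S (S (S ((1 / 2 : ℝ) • (x - J x)))) = c • S ((1 / 2 : ℝ) • (x - J x)) := by
    rw [hc' _ hm, map_smul]
  have e2 : S (S (S ((1 / 2 : ℝ) • (x + J x)))) = c • S ((1 / 2 : ℝ) • (x + J x)) := by
    apply hc'
    have h4 := hSJ ((1 / 2 : ℝ) • (x + J x))
    rw [hp] at h4
    have h5 := congrArg Neg.neg h4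
    rw [neg_neg] at h5
    exact h5.symm
  calc S (S (S x)) = S (S (S ((1 / 2 : ℝ) • (x - J x)))) + S (S (S ((1 / 2 : ℝ) • (x + J x)))) := by
        conv_lhs => rw [hx]
        rw [map_add, map_add, map_add]
    _ = c • S ((1 / 2 : ℝ) • (x - J x)) + c • S ((1 / 2 : ℝ) • (x + J x)) := by rw [e1, e2]
    _ = c • S x := by
        rw [← smul_add, ← map_add, ← hx]

/-- exponentials of `formP` are positive elements of the group. -/
theorem form_pos_of_exp (h : IsRankOneForm J A) (L : V ≃L[ℝ] V)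
    (hL : ∃ S ∈ formP J A, (L : V →L[ℝ] V) = NormedSpace.exp S) :
    L ∈ formGroup J A ∧ (L : V →L[ℝ] V).IsPositive := by
  have : CompleteSpace V := FiniteDimensional.complete ℝ V
  obtain ⟨S, ⟨h1, h2, h3⟩, hLS⟩ := hL
  let _ : NormedAlgebra ℚ (V →L[ℝ] V) := NormedAlgebra.restrictScalars ℚ ℝ (V →L[ℝ] V)
  have hsa : ∀ T : V →L[ℝ] V, (∀ x y : V, inner ℝ (T x) y = inner ℝ x (T y)) →
      ∀ x y : V, inner ℝ (NormedSpace.exp T x) y = inner ℝ x (NormedSpace.exp T y) := by
    intro T hT
    have g1 : IsSelfAdjoint T := ContinuousLinearMap.isSelfAdjoint_iff_isSymmetric.2 hT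
    have g2 : IsSelfAdjoint (NormedSpace.exp T) := g1.exp
    exact ContinuousLinearMap.isSelfAdjoint_iff_isSymmetric.1 g2
  have hinv : ∀ x, NormedSpace.exp (-S) (L x) = x := by
    intro x
    have g : NormedSpace.exp (-S) * NormedSpace.exp S = (1 : V →L[ℝ] V) := by
      rw [← NormedSpace.exp_add_of_commute (Commute.refl S).neg_left, neg_add_cancel,
        NormedSpace.exp_zero]
    have g' := congrArg (fun T : V →L[ℝ] V => T x) g
    have e : L x = NormedSpace.exp S x := congrArg (fun T : V →L[ℝ] V => T x) hLS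
    rw [e]
    exact g'
  refine ⟨⟨fun x y => ?_, fun a => ?_⟩, ?_⟩
  · have hsemi : SemiconjBy J S (-S) := by
      show J * S = -S * J
      rw [neg_mul, h2, neg_neg]
    have g1 : J * NormedSpace.exp S = NormedSpace.exp (-S) * J := hsemi.exp_right
    have g2 : J (L x) = NormedSpace.exp (-S) (J x) := by
      have e : L x = NormedSpace.exp S x := congrArg (fun T : V →L[ℝ] V => T x) hLS
      rw [e]
      exact congrArg (fun T : V →L[ℝ] V => T x) g1
    rw [g2, hsa (-S) (fun x y => by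
      show inner ℝ (-S x) y = inner ℝ x (-S y)
      rw [inner_neg_left, inner_neg_right, h1]), hinv]
  · have hcomm : ∀ b ∈ A, (L : V →L[ℝ] V) * b = b * (L : V →L[ℝ] V) := by
      intro b hb
      have g : Commute b S := h3 b hb
      rw [hLS]
      exact (g.exp_right).eq.symm
    have hLL : (L : V →L[ℝ] V) * (L.symm : V →L[ℝ] V) = 1 := by
      ext x
      exact L.apply_symm_apply x
    have hLL' : (L.symm : V →L[ℝ] V) * (L : V →L[ℝ] V) = 1 := by
      ext x
      exact L.symm_apply_apply x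
    constructor
    · intro ha
      rw [hcomm a ha, mul_assoc, hLL, mul_one]
      exact ha
    · intro ha
      have g := hcomm _ ha
      have g1 : (L : V →L[ℝ] V) * ((L : V →L[ℝ] V) * a * (L.symm : V →L[ℝ] V)) =
          (L : V →L[ℝ] V) * a := by
        rw [g, mul_assoc, hLL', mul_one]
      have g2 : (L.symm : V →L[ℝ] V) * ((L : V →L[ℝ] V) * ((L : V →L[ℝ] V) * a *
          (L.symm : V →L[ℝ] V))) = (L.symm : V →L[ℝ] V) * ((L : V →L[ℝ] V) * a) := by rw [g1]
      rw [← mul_assoc, hLL', one_mul, ← mul_assoc, hLL', one_mul] at g2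
      rw [g2] at ha
      exact ha
  · rw [ContinuousLinearMap.isPositive_iff]
    refine ⟨fun x y => ?_, fun x => ?_⟩
    · rw [hLS]
      exact hsa S h1 x y
    · have hhalf : NormedSpace.exp S = NormedSpace.exp ((1 / 2 : ℝ) • S) *
          NormedSpace.exp ((1 / 2 : ℝ) • S) := by
        rw [← NormedSpace.exp_add_of_commute (Commute.refl _), ← add_smul]
        norm_num
      have hs : ∀ x y : V, inner ℝ (NormedSpace.exp ((1 / 2 : ℝ) • S) x) y =
          inner ℝ x (NormedSpace.exp ((1 / 2 : ℝ) • S) y) := by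
        apply hsa
        intro x y
        show inner ℝ ((1 / 2 : ℝ) • S x) y = inner ℝ x ((1 / 2 : ℝ) • S y)
        rw [real_inner_smul_left, real_inner_smul_right, h1]
      rw [hLS, hhalf]
      show 0 ≤ inner ℝ (NormedSpace.exp ((1 / 2 : ℝ) • S) (NormedSpace.exp ((1 / 2 : ℝ) • S) x)) x
      rw [hs]
      exact real_inner_self_nonneg

end Pool.Agent.Helper2.RO
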