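import Pool.Agent.Helper2.RO.ZoomB

/-! Module Zoom: compact unimodular affine manifolds with slabs around every point and holonomy
acting by similarities on the quotient are complete. -/

set_option autoImplicit false
set_option linter.unusedSectionVars false

open Set Filter Topology

namespace Pool.Agent.Helper2.RO

open Pool.Agent.Helper2.MK Pool.Agent.Helper50.HL

section Half

variable {V W : Type*} [NormedAddCommGroup V] [NormedSpace ℝ V]
    [NormedAddCommGroup W] [InnerProductSpace ℝ W]

theorem isOpen_half (F : V →L[ℝ] W) (b : V) (u : W) :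
    IsOpen {x | 0 < inner ℝ (F (x - b)) u} := by
  refine isOpen_lt continuous_const ?_
  fun_prop

theorem convex_half (F : V →L[ℝ] W) (b : V) (u : W) :
    Convex ℝ {x | 0 < inner ℝ (F (x - b)) u} := by
  intro x1 h1 x2 h2 a1 a2 ha1 ha2 ha
  have h1' : 0 < inner ℝ (F (x1 - b)) u := h1
  have h2' : 0 < inner ℝ (F (x2 - b)) u := h2
  show 0 < inner ℝ (F (a1 • x1 + a2 • x2 - b)) u
  have e : F (a1 • x1 + a2 • x2 - b) = a1 • F (x1 - b) + a2 • F (x2 - b) := by
    have ha' : a2 = 1 - a1 := by linarith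
    subst ha'
    simp only [map_sub, map_add, map_smul]
    module
  rw [e, inner_add_left, real_inner_smul_left, real_inner_smul_left]
  rcases eq_or_lt_of_le ha1 with h | h
  · have : a2 = 1 := by linarith
    rw [← h, this]
    linarith
  · have h3 : 0 < a1 * inner ℝ (F (x1 - b)) u := mul_pos h h1'
    have h4 : 0 ≤ a2 * inner ℝ (F (x2 - b)) u := mul_nonneg ha2 h2'.le
    linarith

end Half

section B

variable {V W G Y : Type*} [NormedAddCommGroup V] [NormedSpace ℝ V] [FiniteDimensional ℝ V]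
    [NormedAddCommGroup W] [InnerProductSpace ℝ W] [FiniteDimensional ℝ W]
    [Group G] [TopologicalSpace Y] [T2Space Y] [MulAction G Y] {M : AffineDeveloping V G Y}
    {F : V →L[ℝ] W} (hF : Function.Surjective F)
    (hslab : ∀ y, ∃ c > 0, ∀ x, ‖F (x - M.dev y)‖ < c → x ∈ dom M.dev y)
    (hsim : ∀ g, ∃ κ > 0, ∀ x, ‖F (lin M g x)‖ = κ * ‖F x‖)
    (hinc : ∀ y, dom M.dev y ≠ univ)
include hF hslab hsim hinc

theorem norm_contact {y : Y} {b : V} (hb : IsContact M.dev y F b) :
    ‖F (M.dev y - b)‖ = rad M.dev y F := by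
  rw [← hb.2, ← norm_neg, ← map_neg, neg_sub]

/-- F2: uniqueness of the contact modulo `ker F` -/
theorem contact_unique {y : Y} {b b' : V} (hb : IsContact M.dev y F b)
    (hb' : IsContact M.dev y F b') : F b = F b' := by
  by_contra hne
  apply hb'.1
  refine halfspace hF hslab hsim hinc hb ?_
  have h1 := norm_contact hF hslab hsim hinc hb
  have h2 := norm_contact hF hslab hsim hinc hb'
  have h3 : F (M.dev y - b') = F (M.dev y - b) - F (b' - b) := by
    rw [← map_sub]; congr 1; abel
  have h4 : ‖F (M.dev y - b')‖ ^ 2 = ‖F (M.dev y - b)‖ ^ 2 := by rw [h1, h2]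
  rw [h3, norm_sub_sq_real, real_inner_comm] at h4
  have h5 : 0 < ‖F (b' - b)‖ := by
    rw [norm_pos_iff, map_sub, sub_ne_zero]
    exact fun h => hne h.symm
  nlinarith

theorem contact_dom {y : Y} {b : V} (hb : IsContact M.dev y F b) :
    {x | 0 < inner ℝ (F (x - b)) (F (M.dev y - b))} ⊆ dom M.dev y := fun _ hx =>
  halfspace hF hslab hsim hinc hb hx

theorem dev_mem_half {y : Y} {b : V} (hb : IsContact M.dev y F b) :
    M.dev y ∈ {x | 0 < inner ℝ (F (x - b)) (F (M.dev y - b))} := by
  show 0 < inner ℝ (F (M.dev y - b)) (F (M.dev y - b))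
  rw [real_inner_self_eq_norm_sq, norm_contact hF hslab hsim hinc hb]
  exact pow_pos (radF_pos M.dev_local hslab hinc y) 2

/-- F2: Lipschitz dependence -/
theorem contact_lip (y : Y) : ∃ U ∈ 𝓝 y, ∀ a ∈ U, ∀ a' ∈ U, ∀ b b', IsContact M.dev a F b →
    IsContact M.dev a' F b' → ‖F b - F b'‖ ≤ ‖F (M.dev a) - F (M.dev a')‖ := by
  have hdev := M.dev_local
  have hcpos : ∀ y, 0 < rad M.dev y F := radF_pos hdev hslab hinc
  have hccont : Continuous fun y => rad M.dev y F := radF_continuous hdev hslab hinc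
  set c := rad M.dev y F with hc
  set D : Set V := {x | ‖F (x - M.dev y)‖ < c} with hD
  have hDo : IsOpen D := isOpen_tball F _ _
  have hDc : Convex ℝ D := convex_tball F _ _
  have hDy : M.dev y ∈ D := by
    show ‖F (M.dev y - M.dev y)‖ < c
    rw [sub_self, map_zero, norm_zero]; exact hcpos y
  have hDd : D ⊆ dom M.dev y := fun x hx => mem_dom_of_lt hx
  have h1 := near_convex hdev hDo hDc hDy hDd
  have h2 := near hdev y
  have h3 : ∀ᶠ a in 𝓝 y, c / 2 < rad M.dev a F :=
    (hccont.tendsto y).eventually_const_lt (by linarith [hcpos y])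
  have h4 : ∀ᶠ a in 𝓝 y, ‖F (M.dev a - M.dev y)‖ < c / 4 := by
    have h5 : Continuous fun a => ‖F (M.dev a - M.dev y)‖ := by
      have := hdev.continuous
      fun_prop
    refine (h5.tendsto y).eventually_lt_const ?_
    rw [sub_self, map_zero, norm_zero]
    linarith [hcpos y]
  refine ⟨_, ((h1.and h2).and (h3.and h4)), ?_⟩
  rintro a ⟨⟨a1, a2⟩, a3, a4⟩ a' ⟨⟨a1', a2'⟩, a3', a4'⟩ b b' hb hb'
  -- mutual visibility
  have key : ∀ a a' b b', D ⊆ dom M.dev a ∧ EqOn (sec M.dev a) (sec M.dev y) D →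
      sec M.dev y (M.dev a') = a' → c / 2 < rad M.dev a F → ‖F (M.dev a - M.dev y)‖ < c / 4 →
      ‖F (M.dev a' - M.dev y)‖ < c / 4 → IsContact M.dev a F b → IsContact M.dev a' F b' →
      inner ℝ (F (b' - b)) (F (M.dev a - b)) ≤ 0 := by
    intro a a' b b' k1 k2 k3 k4 k5 kb kb'
    by_contra hcon
    push Not at hcon
    apply kb'.1
    have ha'D : M.dev a' ∈ D := by
      show ‖F (M.dev a' - M.dev y)‖ < c
      linarith [hcpos y]
    have k6 : sec M.dev a (M.dev a') = a' := by rw [k1.2 ha'D, k2]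
    have k7 : M.dev a' ∈ {x | 0 < inner ℝ (F (x - b)) (F (M.dev a - b))} := by
      show 0 < inner ℝ (F (M.dev a' - b)) (F (M.dev a - b))
      have e1 : M.dev a' - b = (M.dev a' - M.dev a) + (M.dev a - b) := by abel
      rw [e1, map_add, inner_add_left, real_inner_self_eq_norm_sq,
        norm_contact hF hslab hsim hinc kb]
      have e2 : ‖F (M.dev a' - M.dev a)‖ < c / 2 := by
        have e3 : M.dev a' - M.dev a = (M.dev a' - M.dev y) - (M.dev a - M.dev y) := by abel
        rw [e3, map_sub]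
        refine (norm_sub_le _ _).trans_lt ?_
        linarith
      have e4 := neg_le_of_abs_le (abs_real_inner_le_norm (F (M.dev a' - M.dev a))
        (F (M.dev a - b)))
      rw [norm_contact hF hslab hsim hinc kb] at e4
      have e5 := hcpos a
      nlinarith
    have k8 := rebase hdev (isOpen_half F b (F (M.dev a - b))) (convex_half F b _)
      (dev_mem_half hF hslab hsim hinc kb) (contact_dom hF hslab hsim hinc kb) k7
    rw [k6] at k8
    exact k8.1 hcon
  have i1 := key a a' b b' a1 a2'.2.1 a3 a4 a4' hb hb'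
  have i2 := key a' a b' b a1' a2.2.1 a3' a4' a4 hb' hb
  have e1 : F (b' - b) = F b' - F b := map_sub _ _ _
  have e2 : F (b - b') = -(F b' - F b) := by rw [map_sub]; abel
  have e3 : F (M.dev a - b) = F (M.dev a) - F b := map_sub _ _ _
  have e4 : F (M.dev a' - b') = F (M.dev a') - F b' := map_sub _ _ _
  rw [e1, e3] at i1
  rw [e2, e4, inner_neg_left] at i2
  have i3 : inner ℝ (F b' - F b) (F b' - F b) ≤
      inner ℝ (F b' - F b) (F (M.dev a') - F (M.dev a)) := by
    have e5 : F b' - F b = (F (M.dev a) - F b) - (F (M.dev a') - F b') +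
      (F (M.dev a') - F (M.dev a)) := by abel
    calc inner ℝ (F b' - F b) (F b' - F b)
        = inner ℝ (F b' - F b) ((F (M.dev a) - F b) - (F (M.dev a') - F b') +
            (F (M.dev a') - F (M.dev a))) := by rw [← e5]
      _ = inner ℝ (F b' - F b) (F (M.dev a) - F b) - inner ℝ (F b' - F b)
            (F (M.dev a') - F b') + inner ℝ (F b' - F b) (F (M.dev a') - F (M.dev a)) := by
          rw [inner_add_right, inner_sub_right]
      _ ≤ _ := by linarith
  rw [real_inner_self_eq_norm_sq] at i3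
  have i4 := real_inner_le_norm (F b' - F b) (F (M.dev a') - F (M.dev a))
  rw [norm_sub_rev (F b) (F b'), norm_sub_rev (F (M.dev a))]
  rcases eq_or_lt_of_le (norm_nonneg (F b' - F b)) with h0 | h0
  · rw [← h0]; exact norm_nonneg _
  · refine le_of_mul_le_mul_left ?_ h0
    nlinarith

/-- F2: the ray property -/
theorem contact_ray (y : Y) {b : V} (hb : IsContact M.dev y F b) :
    ∀ᶠ a in 𝓝 y, ∀ s : ℝ, 0 < s → s < 1 →
      F (M.dev a) = F (M.dev y) + s • (F b - F (M.dev y)) →
      ∀ b', IsContact M.dev a F b' → F b' = F b := by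
  have hdev := M.dev_local
  have hcpos : ∀ y, 0 < rad M.dev y F := radF_pos hdev hslab hinc
  have hnc := norm_contact hF hslab hsim hinc hb
  filter_upwards [near hdev y, near_convex hdev (isOpen_half F b (F (M.dev y - b)))
    (convex_half F b _) (dev_mem_half hF hslab hsim hinc hb)
    (contact_dom hF hslab hsim hinc hb)] with a h1 h2 s hs hs1 hFa b' hb'
  set c := rad M.dev y F with hc
  have hFab : F (M.dev a - b) = (1 - s) • F (M.dev y - b) := by
    rw [map_sub, map_sub, hFa]
    module
  have hn : ‖F (b - M.dev a)‖ = (1 - s) * c := by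
    rw [← norm_neg, ← map_neg, neg_sub, hFab, norm_smul, Real.norm_of_nonneg (by linarith), hnc]
  have hrad : (1 - s) * c ≤ rad M.dev a F := by
    refine le_rad hinc fun x hx => h2.1 ?_
    show 0 < inner ℝ (F (x - b)) (F (M.dev y - b))
    have e1 : x - b = (x - M.dev a) + (M.dev a - b) := by abel
    rw [e1, map_add, hFab, inner_add_left, real_inner_smul_left, real_inner_self_eq_norm_sq, hnc]
    have e4 := neg_le_of_abs_le (abs_real_inner_le_norm (F (x - M.dev a)) (F (M.dev y - b)))
    rw [hnc] at e4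
    have e5 := hcpos y
    nlinarith
  have hbn : b ∉ dom M.dev a := by
    intro hba
    apply hb.1
    set b1 : V := M.dev y + s⁻¹ • (M.dev a - M.dev y) with hb1
    have hFb1 : F b1 = F b := by
      rw [hb1, map_add, map_smul, map_sub, hFa, add_sub_cancel_left, smul_smul,
        inv_mul_cancel₀ hs.ne', one_smul, add_sub_cancel]
    have hb1a : b1 ∈ dom M.dev a := saturated hdev hslab hba hFb1.symm
    refine saturated hdev hslab (x := b1) ?_ hFb1
    obtain ⟨C, hC, hCc, haC, hbC, t, ht, hta⟩ := hb1a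
    refine mem_dom_of_ray hdev h1.1 ?_ hC hCc haC ?_ hbC
    · refine ⟨1 - s, s, by linarith, hs.le, by ring, ?_⟩
      rw [hb1, smul_add, smul_smul, mul_inv_cancel₀ hs.ne']
      module
    · rw [h1.2.1]
      exact (chart_convex hdev hC hCc haC ht hta).1
  have hba : IsContact M.dev a F b := ⟨hbn, le_antisymm (by rw [hn]; exact hrad) (rad_le hbn)⟩
  exact contact_unique hF hslab hsim hinc hb' hba

theorem slab_false [Nonempty Y] : False := by
  have hdev := M.dev_local
  have hcpos : ∀ y, 0 < rad M.dev y F := radF_pos hdev hslab hinc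
  have hex := exists_contactF hdev hslab hinc hF
  choose b hb using hex
  choose κ hκ hsim' using hsim
  have hsim0 : ∀ g, ∃ κ > 0, ∀ x, ‖F (lin M g x)‖ = κ * ‖F x‖ := fun g => ⟨κ g, hκ g, hsim' g⟩
  obtain ⟨σ₀, hσ₀⟩ := (F : V →ₗ[ℝ] W).exists_rightInverse_of_surjective
    (LinearMap.range_eq_top.mpr hF)
  have hσ : ∀ c, F (σ₀ c) = c := fun c => by
    have := congrArg (fun T : W →ₗ[ℝ] W => T c) hσ₀
    exact this
  let A : G → W →L[ℝ] W := fun g => LinearMap.toContinuousLinearMap
    ((F : V →ₗ[ℝ] W) ∘ₗ ((lin M g : V ≃ₗ[ℝ] V) : V →ₗ[ℝ] V) ∘ₗ σ₀)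
  have hA : ∀ g x, F ((M.hol g).linear x) = A g (F x) := by
    intro g x
    show F (lin M g x) = F (lin M g (σ₀ (F x)))
    rw [← sub_eq_zero, ← map_sub, ← map_sub, ← norm_eq_zero, hsim', map_sub, hσ, sub_self,
      norm_zero, mul_zero]
  refine no_quotient_projection M F hF A hA (fun y => F (b y)) ?_ ?_ ?_ ?_
  · intro g y
    have h1 : IsContact M.dev (g • y) F (M.hol g (b y)) := by
      refine ⟨fun h => (hb y).1 ((dom_smul M g y _).1 h), ?_⟩
      rw [rad_smul M g y (hκ g).le (hsim' g), ← (hb y).2, M.dev_smul, hol_sub, hsim' g]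
    show F (b (g • y)) - F (M.dev (g • y)) = _
    rw [contact_unique hF hslab hsim0 hinc (hb (g • y)) h1, ← map_sub, M.dev_smul, hol_sub,
      lin_def, hA, map_sub]
  · intro y
    obtain ⟨U, hU, h⟩ := contact_lip hF hslab hsim0 hinc y
    refine ⟨U, hU, 1, fun a ha a' ha' => ?_⟩
    rw [one_mul]
    exact h a ha a' ha' _ _ (hb a) (hb a')
  · intro y h
    have h1 := (hb y).2
    rw [map_sub, show F (b y) = F (M.dev y) from h, sub_self, norm_zero] at h1
    exact (hcpos y).ne h1
  · intro y
    filter_upwards [contact_ray hF hslab hsim0 hinc y (hb y)] with a ha s hs hs1 h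
    exact ha s hs hs1 h _ (hb a)

end B

end Pool.Agent.Helper2.RO
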