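import Pool.Agent.Helper2.RO.Base
import Pool.Agent.Helper2.RO.CaseFa
import Pool.Agent.Helper2.RO.Zoom
import Pool.Agent.Helper2.RO.Cartan

/-! Module Main: assembly. -/

set_option autoImplicit false
set_option linter.unusedSectionVars false

open Set Filter Topology

namespace Pool.Agent.Helper2.RO

open Pool.Agent.Helper2.MK Pool.Agent.Helper50.HL

variable {V G Y : Type*} [NormedAddCommGroup V] [InnerProductSpace ℝ V] [FiniteDimensional ℝ V]
    [Group G] [TopologicalSpace Y] [T2Space Y] [ConnectedSpace Y] [MulAction G Y]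

theorem caseF {D : ROData V G Y} (hinc : ∀ y, dom D.dev y ≠ univ)
    (h : ∀ y, ∀ ε > 0, ∃ S ∈ D.P, FR D.dev y S < ε) : False := by
  obtain ⟨η, hη, h1, hslab⟩ := exists_eta hinc h
  have hsim := similar hinc hη h1 hslab
  set W : Submodule ℝ V := LinearMap.range (top η : V →ₗ[ℝ] V) with hW
  let F : V →L[ℝ] W := (top η).codRestrict W fun x => ⟨x, rfl⟩
  have hF : ∀ x, ‖F x‖ = ‖top η x‖ := fun x => rfl
  have hsurj : Function.Surjective F := by
    rintro ⟨_, x, rfl⟩
    exact ⟨x, rfl⟩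
  refine slab_false (M := D.toAffineDeveloping) (F := F) hsurj ?_ ?_ hinc
  · intro y
    refine ⟨rad D.dev y (ex 0), rad_ex_pos hinc y D.P.zero_mem, fun x hx => hslab y x ?_⟩
    rwa [hF] at hx
  · intro g
    obtain ⟨κ, hκ, hk⟩ := hsim g
    refine ⟨κ, hκ, fun x => ?_⟩
    rw [hF, hF]
    exact hk x

theorem main_data (D : ROData V G Y) : ∃ E : Y ≃ₜ V, ⇑E = D.dev := by
  by_cases hinc : ∀ y, dom D.dev y ≠ univ
  · exfalso
    by_cases h : ∃ y, ∃ ε > 0, ∀ S ∈ D.P, ε ≤ FR D.dev y S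
    · exact caseE hinc h
    · push Not at h
      exact caseF hinc h
  · push Not at hinc
    obtain ⟨y, hy⟩ := hinc
    exact complete_of_dom_univ D.dev_local hy

end Pool.Agent.Helper2.RO
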