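import Pool.Agent.Helper2.RO.Rad
import Pool.Agent.Helper2.RO.Aff
import Pool.Agent.Helper2.MK.Quot

/-! Module ZoomA: star domains saturated by slabs. -/

set_option autoImplicit false
set_option linter.unusedSectionVars false

open Set Filter Topology

namespace Pool.Agent.Helper2.RO

open Pool.Agent.Helper2.MK Pool.Agent.Helper50.HL

section A

variable {V W Y : Type*} [NormedAddCommGroup V] [NormedSpace ℝ V] [FiniteDimensional ℝ V]
    [NormedAddCommGroup W] [InnerProductSpace ℝ W] [FiniteDimensional ℝ W]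
    [TopologicalSpace Y] [T2Space Y] {dev : Y → V} (hdev : IsLocalHomeomorph dev)
    {F : V →L[ℝ] W} (hslab : ∀ y, ∃ c > 0, ∀ x, ‖F (x - dev y)‖ < c → x ∈ dom dev y)
include hdev hslab

/-- the saturation of a convex chart, with the section -/
theorem saturated_chart {y : Y} {C : Set V} (hC : IsOpen C) (hconv : Convex ℝ C)
    (hy : dev y ∈ C) (hCd : C ⊆ dom dev y) : F ⁻¹' (F '' C) ⊆ dom dev y := by
  classical
  choose c hc hcs using hslab
  set C' : Set V := F ⁻¹' (F '' C) with hC'
  have hCC' : C ⊆ C' := fun x hx => ⟨x, hx, rfl⟩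
  have hC'o : IsOpen C' := by
    rw [isOpen_iff_mem_nhds]
    rintro p ⟨q, hq, hqp⟩
    have h1 : Tendsto (fun p' : V => q + (p' - p)) (𝓝 p) (𝓝 q) := by
      have h2 : Continuous fun p' : V => q + (p' - p) := by fun_prop
      simpa using h2.tendsto p
    filter_upwards [h1.eventually (hC.mem_nhds hq)] with p' hp'
    refine ⟨q + (p' - p), hp', ?_⟩
    rw [map_add, map_sub, hqp]
    abel
  have hC'c : Convex ℝ C' :=
    (hconv.linear_image (F : V →ₗ[ℝ] W)).linear_preimage (F : V →ₗ[ℝ] W)
  -- the basic agreement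
  have key : ∀ q ∈ C, ∀ q' ∈ C, ∀ p, ‖F (q' - q)‖ < c (sec dev y q) →
      ‖F (p - q)‖ < c (sec dev y q) →
      p ∈ dom dev (sec dev y q') ∧ sec dev (sec dev y q') p = sec dev (sec dev y q) p := by
    intro q hq q' hq' p h1 h2
    have hdq : dev (sec dev y q) = q := dev_sec hdev (hCd hq)
    have e1 := rebase hdev hC hconv hy hCd hq
    have e2 : sec dev (sec dev y q) q' = sec dev y q' := e1.2 hq'
    have e3 := rebase hdev (y := sec dev y q) (C := {x | ‖F (x - q)‖ < c (sec dev y q)})
      (isOpen_tball F _ _) (convex_tball F _ _) (by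
        show ‖F (dev (sec dev y q) - q)‖ < _
        rw [hdq, sub_self, map_zero, norm_zero]
        exact hc _) (by
        intro x hx
        apply hcs
        rw [hdq]
        exact hx) (x := q') h1
    rw [e2] at e3
    exact ⟨e3.1 h2, e3.2 h2⟩
  have hch : ∀ p : V, ∃ q : V, p ∈ C' → q ∈ C ∧ F q = F p := by
    intro p
    by_cases hp : p ∈ C'
    · obtain ⟨q, hq, hqp⟩ := hp
      exact ⟨q, fun _ => ⟨hq, hqp⟩⟩
    · exact ⟨0, fun h => absurd h hp⟩
  choose Q hQ using hch
  -- well defined
  have hwd : ∀ q ∈ C, ∀ q' ∈ C, ∀ p, F q = F p → F q' = F p →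
      p ∈ dom dev (sec dev y q') ∧ sec dev (sec dev y q') p = sec dev (sec dev y q) p := by
    intro q hq q' hq' p h1 h2
    refine key q hq q' hq' p ?_ ?_
    · rw [map_sub, h2, h1, sub_self, norm_zero]
      exact hc _
    · rw [map_sub, h1, sub_self, norm_zero]
      exact hc _
  have hsec : IsSec dev C' (fun p => sec dev (sec dev y (Q p)) p) := by
    constructor
    · intro p hp
      obtain ⟨hQC, hQp⟩ := hQ p hp
      set q := Q p with hq
      have hdq : dev (sec dev y q) = q := dev_sec hdev (hCd hQC)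
      have hpd : p ∈ dom dev (sec dev y q) := (hwd q hQC q hQC p hQp hQp).1
      have h1 : ContinuousAt (sec dev (sec dev y q)) p :=
        (isSec_sec hdev (sec dev y q)).1.continuousAt ((isOpen_dom _).mem_nhds hpd)
      refine ContinuousAt.continuousWithinAt (h1.congr ?_)
      have h2 : Tendsto (fun p' : V => q + (p' - p)) (𝓝 p) (𝓝 q) := by
        have h2 : Continuous fun p' : V => q + (p' - p) := by fun_prop
        simpa using h2.tendsto p
      have h3 : ∀ᶠ p' in 𝓝 p, ‖F (p' - q)‖ < c (sec dev y q) := by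
        refine (isOpen_tball F q (c (sec dev y q))).mem_nhds ?_
        show ‖F (p - q)‖ < _
        rw [map_sub, hQp, sub_self, norm_zero]
        exact hc _
      have h4 : ∀ᶠ p' in 𝓝 p, ‖F (q + (p' - p) - q)‖ < c (sec dev y q) := by
        refine h2.eventually ((isOpen_tball F q (c (sec dev y q))).mem_nhds ?_)
        show ‖F (q - q)‖ < _
        rw [sub_self, map_zero, norm_zero]
        exact hc _
      filter_upwards [h2.eventually (hC.mem_nhds hQC), h3, h4] with p' h5 h6 h7
      have h8 : F (q + (p' - p)) = F p' := by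
        rw [map_add, map_sub, hQp]
        abel
      have h9 : p' ∈ C' := ⟨_, h5, h8⟩
      obtain ⟨hQC', hQp'⟩ := hQ p' h9
      rw [← (key q hQC _ h5 p' h7 h6).2, (hwd _ h5 _ hQC' p' h8 hQp').2]
    · intro p hp
      obtain ⟨hQC, hQp⟩ := hQ p hp
      exact dev_sec hdev (hwd _ hQC _ hQC p hQp hQp).1
  have hsy : (fun p => sec dev (sec dev y (Q p)) p) (dev y) = y := by
    have hyC' := hCC' hy
    obtain ⟨hQC, hQp⟩ := hQ _ hyC'
    show sec dev (sec dev y (Q (dev y))) (dev y) = y
    rw [(hwd _ hy _ hQC (dev y) rfl hQp).2, sec_self hdev, sec_self hdev]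
  exact (chart_convex hdev hC'o hC'c (hCC' hy) hsec hsy).1

/-- `dom dev y` is saturated with respect to `F`.  Proof: if `C` is an open convex set in
`dom dev y` containing `dev y`, glue the sections over the slabs at `sec dev y q`, `q ∈ C`, to a
section over `C + ker F`. -/
theorem saturated {y : Y} {x x' : V} (hx : x ∈ dom dev y) (h : F x = F x') : x' ∈ dom dev y := by
  obtain ⟨C, hC, hconv, hy, hxC, s, hs, hsy⟩ := hx
  exact saturated_chart hdev hslab hC hconv hy (chart_convex hdev hC hconv hy hs hsy).1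
    ⟨x, hxC, h⟩

variable (hinc : ∀ y, dom dev y ≠ univ)
include hinc

theorem radF_pos (y : Y) : 0 < rad dev y F := by
  obtain ⟨c, hc, h⟩ := hslab y
  exact hc.trans_le (le_rad hinc h)

theorem exists_contactF (hF : Function.Surjective F) (y : Y) : ∃ b, IsContact dev y F b := by
  have hp := FiniteDimensional.proper ℝ W
  have hcV := FiniteDimensional.complete ℝ V
  have hcW := FiniteDimensional.complete ℝ W
  have himg : F '' (dom dev y)ᶜ = (F '' dom dev y)ᶜ := by
    ext w
    constructor
    · rintro ⟨b, hb, rfl⟩ ⟨x, hx, hxb⟩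
      exact hb (saturated hdev hslab hx hxb)
    · intro hw
      obtain ⟨b, rfl⟩ := hF w
      exact ⟨b, fun hb => hw ⟨b, hb, rfl⟩, rfl⟩
  have hcl : IsClosed (F '' (dom dev y)ᶜ) := by
    rw [himg]
    exact (F.isOpenMap hF _ (isOpen_dom y)).isClosed_compl
  have hne : (F '' (dom dev y)ᶜ).Nonempty := by
    rw [image_nonempty, nonempty_compl]
    exact hinc y
  obtain ⟨w, ⟨b, hb, rfl⟩, hw⟩ := hcl.exists_infDist_eq_dist hne (F (dev y))
  refine ⟨b, hb, le_antisymm ?_ (rad_le hb)⟩
  refine le_rad hinc fun x hx => ?_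
  by_contra hcon
  have h1 : Metric.infDist (F (dev y)) (F '' (dom dev y)ᶜ) ≤ dist (F (dev y)) (F x) :=
    Metric.infDist_le_dist_of_mem ⟨x, hcon, rfl⟩
  rw [hw, dist_eq_norm, dist_eq_norm, ← map_sub, ← map_sub, ← norm_neg, ← map_neg, neg_sub,
    ← norm_neg (F (dev y - x)), ← map_neg, neg_sub] at h1
  exact absurd hx (not_lt.mpr h1)

theorem radF_continuous : Continuous fun y => rad dev y F :=
  rad_continuous_base hinc hdev (radF_pos hdev hslab hinc)

end A

end Pool.Agent.Helper2.RO
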