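import Pool.Agent.Helper2.RO.ZoomA

/-! Module ZoomB: the zoom argument (half spaces at contacts). -/

set_option autoImplicit false
set_option linter.unusedSectionVars false

open Set Filter Topology

namespace Pool.Agent.Helper2.RO

open Pool.Agent.Helper2.MK Pool.Agent.Helper50.HL

section Sim

variable {V W G Y : Type*} [NormedAddCommGroup V] [NormedSpace ℝ V]
    [NormedAddCommGroup W] [InnerProductSpace ℝ W]
    [Group G] [TopologicalSpace Y] [MulAction G Y] {M : AffineDeveloping V G Y}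
    {F : V →L[ℝ] W}

theorem sim_inner {g : G} {κ : ℝ} (h : ∀ x, ‖F (lin M g x)‖ = κ * ‖F x‖) (x x' : V) :
    inner ℝ (F (lin M g x)) (F (lin M g x')) = κ ^ 2 * inner ℝ (F x) (F x') := by
  rw [real_inner_eq_norm_add_mul_self_sub_norm_mul_self_sub_norm_mul_self_div_two,
    real_inner_eq_norm_add_mul_self_sub_norm_mul_self_sub_norm_mul_self_div_two, ← map_add,
    ← map_add (lin M g), h, h, h, map_add F]
  ring

end Sim

section B

variable {V W G Y : Type*} [NormedAddCommGroup V] [NormedSpace ℝ V] [FiniteDimensional ℝ V]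
    [NormedAddCommGroup W] [InnerProductSpace ℝ W] [FiniteDimensional ℝ W]
    [Group G] [TopologicalSpace Y] [T2Space Y] [MulAction G Y] {M : AffineDeveloping V G Y}
    {F : V →L[ℝ] W} (hF : Function.Surjective F)
    (hslab : ∀ y, ∃ c > 0, ∀ x, ‖F (x - M.dev y)‖ < c → x ∈ dom M.dev y)
    (hsim : ∀ g, ∃ κ > 0, ∀ x, ‖F (lin M g x)‖ = κ * ‖F x‖)
    (hinc : ∀ y, dom M.dev y ≠ univ)
include hF hslab hsim hinc

/-- F1: the half space at a contact -/
theorem halfspace {y : Y} {b : V} (hb : IsContact M.dev y F b) {x : V}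
    (hx : 0 < inner ℝ (F (x - b)) (F (M.dev y - b))) : x ∈ dom M.dev y := by
  have hdev := M.dev_local
  have hprop := FiniteDimensional.proper ℝ W
  obtain ⟨hbn, hbr⟩ := hb
  have hcpos : ∀ y, 0 < rad M.dev y F := radF_pos hdev hslab hinc
  have hccont : Continuous fun y => rad M.dev y F := radF_continuous hdev hslab hinc
  set c := rad M.dev y F with hcdef
  have hc : 0 < c := hcpos y
  set v := M.dev y - b with hv
  have hFv : ‖F v‖ = c := by
    rw [← hbr, hv, ← norm_neg, ← map_neg, neg_sub]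
  -- the slab
  set D : Set V := {x | ‖F (x - M.dev y)‖ < c} with hD
  have hDo : IsOpen D := isOpen_tball F _ _
  have hDc : Convex ℝ D := convex_tball F _ _
  have hDy : M.dev y ∈ D := by
    show ‖F (M.dev y - M.dev y)‖ < c
    rw [sub_self, map_zero, norm_zero]; exact hc
  have hDd : D ⊆ dom M.dev y := fun x hx => mem_dom_of_lt hx
  -- the moving base points
  have hxs : ∀ s : ℝ, 0 < s → s ≤ 1 → ‖F (b + s • v - M.dev y)‖ = (1 - s) * c := by
    intro s hs hs1
    have : b + s • v - M.dev y = -((1 - s) • v) := by rw [hv]; module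
    rw [this, map_neg, norm_neg, map_smul, norm_smul, Real.norm_of_nonneg (by linarith), hFv]
  have hxD : ∀ s : ℝ, 0 < s → s ≤ 1 → b + s • v ∈ D := by
    intro s hs hs1
    show ‖F (b + s • v - M.dev y)‖ < c
    rw [hxs s hs hs1]
    nlinarith
  set ys : ℝ → Y := fun s => sec M.dev y (b + s • v) with hys
  have hdys : ∀ s : ℝ, 0 < s → s ≤ 1 → M.dev (ys s) = b + s • v := fun s hs hs1 =>
    dev_sec hdev (hDd (hxD s hs hs1))
  have hreb : ∀ s : ℝ, 0 < s → s ≤ 1 → D ⊆ dom M.dev (ys s) ∧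
      EqOn (sec M.dev (ys s)) (sec M.dev y) D := fun s hs hs1 =>
    rebase hdev hDo hDc hDy hDd (hxD s hs hs1)
  have hrad : ∀ s : ℝ, 0 < s → s ≤ 1 → rad M.dev (ys s) F = s * c := by
    intro s hs hs1
    apply le_antisymm
    · have hbs : b ∉ dom M.dev (ys s) := by
        rintro ⟨C, hC, hCc, hyC, hbC, t, ht, hty⟩
        rw [hdys s hs hs1] at hyC
        apply hbn
        have hCd : C ⊆ dom M.dev (ys s) :=
          (chart_convex hdev hC hCc (by rw [hdys s hs hs1]; exact hyC) ht hty).1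
        refine mem_dom_of_ray hdev (hDd (hxD s hs hs1)) ?_ hC hCc hyC hCd hbC
        refine ⟨s, 1 - s, hs.le, by linarith, by ring, ?_⟩
        rw [hv]; module
      refine (rad_le hbs).trans (le_of_eq ?_)
      rw [hdys s hs hs1]
      have : b - (b + s • v) = -(s • v) := by module
      rw [this, map_neg, norm_neg, map_smul, norm_smul, Real.norm_of_nonneg hs.le, hFv]
    · refine le_rad hinc fun x hx => (hreb s hs hs1).1 ?_
      show ‖F (x - M.dev y)‖ < c
      rw [hdys s hs hs1] at hx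
      have h1 : x - M.dev y = (x - (b + s • v)) + (b + s • v - M.dev y) := by module
      rw [h1, map_add]
      refine (norm_add_le _ _).trans_lt ?_
      rw [hxs s hs hs1]
      linarith
  -- the compact set
  obtain ⟨K, hK, hcov⟩ := M.covering.cocompact
  have hcov' : ∀ s : ℝ, ∃ g : G, ∃ z ∈ K, ys s = g • z := by
    intro s
    obtain ⟨g, hg⟩ := hcov (ys s)
    exact ⟨g⁻¹, g • ys s, hg, by rw [inv_smul_smul]⟩
  choose g z hzK hgz using hcov'
  choose κ hκ hsim' using hsim
  set k : ℝ → ℝ := fun s => κ (g s) with hk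
  have hkpos : ∀ s, 0 < k s := fun s => hκ _
  have hkr : ∀ s : ℝ, 0 < s → s ≤ 1 → s * c = k s * rad M.dev (z s) F := by
    intro s hs hs1
    rw [← hrad s hs hs1, hgz s]
    exact rad_smul M (g s) (z s) (hkpos s).le (hsim' (g s))
  set om : ℝ → W := fun s => F (M.dev (z s) - M.hol (g s)⁻¹ b) with hom
  have hdz : ∀ s : ℝ, M.dev (z s) = M.hol (g s)⁻¹ (M.dev (ys s)) := by
    intro s
    rw [hgz s, M.dev_smul, hol_inv_hol]
  -- `F (lin (g s) _)` of the displacement
  have hlinom : ∀ s : ℝ, 0 < s → s ≤ 1 →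
      M.dev (z s) - M.hol (g s)⁻¹ b = s • lin M (g s)⁻¹ v := by
    intro s hs hs1
    rw [hdz s, hol_sub, hdys s hs hs1, add_sub_cancel_left, map_smul]
  have homn : ∀ s : ℝ, 0 < s → s ≤ 1 → ‖om s‖ = rad M.dev (z s) F := by
    intro s hs hs1
    have h1 := hsim' (g s) (M.dev (z s) - M.hol (g s)⁻¹ b)
    rw [hlinom s hs hs1, map_smul, lin_lin_inv, map_smul, norm_smul, Real.norm_of_nonneg hs.le,
      hFv, ← hlinom s hs hs1, hkr s hs hs1] at h1
    exact (mul_left_cancel₀ (hkpos s).ne' h1).symm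
  -- the ultrafilter
  set U : Ultrafilter ℝ := Ultrafilter.of (𝓝[>] (0 : ℝ)) with hU
  have hUle : (U : Filter ℝ) ≤ 𝓝[>] (0 : ℝ) := Ultrafilter.of_le _
  have hev : ∀ᶠ s in (U : Filter ℝ), 0 < s ∧ s ≤ 1 := by
    filter_upwards [hUle (Ioc_mem_nhdsGT one_pos)] with s hs
    exact hs
  have hs0 : Tendsto (fun s : ℝ => s) (U : Filter ℝ) (𝓝 0) := hUle.trans nhdsWithin_le_nhds
  obtain ⟨z0, hz0K, hz0⟩ : ∃ z0 ∈ K, Tendsto z (U : Filter ℝ) (𝓝 z0) := by
    obtain ⟨z0, h1, h2⟩ := hK.ultrafilter_le_nhds' (U.map z)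
      (Ultrafilter.mem_map.2 (Filter.univ_mem' hzK))
    exact ⟨z0, h1, h2⟩
  have hcz : Tendsto (fun s => rad M.dev (z s) F) (U : Filter ℝ) (𝓝 (rad M.dev z0 F)) :=
    (hccont.tendsto z0).comp hz0
  obtain ⟨o, ho⟩ : ∃ o : W, Tendsto om (U : Filter ℝ) (𝓝 o) := by
    have h1 : ∀ᶠ s in (U : Filter ℝ), om s ∈ Metric.closedBall (0 : W) (rad M.dev z0 F + 1) := by
      filter_upwards [hev, hcz.eventually_le_const (lt_add_one _)] with s hs h2
      rw [mem_closedBall_zero_iff, homn s hs.1 hs.2]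
      exact h2
    obtain ⟨o, -, h2⟩ := (isCompact_closedBall (0 : W) (rad M.dev z0 F + 1)).ultrafilter_le_nhds'
      (U.map om) (Ultrafilter.mem_map.2 h1)
    exact ⟨o, h2⟩
  have hon : ‖o‖ = rad M.dev z0 F := by
    refine tendsto_nhds_unique ho.norm (hcz.congr' ?_)
    filter_upwards [hev] with s hs
    exact (homn s hs.1 hs.2).symm
  have hopos : 0 < ‖o‖ := by rw [hon]; exact hcpos _
  have hdevz : Tendsto (fun s => M.dev (z s)) (U : Filter ℝ) (𝓝 (M.dev z0)) :=
    (hdev.continuous.tendsto z0).comp hz0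
  -- the half space at `z0`
  set H : Set V := {x | 0 < inner ℝ (F (x - M.dev z0) + o) o} with hH
  have hHo : IsOpen H := by
    refine isOpen_lt continuous_const ?_
    fun_prop
  have hHc : Convex ℝ H := by
    intro x1 h1 x2 h2 a1 a2 ha1 ha2 ha
    have h1' : 0 < inner ℝ (F (x1 - M.dev z0) + o) o := h1
    have h2' : 0 < inner ℝ (F (x2 - M.dev z0) + o) o := h2
    show 0 < inner ℝ (F (a1 • x1 + a2 • x2 - M.dev z0) + o) o
    have e : F (a1 • x1 + a2 • x2 - M.dev z0) + o =
        a1 • (F (x1 - M.dev z0) + o) + a2 • (F (x2 - M.dev z0) + o) := by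
      have ha' : a2 = 1 - a1 := by linarith
      subst ha'
      simp only [map_sub, map_add, map_smul]
      module
    rw [e, inner_add_left, real_inner_smul_left, real_inner_smul_left]
    rcases eq_or_lt_of_le ha1 with h | h
    · have : a2 = 1 := by linarith
      rw [← h, this]
      linarith
    · have h3 : 0 < a1 * inner ℝ (F (x1 - M.dev z0) + o) o := mul_pos h h1'
      have h4 : 0 ≤ a2 * inner ℝ (F (x2 - M.dev z0) + o) o := mul_nonneg ha2 h2'.le
      linarith
  have hHz : M.dev z0 ∈ H := by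
    show 0 < inner ℝ (F (M.dev z0 - M.dev z0) + o) o
    rw [sub_self, map_zero, zero_add, real_inner_self_eq_norm_sq]
    positivity
  -- (i) every point of `H` eventually lies in the preimage of the slab
  have hi : ∀ x ∈ H, ∀ᶠ s in (U : Filter ℝ), M.hol (g s) x ∈ D := by
    intro x hxH
    have ha : Tendsto (fun s => F (x - M.dev (z s)) + om s) (U : Filter ℝ)
        (𝓝 (F (x - M.dev z0) + o)) :=
      ((F.continuous.tendsto _).comp (tendsto_const_nhds.sub hdevz)).add ho
    have hl : Tendsto (fun s => 2 * inner ℝ (F (x - M.dev (z s)) + om s) (om s) -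
        s * ‖F (x - M.dev (z s)) + om s‖ ^ 2) (U : Filter ℝ)
        (𝓝 (2 * inner ℝ (F (x - M.dev z0) + o) o - 0 * ‖F (x - M.dev z0) + o‖ ^ 2)) :=
      ((ha.inner ho).const_mul 2).sub (hs0.mul (ha.norm.pow 2))
    have hpos : 0 < 2 * inner ℝ (F (x - M.dev z0) + o) o -
        0 * ‖F (x - M.dev z0) + o‖ ^ 2 := by
      have h1 : 0 < inner ℝ (F (x - M.dev z0) + o) o := hxH
      linarith
    filter_upwards [hev, hl.eventually_const_lt hpos] with s hs h1
    -- algebra
    have e1 : F (x - M.dev (z s)) + om s = F (x - M.hol (g s)⁻¹ b) := by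
      rw [hom]
      simp only
      rw [← map_add, sub_add_sub_cancel]
    have e2 : M.hol (g s) x - b = lin M (g s) (x - M.hol (g s)⁻¹ b) := by
      rw [← hol_sub, hol_hol_inv]
    have e3 : v = lin M (g s) (lin M (g s)⁻¹ v) := by rw [lin_lin_inv]
    have e4 : om s = s • F (lin M (g s)⁻¹ v) := by
      rw [hom]
      simp only
      rw [hlinom s hs.1 hs.2, map_smul]
    rw [e1] at h1
    have h2 : inner ℝ (F (M.hol (g s) x - b)) (F v) =
        k s ^ 2 * inner ℝ (F (x - M.hol (g s)⁻¹ b)) (F (lin M (g s)⁻¹ v)) := by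
      conv_lhs => rw [e2, e3]
      exact sim_inner (hsim' (g s)) _ _
    have h3 : ‖F (M.hol (g s) x - b)‖ ^ 2 = k s ^ 2 * ‖F (x - M.hol (g s)⁻¹ b)‖ ^ 2 := by
      rw [e2, hsim' (g s)]
      ring
    have h4 : ‖F (M.hol (g s) x - M.dev y)‖ ^ 2 = ‖F (M.hol (g s) x - b)‖ ^ 2 -
        2 * inner ℝ (F (M.hol (g s) x - b)) (F v) + c ^ 2 := by
      rw [← hFv, ← norm_sub_sq_real, ← map_sub]
      congr 3
      rw [hv]; abel
    have h5 : ‖F (M.hol (g s) x - M.dev y)‖ ^ 2 < c ^ 2 := by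
      rw [h4, h2, h3]
      rw [e4, real_inner_smul_right] at h1
      have h6 : 0 < s * (2 * inner ℝ (F (x - M.hol (g s)⁻¹ b)) (F (lin M (g s)⁻¹ v)) -
          ‖F (x - M.hol (g s)⁻¹ b)‖ ^ 2) := by linarith
      have h7 := (mul_pos_iff_of_pos_left hs.1).1 h6
      have h8 := mul_pos (pow_pos (hkpos s) 2) h7
      linarith
    exact lt_of_pow_lt_pow_left₀ 2 hc.le h5
  have hHd : H ⊆ dom M.dev z0 := by
    intro x hxH
    have hnear := hz0.eventually (near hdev z0)
    have h3 : ∃ s, (0 < s ∧ s ≤ 1) ∧ M.hol (g s) x ∈ D ∧ M.hol (g s) (M.dev z0) ∈ D ∧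
        sec M.dev (z s) (M.dev z0) = z0 := by
      have := (((hev.and (hi x hxH)).and (hi _ hHz)).and hnear).exists
      obtain ⟨s, ⟨⟨h1, h2⟩, h3⟩, h4⟩ := this
      exact ⟨s, h1, h2, h3, h4.2.2.2⟩
    obtain ⟨s, ⟨hs, hs1⟩, h4, h5, h6⟩ := h3
    have h7 := rebase hdev (y := z s) (C := M.hol (g s) ⁻¹' D) (hDo.preimage (hol_continuous M _))
      (hol_convex_preimage M _ hDc) (by
        show M.hol (g s) (M.dev (z s)) ∈ D
        rw [← M.dev_smul, ← hgz s, hdys s hs hs1]
        exact hxD s hs hs1) (by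
        intro x' hx'
        rw [← dom_smul M (g s), ← hgz s]
        exact (hreb s hs hs1).1 hx') h5
    rw [h6] at h7
    exact h7.1 h4
  -- (ii)
  have hk0 : Tendsto k (U : Filter ℝ) (𝓝 0) := by
    have h1 : Tendsto (fun s => s * c / rad M.dev (z s) F) (U : Filter ℝ)
        (𝓝 (0 * c / rad M.dev z0 F)) := (hs0.mul_const c).div hcz (hcpos z0).ne'
    rw [zero_mul, zero_div] at h1
    refine h1.congr' ?_
    filter_upwards [hev] with s hs
    rw [hkr s hs.1 hs.2, mul_div_cancel_right₀ _ (hcpos _).ne']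
  have hii : ∀ x, 0 < inner ℝ (F (x - b)) (F v) →
      ∀ᶠ s in (U : Filter ℝ), M.hol (g s)⁻¹ x ∈ H := by
    intro x hx
    set q := inner ℝ (F (x - b)) (F v) with hq
    -- the error term
    have herr : Tendsto (fun s => ‖F (x - b)‖ * ‖o - om s‖ +
        k s * (‖F (M.dev (z s) - M.dev z0) + (o - om s)‖ * ‖o‖)) (U : Filter ℝ)
        (𝓝 (‖F (x - b)‖ * ‖o - o‖ +
          0 * (‖F (M.dev z0 - M.dev z0) + (o - o)‖ * ‖o‖))) := by
      have h1 : Tendsto (fun s => o - om s) (U : Filter ℝ) (𝓝 (o - o)) :=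
        tendsto_const_nhds.sub ho
      have h2 : Tendsto (fun s => F (M.dev (z s) - M.dev z0)) (U : Filter ℝ)
          (𝓝 (F (M.dev z0 - M.dev z0))) :=
        (F.continuous.tendsto _).comp (hdevz.sub tendsto_const_nhds)
      exact (h1.norm.const_mul _).add (hk0.mul ((h2.add h1).norm.mul_const _))
    have hlim : Tendsto (fun s => rad M.dev (z s) F / c * q) (U : Filter ℝ)
        (𝓝 (rad M.dev z0 F / c * q)) := (hcz.div_const c).mul_const q
    have hd := hlim.sub herr
    have hpos : 0 < rad M.dev z0 F / c * q - (‖F (x - b)‖ * ‖o - o‖ +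
          0 * (‖F (M.dev z0 - M.dev z0) + (o - o)‖ * ‖o‖)) := by
      rw [sub_self, norm_zero, mul_zero, zero_mul, add_zero, sub_zero]
      exact mul_pos (div_pos (hcpos z0) hc) hx
    filter_upwards [hev, hd.eventually_const_lt hpos] with s hs h1
    show 0 < inner ℝ (F (M.hol (g s)⁻¹ x - M.dev z0) + o) o
    set a := F (lin M (g s)⁻¹ (x - b)) with ha
    have e1 : F (M.hol (g s)⁻¹ x - M.dev z0) + o =
        a + (F (M.dev (z s) - M.dev z0) + (o - om s)) := by
      rw [ha, ← hol_sub]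
      show _ = _ + (_ + (o - F (M.dev (z s) - M.hol (g s)⁻¹ b)))
      simp only [map_sub]
      abel
    have e2 : inner ℝ a (om s) * k s = rad M.dev (z s) F / c * q := by
      have h2 : om s = s • F (lin M (g s)⁻¹ v) := by
        rw [hom]
        simp only
        rw [hlinom s hs.1 hs.2, map_smul]
      have h3 := sim_inner (hsim' (g s)) (lin M (g s)⁻¹ (x - b)) (lin M (g s)⁻¹ v)
      rw [lin_lin_inv, lin_lin_inv] at h3
      have h4 : q = k s ^ 2 * inner ℝ a (F (lin M (g s)⁻¹ v)) := h3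
      have h5 := hkr s hs.1 hs.2
      rw [h2, real_inner_smul_right, h4]
      rw [div_mul_eq_mul_div, eq_div_iff hc.ne']
      calc s * inner ℝ a (F (lin M (g s)⁻¹ v)) * k s * c
          = (s * c) * (inner ℝ a (F (lin M (g s)⁻¹ v)) * k s) := by ring
        _ = _ := by rw [h5]; ring
    have e3 : k s * ‖a‖ = ‖F (x - b)‖ := by
      have h2 := hsim' (g s) (lin M (g s)⁻¹ (x - b))
      rw [lin_lin_inv] at h2
      exact h2.symm
    have e4 : k s * |inner ℝ a (o - om s)| ≤ ‖F (x - b)‖ * ‖o - om s‖ := by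
      have h2 := mul_le_mul_of_nonneg_left (abs_real_inner_le_norm a (o - om s)) (hkpos s).le
      rw [← mul_assoc, e3] at h2
      exact h2
    have e5 : k s * |inner ℝ (F (M.dev (z s) - M.dev z0) + (o - om s)) o| ≤
        k s * (‖F (M.dev (z s) - M.dev z0) + (o - om s)‖ * ‖o‖) :=
      mul_le_mul_of_nonneg_left (abs_real_inner_le_norm _ _) (hkpos s).le
    have e6 : inner ℝ a o = inner ℝ a (om s) + inner ℝ a (o - om s) := by
      rw [← inner_add_right, add_sub_cancel]
    rw [e1, inner_add_left, e6]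
    have e7 := neg_abs_le (inner ℝ a (o - om s))
    have e8 := neg_abs_le (inner ℝ (F (M.dev (z s) - M.dev z0) + (o - om s)) o)
    have e9 : 0 < k s * (inner ℝ a (om s) + inner ℝ a (o - om s) +
        inner ℝ (F (M.dev (z s) - M.dev z0) + (o - om s)) o) := by
      nlinarith [mul_le_mul_of_nonneg_left e7 (hkpos s).le,
        mul_le_mul_of_nonneg_left e8 (hkpos s).le]
    exact (mul_pos_iff_of_pos_left (hkpos s)).1 e9
  have hyb : 0 < inner ℝ (F (M.dev y - b)) (F v) := by
    rw [← hv, real_inner_self_eq_norm_sq, hFv]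
    positivity
  have hzH : ∀ᶠ s in (U : Filter ℝ), M.dev (z s) ∈ H := hdevz.eventually (hHo.mem_nhds hHz)
  have hfin := ((((hev.and (hii x hx)).and (hii _ hyb)).and hzH).and
    (hz0.eventually (near_convex hdev hHo hHc hHz hHd))).exists
  obtain ⟨s, ⟨⟨⟨⟨hs, hs1⟩, h1⟩, h2⟩, h3⟩, h4⟩ := hfin
  have h5 := rebase hdev (y := ys s) (C := M.hol (g s)⁻¹ ⁻¹' H)
    (hHo.preimage (hol_continuous M _)) (hol_convex_preimage M _ hHc) (by
      show M.hol (g s)⁻¹ (M.dev (ys s)) ∈ H
      rw [← hdz s]; exact h3) (by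
      intro x' hx'
      have h6 := h4.1 hx'
      rw [← dom_smul M (g s), hol_hol_inv, ← hgz s] at h6
      exact h6) h2
  have h6 : sec M.dev (ys s) (M.dev y) = y := by
    rw [(hreb s hs hs1).2 hDy, sec_self hdev]
  rw [h6] at h5
  exact h5.1 h1

end B

end Pool.Agent.Helper2.RO
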